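import Pool.Agent.Q73.SO.Stm

/-!
# Covariance of the evolution and of the short time Fourier transform (job SO-3)
-/

set_option autoImplicit false
open MeasureTheory Filter Topology Complex
open scoped ContDiff FourierTransform SchwartzMap ComplexConjugate

namespace Pool.Agent.Q73.SO

noncomputable section

namespace COV

variable {d : ℕ}

lemma chr_norm (k y : E d) : ‖chr k y‖ = 1 := by
  unfold chr
  exact Complex.norm_exp_ofReal_mul_I _

lemma chr_add (k y z : E d) : chr k (y + z) = chr k y * chr k z := by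
  unfold chr
  rw [← Complex.exp_add]
  congr 1
  rw [inner_add_right]
  push_cast
  ring

lemma chr_conj (k y : E d) : conj (chr k y) = cexp (((-2 * Real.pi * inner ℝ y k : ℝ) : ℂ) * I) := by
  unfold chr
  rw [← Complex.exp_conj]
  congr 1
  rw [map_mul, conj_I, conj_ofReal, real_inner_comm]
  push_cast
  ring

lemma chr_sub (k k' y : E d) : conj (chr (k - k') y) = chr k' y * conj (chr k y) := by
  unfold chr
  rw [← Complex.exp_conj, ← Complex.exp_conj, ← Complex.exp_add]
  congr 1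
  rw [map_mul, map_mul, conj_I, conj_ofReal, conj_ofReal, inner_sub_left]
  push_cast
  ring

lemma fourier_int (f : 𝓢(E d, ℂ)) (ξ : E d) : 𝓕 f ξ = ∫ y, conj (chr ξ y) * f y := by
  have h1 : 𝓕 f ξ = 𝓕 (f : E d → ℂ) ξ := rfl
  rw [h1, Real.fourier_eq']
  congr 1
  funext y
  rw [chr_conj, smul_eq_mul]

lemma fourier_W (hU : S_U) (x k : E d) (f : 𝓢(E d, ℂ)) (ξ : E d) :
    𝓕 (W x k f) ξ = conj (chr (ξ - k) x) * 𝓕 f (ξ - k) := by
  rw [fourier_int, fourier_int, ← integral_const_mul]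
  rw [← integral_add_right_eq_self _ x]
  congr 1
  funext y
  rw [(hU d).2.2.2.1, add_sub_cancel_right, chr_sub ξ k x, chr_sub ξ k y, chr_add, chr_add, map_mul]
  ring

lemma inj {f g : 𝓢(E d, ℂ)} (h : ∀ ξ, 𝓕 f ξ = 𝓕 g ξ) : f = g := by
  have h1 : 𝓕 f = 𝓕 g := by
    ext ξ
    exact h ξ
  have h2 := congrArg (fun F : 𝓢(E d, ℂ) => 𝓕⁻ F) h1
  simpa using h2

lemma phase (t : ℝ) (x k ξ : E d) :
    sym t ξ * conj (chr (ξ - k) x) = cexp (((4 * Real.pi ^ 2 * t * ‖k‖ ^ 2 : ℝ) : ℂ) * I) *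
      (conj (chr (ξ - k) (x - (4 * Real.pi * t) • k)) * sym t (ξ - k)) := by
  rw [chr_conj, chr_conj]
  unfold sym
  rw [← Complex.exp_add, ← Complex.exp_add, ← Complex.exp_add]
  congr 1
  have h1 : ‖ξ‖ ^ 2 = ‖k‖ ^ 2 + 2 * inner ℝ k (ξ - k) + ‖ξ - k‖ ^ 2 := by
    have h2 := norm_add_sq_real k (ξ - k)
    rwa [add_sub_cancel] at h2
  rw [inner_sub_left, real_inner_smul_left, h1]
  push_cast
  ring

end COV

open COV in
/-- covariance -/
theorem t_COV : S_COV := by
  intro hU d
  refine ⟨?_, ?_⟩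
  · intro t x k f
    apply inj
    intro ξ
    have h1 : 𝓕 (cexp (((4 * Real.pi ^ 2 * t * ‖k‖ ^ 2 : ℝ) : ℂ) * I) •
        W (x - (4 * Real.pi * t) • k) k (U t f)) ξ = cexp (((4 * Real.pi ^ 2 * t * ‖k‖ ^ 2 : ℝ) : ℂ) * I) *
        𝓕 (W (x - (4 * Real.pi * t) • k) k (U t f)) ξ := by
      rw [FourierTransform.fourier_smul]
      rfl
    rw [h1, (hU d).2.2.1, fourier_W hU, fourier_W hU, (hU d).2.2.1, ← mul_assoc, phase]
    ring
  · intro c x' k' f x k
    have h1 : V (fun y => c y * W x' k' f y) x k = (chr k' x' * conj (chr k x')) *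
        V (fun y => c (y + x') * f y) (x - x') (k - k') := by
      unfold V
      rw [← integral_const_mul, ← integral_add_right_eq_self _ x']
      congr 1
      funext y
      have h2 : y + x' - x = y - (x - x') := by abel
      beta_reduce
      rw [(hU d).2.2.2.1, add_sub_cancel_right, chr_sub, chr_add, chr_add, map_mul, h2]
      ring
    rw [h1, norm_mul, norm_mul, RCLike.norm_conj, chr_norm, chr_norm]
    ring

end

end Pool.Agent.Q73.SO
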