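import Pool.Agent.Q73.SO.Stm

/-!
# The evolution: basic facts (job SO-1)
-/

set_option autoImplicit false
open MeasureTheory Filter Topology Complex
open scoped ContDiff FourierTransform SchwartzMap ComplexConjugate

namespace Pool.Agent.Q73.SO

noncomputable section

namespace UU

variable {d : ℕ}

/-- the character `s ↦ exp(is)` -/
def ee (s : ℝ) : ℂ := cexp ((s : ℂ) * I)

lemma ee_deriv (c : ℂ) (s : ℝ) : HasDerivAt (fun s : ℝ => c * ee s) (c * I * ee s) s := by
  unfold ee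
  have h1 : HasDerivAt (fun s : ℝ => (s : ℂ) * I) (1 * I) s := (Complex.ofRealCLM.hasDerivAt (x := s)).mul_const I
  have h2 := (h1.cexp).const_mul c
  refine h2.congr_deriv ?_
  ring

lemma ee_iter (n : ℕ) : iteratedDeriv n ee = fun s => I ^ n * ee s := by
  induction n with
  | zero => funext s; simp
  | succ n ih =>
    rw [iteratedDeriv_succ, ih]
    funext s
    rw [(ee_deriv (I ^ n) s).deriv, pow_succ]

lemma ee_norm (s : ℝ) : ‖ee s‖ = 1 := by
  unfold ee
  exact Complex.norm_exp_ofReal_mul_I s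

lemma ee_temp : Function.HasTemperateGrowth ee := by
  refine ⟨?_, ?_⟩
  · unfold ee
    exact ((Complex.ofRealCLM.contDiff).mul contDiff_const).cexp
  · intro n
    refine ⟨0, 1, fun x => ?_⟩
    rw [norm_iteratedFDeriv_eq_norm_iteratedDeriv, ee_iter, pow_zero, mul_one, norm_mul, norm_pow, norm_I,
      one_pow, ee_norm, mul_one]

lemma sym_temp (t : ℝ) : Function.HasTemperateGrowth (sym (d := d) t) := by
  have h1 : Function.HasTemperateGrowth (fun ξ : E d => 4 * Real.pi ^ 2 * t * ‖ξ‖ ^ 2) :=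
    (Function.HasTemperateGrowth.const (4 * Real.pi ^ 2 * t)).mul (Function.hasTemperateGrowth_norm_sq (E d))
  exact ee_temp.comp h1

lemma chr_temp (k : E d) : Function.HasTemperateGrowth (chr k) := by
  have h1 : Function.HasTemperateGrowth (fun y : E d => 2 * Real.pi * inner ℝ k y) :=
    (Function.HasTemperateGrowth.const (2 * Real.pi)).mul (Function.hasTemperateGrowth_inner_right k)
  exact ee_temp.comp h1

lemma fourier_U (t : ℝ) (u : 𝓢(E d, ℂ)) (ξ : E d) : 𝓕 (U t u) ξ = sym t ξ * 𝓕 u ξ := by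
  unfold U
  rw [FourierTransform.fourier_fourierInv_eq, SchwartzMap.smulLeftCLM_apply_apply (sym_temp t), smul_eq_mul]

lemma W_apply (x k : E d) (f : 𝓢(E d, ℂ)) (y : E d) : W x k f y = chr k y * f (y - x) := by
  unfold W
  rw [SchwartzMap.smulLeftCLM_apply_apply (chr_temp k), SchwartzMap.compSubConstCLM_apply, smul_eq_mul]

lemma pr_fourier (f h : 𝓢(E d, ℂ)) : pr f h = pr (𝓕 f : 𝓢(E d, ℂ)) (𝓕 h : 𝓢(E d, ℂ)) := by
  have h1 := SchwartzMap.integral_inner_fourier_fourier h f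
  unfold pr
  have h2 : ∀ a b : ℂ, a * conj b = inner ℂ b a := by
    intro a b
    rw [RCLike.inner_apply]
  simp only [h2]
  exact h1.symm

lemma sym_neg (t : ℝ) (ξ : E d) : conj (sym (-t) ξ) = sym t ξ := by
  unfold sym
  rw [← Complex.exp_conj]
  congr 1
  rw [map_mul, conj_I, conj_ofReal]
  push_cast
  ring

lemma sym_add (t s : ℝ) (ξ : E d) : sym t ξ * sym s ξ = sym (t + s) ξ := by
  unfold sym
  rw [← Complex.exp_add]
  congr 1
  push_cast
  ring

lemma pr_U (t : ℝ) (f h : 𝓢(E d, ℂ)) : pr (U t f) h = pr f (U (-t) h) := by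
  rw [pr_fourier, pr_fourier f]
  unfold pr
  congr 1
  funext y
  rw [fourier_U, fourier_U, map_mul, sym_neg]
  ring

lemma inj {f g : 𝓢(E d, ℂ)} (h : ∀ ξ, 𝓕 f ξ = 𝓕 g ξ) : f = g := by
  have h1 : 𝓕 f = 𝓕 g := by
    ext ξ
    exact h ξ
  have h2 := congrArg (fun F : 𝓢(E d, ℂ) => 𝓕⁻ F) h1
  simpa using h2

lemma U_U (t s : ℝ) (f : 𝓢(E d, ℂ)) : U t (U s f) = U (t + s) f := by
  apply inj
  intro ξ
  rw [fourier_U, fourier_U, fourier_U, ← sym_add]
  ring

lemma U_zero (f : 𝓢(E d, ℂ)) : U 0 f = f := by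
  apply inj
  intro ξ
  rw [fourier_U]
  unfold sym
  simp

lemma pr_self (f : 𝓢(E d, ℂ)) : pr f f = ((∫ y, ‖f y‖ ^ 2 : ℝ) : ℂ) := by
  unfold pr
  rw [← integral_complex_ofReal]
  congr 1
  funext y
  rw [Complex.mul_conj, Complex.normSq_eq_norm_sq]

lemma norm_U (t : ℝ) (f : 𝓢(E d, ℂ)) : ∫ y, ‖U t f y‖ ^ 2 = ∫ y, ‖f y‖ ^ 2 := by
  have h1 : pr (U t f) (U t f) = pr f f := by
    rw [pr_U, U_U, neg_add_cancel, U_zero]
  rw [pr_self, pr_self] at h1
  exact_mod_cast h1

end UU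

open UU in
/-- the evolution: basic facts -/
theorem t_U : S_U := fun _ => ⟨sym_temp, chr_temp, fourier_U, W_apply, pr_fourier, pr_U, norm_U, U_U⟩

end

end Pool.Agent.Q73.SO
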