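import Pool.Agent.Q73.SO.Stm

/-!
# Weak convergence on a ball and analyticity (job SO-12)
-/

set_option autoImplicit false
open MeasureTheory Filter Topology Complex
open scoped ContDiff FourierTransform SchwartzMap ComplexConjugate

namespace Pool.Agent.Q73.SO

noncomputable section

namespace BARG

variable {d : ℕ}

/-! ### The entire functions along lines -/

/-- the exponent -/
def phi (y e w : E d) (ζ : ℂ) : ℂ :=
  -(Real.pi : ℂ) * ((‖w - y‖ ^ 2 : ℝ) : ℂ) + 2 * Real.pi * ζ * ((inner ℝ e (w - y) : ℝ) : ℂ) -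
    Real.pi * ζ ^ 2 * ((‖e‖ ^ 2 : ℝ) : ℂ)

lemma phi_re (y e w : E d) (ζ : ℂ) : (phi y e w ζ).re =
    Real.pi * ζ.im ^ 2 * ‖e‖ ^ 2 - Real.pi * ‖w - (y + ζ.re • e)‖ ^ 2 := by
  have h1 : ‖w - (y + ζ.re • e)‖ ^ 2 = ‖w - y‖ ^ 2 - 2 * ζ.re * inner ℝ e (w - y) + ζ.re ^ 2 * ‖e‖ ^ 2 := by
    have h2 : w - (y + ζ.re • e) = (w - y) - ζ.re • e := by abel
    rw [h2, norm_sub_sq_real, real_inner_smul_right, norm_smul, mul_pow, Real.norm_eq_abs, sq_abs,
      real_inner_comm]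
    ring
  rw [h1]
  unfold phi
  rw [sub_re, add_re]
  have e1 : (-(Real.pi : ℂ) * ((‖w - y‖ ^ 2 : ℝ) : ℂ)).re = -Real.pi * ‖w - y‖ ^ 2 := by
    rw [← ofReal_neg, ← ofReal_mul, ofReal_re]
  have e2 : (2 * (Real.pi : ℂ) * ζ * ((inner ℝ e (w - y) : ℝ) : ℂ)).re = 2 * Real.pi * ζ.re * inner ℝ e (w - y) := by
    rw [mul_re, ofReal_re, ofReal_im, mul_zero, sub_zero]
    congr 1
    rw [show 2 * (Real.pi : ℂ) * ζ = ((2 * Real.pi : ℝ) : ℂ) * ζ by push_cast; ring, re_ofReal_mul]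
  have e3 : ((Real.pi : ℂ) * ζ ^ 2 * ((‖e‖ ^ 2 : ℝ) : ℂ)).re = Real.pi * (ζ.re ^ 2 - ζ.im ^ 2) * ‖e‖ ^ 2 := by
    rw [mul_re, ofReal_re, ofReal_im, mul_zero, sub_zero]
    congr 1
    rw [re_ofReal_mul, pow_two, mul_re]
    ring
  rw [e1, e2, e3]
  ring

/-- the function along the line -/
def lin (v : 𝓢(E d, ℂ)) (y e : E d) (ζ : ℂ) : ℂ := ∫ w, v w * cexp (phi y e w ζ)

lemma chr_conj' (k y : E d) : conj (chr k y) = cexp (((-2 * Real.pi * inner ℝ k y : ℝ) : ℂ) * I) := by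
  unfold chr
  rw [← Complex.exp_conj]
  congr 1
  rw [map_mul, conj_I, conj_ofReal]
  push_cast
  ring

lemma lin_eq (v : 𝓢(E d, ℂ)) (y e : E d) (ζ : ℂ) :
    lin v y e ζ = cexp (((Real.pi * ζ.im ^ 2 * ‖e‖ ^ 2 : ℝ) : ℂ) +
      ((-(2 * Real.pi * ζ.im * inner ℝ e (y + ζ.re • e)) : ℝ) : ℂ) * I) *
      V v (y + ζ.re • e) (-(ζ.im • e)) := by
  unfold lin V
  rw [← integral_const_mul]
  congr 1
  funext w
  rw [chr_conj']
  have hg : (gg (w - (y + ζ.re • e)) : ℂ) =
      cexp (((-Real.pi * ‖w - (y + ζ.re • e)‖ ^ 2 : ℝ) : ℂ)) := by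
    unfold gg
    push_cast
    rfl
  rw [hg]
  have h1 : phi y e w ζ = (((Real.pi * ζ.im ^ 2 * ‖e‖ ^ 2 : ℝ) : ℂ) +
      ((-(2 * Real.pi * ζ.im * inner ℝ e (y + ζ.re • e)) : ℝ) : ℂ) * I) +
      (((-2 * Real.pi * inner ℝ (-(ζ.im • e)) w : ℝ) : ℂ) * I +
      ((-Real.pi * ‖w - (y + ζ.re • e)‖ ^ 2 : ℝ) : ℂ)) := by
    apply Complex.ext
    · rw [phi_re]
      simp only [add_re, ofReal_re, mul_re, I_re, I_im, ofReal_im, mul_zero, sub_zero, add_zero, mul_one]
      ring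
    · unfold phi
      have e1 : (-(Real.pi : ℂ) * ((‖w - y‖ ^ 2 : ℝ) : ℂ)).im = 0 := by
        rw [← ofReal_neg, ← ofReal_mul, ofReal_im]
      have e2 : (2 * (Real.pi : ℂ) * ζ * ((inner ℝ e (w - y) : ℝ) : ℂ)).im = 2 * Real.pi * ζ.im * inner ℝ e (w - y) := by
        rw [mul_im, ofReal_re, ofReal_im, mul_zero, zero_add]
        congr 1
        rw [show 2 * (Real.pi : ℂ) * ζ = ((2 * Real.pi : ℝ) : ℂ) * ζ by push_cast; ring, im_ofReal_mul]
      have e3 : ((Real.pi : ℂ) * ζ ^ 2 * ((‖e‖ ^ 2 : ℝ) : ℂ)).im = Real.pi * (2 * ζ.re * ζ.im) * ‖e‖ ^ 2 := by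
        rw [mul_im, ofReal_re, ofReal_im, mul_zero, zero_add]
        congr 1
        rw [im_ofReal_mul, pow_two, mul_im]
        ring
      rw [sub_im, add_im, e1, e2, e3]
      simp only [add_im, ofReal_re, mul_im, I_re, I_im, ofReal_im, mul_zero, zero_mul, add_zero, mul_one, zero_add]
      rw [inner_add_right, real_inner_smul_right, inner_neg_left, real_inner_smul_left, inner_sub_right,
        real_inner_self_eq_norm_sq]
      ring
  rw [h1, Complex.exp_add, Complex.exp_add (((-2 * Real.pi * inner ℝ (-(ζ.im • e)) w : ℝ) : ℂ) * I)]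
  ring

lemma lin_norm (v : 𝓢(E d, ℂ)) (y e : E d) (ζ : ℂ) :
    ‖lin v y e ζ‖ = Real.exp (Real.pi * ζ.im ^ 2 * ‖e‖ ^ 2) * ‖V v (y + ζ.re • e) (-(ζ.im • e))‖ := by
  rw [lin_eq, norm_mul, Complex.norm_exp]
  simp only [add_re, ofReal_re, mul_re, I_re, I_im, ofReal_im, mul_zero, zero_mul, sub_zero, add_zero]

lemma lin_real (v : 𝓢(E d, ℂ)) (y e : E d) (s : ℝ) : lin v y e (s : ℂ) = V v (y + s • e) 0 := by
  rw [lin_eq]
  simp

lemma phi_deriv (y e w : E d) (ζ : ℂ) : HasDerivAt (phi y e w)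
    (2 * Real.pi * ((inner ℝ e (w - y) : ℝ) : ℂ) - 2 * Real.pi * ζ * ((‖e‖ ^ 2 : ℝ) : ℂ)) ζ := by
  unfold phi
  have h1 : HasDerivAt (fun ζ : ℂ => 2 * (Real.pi : ℂ) * ζ * ((inner ℝ e (w - y) : ℝ) : ℂ))
      (2 * (Real.pi : ℂ) * 1 * ((inner ℝ e (w - y) : ℝ) : ℂ)) ζ :=
    ((hasDerivAt_id ζ).const_mul _).mul_const _
  have h2 : HasDerivAt (fun ζ : ℂ => (Real.pi : ℂ) * ζ ^ 2 * ((‖e‖ ^ 2 : ℝ) : ℂ))
      ((Real.pi : ℂ) * (2 * ζ) * ((‖e‖ ^ 2 : ℝ) : ℂ)) ζ := by
    have h3 : HasDerivAt (fun ζ : ℂ => ζ ^ 2) (2 * ζ) ζ := by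
      simpa using hasDerivAt_pow 2 ζ
    exact (h3.const_mul _).mul_const _
  have h3 := ((hasDerivAt_const ζ (-(Real.pi : ℂ) * ((‖w - y‖ ^ 2 : ℝ) : ℂ))).add h1).sub h2
  refine h3.congr_deriv ?_
  ring

lemma phi_cont (y e : E d) (ζ : ℂ) : Continuous (fun w => phi y e w ζ) := by
  unfold phi
  fun_prop

lemma exp_phi_le (y e w : E d) (ζ : ℂ) {B : ℝ} (hB : |ζ.im| ≤ B) :
    ‖cexp (phi y e w ζ)‖ ≤ Real.exp (Real.pi * B ^ 2 * ‖e‖ ^ 2) := by
  rw [Complex.norm_exp, phi_re]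
  apply Real.exp_le_exp.2
  have h1 : ζ.im ^ 2 ≤ B ^ 2 := by
    rw [← sq_abs ζ.im]
    exact pow_le_pow_left₀ (abs_nonneg _) hB 2
  have hp := Real.pi_pos
  have h2 : Real.pi * ζ.im ^ 2 * ‖e‖ ^ 2 ≤ Real.pi * B ^ 2 * ‖e‖ ^ 2 := by gcongr
  have h3 : 0 ≤ Real.pi * ‖w - (y + ζ.re • e)‖ ^ 2 := by positivity
  linarith

lemma lin_diff (v : 𝓢(E d, ℂ)) (y e : E d) : Differentiable ℂ (lin v y e) := by
  intro ζ₀
  have hp := Real.pi_pos
  obtain ⟨B, hB⟩ : ∃ B : ℝ, B = ‖ζ₀‖ + 1 := ⟨_, rfl⟩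
  have hB0 : 0 < B := by rw [hB]; positivity
  have hball : ∀ ζ ∈ Metric.ball ζ₀ 1, ‖ζ‖ ≤ B := by
    intro ζ hζ
    rw [Metric.mem_ball, dist_eq_norm] at hζ
    have := norm_add_le (ζ - ζ₀) ζ₀
    rw [sub_add_cancel] at this
    rw [hB]
    linarith
  obtain ⟨K, hK⟩ : ∃ K : ℝ, K = Real.exp (Real.pi * B ^ 2 * ‖e‖ ^ 2) := ⟨_, rfl⟩
  have hK0 : 0 < K := by rw [hK]; exact Real.exp_pos _
  have hmeas : ∀ ζ : ℂ, AEStronglyMeasurable (fun w => v w * cexp (phi y e w ζ)) volume := by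
    intro ζ
    exact (v.continuous.mul (Complex.continuous_exp.comp (phi_cont y e ζ))).aestronglyMeasurable
  have hint1 : Integrable (fun w : E d => ‖v w‖) := v.integrable.norm
  have hint2 : Integrable (fun w : E d => ‖w‖ * ‖v w‖) := by
    have := v.integrable_pow_mul volume 1
    simpa using this
  have key := hasDerivAt_integral_of_dominated_loc_of_deriv_le (μ := (volume : Measure (E d)))
    (F := fun ζ w => v w * cexp (phi y e w ζ))
    (x₀ := ζ₀) (s := Metric.ball ζ₀ 1)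
    (bound := fun w => K * (2 * Real.pi * ‖e‖) * (‖w‖ * ‖v w‖) +
      K * (2 * Real.pi * ‖e‖ * ‖y‖ + 2 * Real.pi * B * ‖e‖ ^ 2) * ‖v w‖)
    (F' := fun ζ w => v w * (cexp (phi y e w ζ) *
      (2 * Real.pi * ((inner ℝ e (w - y) : ℝ) : ℂ) - 2 * Real.pi * ζ * ((‖e‖ ^ 2 : ℝ) : ℂ))))
    (Metric.ball_mem_nhds ζ₀ one_pos) (Eventually.of_forall fun ζ => hmeas ζ) ?_ ?_ ?_
    ((hint2.const_mul _).add (hint1.const_mul _)) ?_
  · exact key.2.differentiableAt
  · refine Integrable.mono (hint1.const_mul K) (hmeas ζ₀) ?_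
    refine Eventually.of_forall fun w => ?_
    rw [norm_mul, Real.norm_of_nonneg (by positivity), mul_comm]
    gcongr
    rw [hK]
    apply exp_phi_le
    exact (Complex.abs_im_le_norm ζ₀).trans (by rw [hB]; linarith)
  · refine (v.continuous.mul ((Complex.continuous_exp.comp (phi_cont y e ζ₀)).mul ?_)).aestronglyMeasurable
    fun_prop
  · refine Eventually.of_forall fun w ζ hζ => ?_
    have h0 := hball ζ hζ
    have h1 : ‖cexp (phi y e w ζ)‖ ≤ K := by
      rw [hK]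
      exact exp_phi_le y e w ζ ((Complex.abs_im_le_norm ζ).trans h0)
    have h2 : ‖(2 * (Real.pi : ℂ) * ((inner ℝ e (w - y) : ℝ) : ℂ) - 2 * Real.pi * ζ * ((‖e‖ ^ 2 : ℝ) : ℂ))‖ ≤
        2 * Real.pi * (‖e‖ * (‖w‖ + ‖y‖)) + 2 * Real.pi * B * ‖e‖ ^ 2 := by
      refine (norm_sub_le _ _).trans ?_
      rw [norm_mul, norm_mul, norm_mul, norm_mul, norm_mul, Complex.norm_real, Complex.norm_real, Complex.norm_real,
        Real.norm_of_nonneg hp.le, Real.norm_of_nonneg (sq_nonneg ‖e‖), Complex.norm_ofNat, Real.norm_eq_abs]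
      have h3 : |inner ℝ e (w - y)| ≤ ‖e‖ * (‖w‖ + ‖y‖) := by
        refine (abs_real_inner_le_norm _ _).trans ?_
        gcongr
        exact norm_sub_le _ _
      gcongr
    rw [norm_mul, norm_mul]
    calc ‖v w‖ * (‖cexp (phi y e w ζ)‖ *
          ‖(2 * (Real.pi : ℂ) * ((inner ℝ e (w - y) : ℝ) : ℂ) - 2 * Real.pi * ζ * ((‖e‖ ^ 2 : ℝ) : ℂ))‖)
        ≤ ‖v w‖ * (K * (2 * Real.pi * (‖e‖ * (‖w‖ + ‖y‖)) + 2 * Real.pi * B * ‖e‖ ^ 2)) := by gcongr
      _ = _ := by ring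
  · refine Eventually.of_forall fun w ζ hζ => ?_
    exact ((phi_deriv y e w ζ).cexp).const_mul (v w)

/-! ### Convergence of entire functions -/

/-- Vitali's theorem for entire functions, in the form needed -/
lemma vit (f : ℕ → ℂ → ℂ) (hf : ∀ n, Differentiable ℂ (f n)) (M ρ : ℝ) (hρ : 0 < ρ)
    (hM : ∀ n z, ‖z - 1‖ ≤ 3 → ‖f n z‖ ≤ M)
    (h0 : ∀ h : ℝ, 0 ≤ h → h < ρ → Tendsto (fun n => f n (1 + h)) atTop (𝓝 0)) :
    Tendsto (fun n => f n 0) atTop (𝓝 0) := by
  have hM0 : 0 ≤ M := (norm_nonneg _).trans (hM 0 1 (by simp))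
  obtain ⟨a, ha⟩ : ∃ a : ℕ → ℕ → ℂ, a = fun n j => (j.factorial : ℂ)⁻¹ * iteratedDeriv j (f n) 1 := ⟨_, rfl⟩
  have hab : ∀ n j, ‖a n j‖ ≤ M / 3 ^ j := by
    intro n j
    have h1 := Complex.norm_iteratedDeriv_le_of_forall_mem_sphere_norm_le (f := f n) (c := 1) (C := M) j
      (show (0 : ℝ) < 3 by norm_num) (hf n).diffContOnCl (by
        intro z hz
        rw [mem_sphere_iff_norm] at hz
        exact hM n z hz.le)
    rw [ha]
    simp only
    rw [norm_mul, norm_inv, Complex.norm_natCast]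
    have h2 : (0 : ℝ) < j.factorial := by exact_mod_cast j.factorial_pos
    rw [inv_mul_le_iff₀ h2]
    refine h1.trans (le_of_eq ?_)
    ring
  have hs : ∀ n (h : ℂ), HasSum (fun j => a n j * h ^ j) (f n (1 + h)) := by
    intro n h
    have h1 := Complex.hasSum_taylorSeries_of_entire (hf n) 1 (1 + h)
    rw [add_sub_cancel_left] at h1
    have h2 : (fun j => a n j * h ^ j) =
        fun j : ℕ => (j.factorial : ℂ)⁻¹ • h ^ j • iteratedDeriv j (f n) 1 := by
      funext j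
      rw [ha, smul_eq_mul, smul_eq_mul]
      ring
    rw [h2]
    exact h1
  have hlim : ∀ j, Tendsto (fun n => a n j) atTop (𝓝 0) := by
    intro j
    induction j using Nat.strong_induction_on with
    | _ j ih =>
      rw [tendsto_zero_iff_norm_tendsto_zero]
      rw [Metric.tendsto_nhds]
      intro ε hε
      obtain ⟨h, hh⟩ : ∃ h : ℝ, h = min (min (ρ / 2) 1) (ε / (2 * (M + 1))) := ⟨_, rfl⟩
      have hh0 : 0 < h := by
        rw [hh]
        exact lt_min (lt_min (by positivity) one_pos) (by positivity)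
      have hh1 : h ≤ 1 := by rw [hh]; exact (min_le_left _ _).trans (min_le_right _ _)
      have hhρ : h < ρ := by
        have : h ≤ ρ / 2 := by rw [hh]; exact (min_le_left _ _).trans (min_le_left _ _)
        linarith
      have hhε : (M + 1) * h ≤ ε / 2 := by
        have h1 : h ≤ ε / (2 * (M + 1)) := by rw [hh]; exact min_le_right _ _
        calc (M + 1) * h ≤ (M + 1) * (ε / (2 * (M + 1))) := by gcongr
          _ = ε / 2 := by field_simp
      have hT : Tendsto (fun n => f n (1 + h) - ∑ i ∈ Finset.range j, a n i * (h : ℂ) ^ i) atTop (𝓝 0) := by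
        have h1 : Tendsto (fun n => ∑ i ∈ Finset.range j, a n i * (h : ℂ) ^ i) atTop
            (𝓝 (∑ i ∈ Finset.range j, 0 * (h : ℂ) ^ i)) := by
          apply tendsto_finsetSum
          intro i hi
          exact (ih i (Finset.mem_range.1 hi)).mul_const _
        have h2 := (h0 h hh0.le hhρ).sub h1
        simpa using h2
      have hT2 := (tendsto_zero_iff_norm_tendsto_zero.1 hT).eventually
        (gt_mem_nhds (show (0 : ℝ) < ε / 2 * h ^ j by positivity))
      filter_upwards [hT2] with n hn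
      rw [Real.dist_eq, sub_zero, abs_of_nonneg (norm_nonneg _)]
      -- the remainder
      have hrem := (hasSum_nat_add_iff' (f := fun i => a n i * (h : ℂ) ^ i) (j + 1)).2 (hs n h)
      have hg : HasSum (fun i : ℕ => M * h ^ (j + 1) / 3 * (1 / 3 : ℝ) ^ i) (M * h ^ (j + 1) / 3 * (1 - 1 / 3)⁻¹) :=
        (hasSum_geometric_of_lt_one (by norm_num) (by norm_num)).mul_left _
      have hR := hrem.norm_le_of_bounded hg (by
        intro i
        rw [norm_mul, norm_pow, Complex.norm_real, Real.norm_of_nonneg hh0.le]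
        have h1 := hab n (i + (j + 1))
        have h2 : (1 : ℝ) ≤ 3 ^ j := one_le_pow₀ (by norm_num)
        calc ‖a n (i + (j + 1))‖ * h ^ (i + (j + 1)) ≤ M / 3 ^ (i + (j + 1)) * h ^ (i + (j + 1)) := by gcongr
          _ = M * h ^ (j + 1) / 3 * (1 / 3 : ℝ) ^ i * (h ^ i * (1 / 3 ^ j)) := by
              rw [pow_add, pow_add, pow_add h, pow_one, one_div_pow]
              field_simp
          _ ≤ M * h ^ (j + 1) / 3 * (1 / 3 : ℝ) ^ i * (1 * 1) := by
              gcongr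
              · exact pow_le_one₀ hh0.le hh1
              · rw [div_le_one (by positivity)]
                exact h2
          _ = M * h ^ (j + 1) / 3 * (1 / 3 : ℝ) ^ i := by ring)
      rw [Finset.sum_range_succ] at hR
      have h3 : a n j * (h : ℂ) ^ j = (f n (1 + h) - ∑ i ∈ Finset.range j, a n i * (h : ℂ) ^ i) -
          (f n (1 + h) - (∑ i ∈ Finset.range j, a n i * (h : ℂ) ^ i + a n j * (h : ℂ) ^ j)) := by ring
      have h4 : ‖a n j‖ * h ^ j ≤ ε / 2 * h ^ j + M * h ^ (j + 1) / 3 * (1 - 1 / 3)⁻¹ := by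
        calc ‖a n j‖ * h ^ j = ‖a n j * (h : ℂ) ^ j‖ := by
              rw [norm_mul, norm_pow, Complex.norm_real, Real.norm_of_nonneg hh0.le]
          _ ≤ ε / 2 * h ^ j + M * h ^ (j + 1) / 3 * (1 - 1 / 3)⁻¹ := by
              rw [h3]
              exact (norm_sub_le _ _).trans (add_le_add hn.le hR)
      have h5 : M * h ^ (j + 1) / 3 * (1 - 1 / 3)⁻¹ = (M * h) / 2 * h ^ j := by
        rw [pow_succ]
        ring
      rw [h5] at h4
      have hhj : 0 < h ^ j := by positivity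
      have h6 : ‖a n j‖ * h ^ j < ε * h ^ j := by
        have h7 : (M * h) / 2 * h ^ j < ε / 2 * h ^ j := by
          apply mul_lt_mul_of_pos_right _ hhj
          nlinarith
        linarith
      exact lt_of_mul_lt_mul_right h6 hhj.le
  have hfin : ∀ n, f n 0 = ∑' j, a n j * (-1) ^ j := by
    intro n
    have h1 := (hs n (-1)).tsum_eq
    rw [h1]
    norm_num
  simp only [hfin]
  have h1 : Tendsto (fun n => ∑' j, a n j * (-1 : ℂ) ^ j) atTop (𝓝 (∑' _j : ℕ, (0 : ℂ))) := by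
    refine tendsto_tsum_of_dominated_convergence (bound := fun j => M / 3 ^ j) ?_ ?_ ?_
    · have h2 : (fun j : ℕ => M / 3 ^ j) = fun j => M * (1 / 3 : ℝ) ^ j := by
        funext j
        rw [one_div_pow]
        ring
      rw [h2]
      exact (summable_geometric_of_lt_one (by norm_num) (by norm_num)).mul_left _
    · intro j
      have := (hlim j).mul_const ((-1 : ℂ) ^ j)
      simpa using this
    · refine Eventually.of_forall fun n j => ?_
      rw [norm_mul, norm_pow, norm_neg, norm_one, one_pow, mul_one]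
      exact hab n j
  simpa using h1

/-! ### The functions on the space -/

variable {m : ℕ} {v : ℕ → 𝓢(E d, ℂ)}

/-- the bound on a disc -/
lemma lin_bound (hv : ∀ n x k, ‖V (v n) x k‖ ≤ nz x k ^ m) (y e : E d) (R : ℝ) (n : ℕ) (ζ : ℂ)
    (hζ : ‖ζ‖ ≤ R) :
    ‖lin (v n) y e ζ‖ ≤ Real.exp (Real.pi * R ^ 2 * ‖e‖ ^ 2) * (1 + ‖y‖ + 2 * R * ‖e‖) ^ m := by
  have hR : 0 ≤ R := (norm_nonneg _).trans hζ
  have h1 := (Complex.abs_re_le_norm ζ).trans hζ
  have h2 := (Complex.abs_im_le_norm ζ).trans hζ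
  have hp := Real.pi_pos
  rw [lin_norm]
  have h3 : ζ.im ^ 2 ≤ R ^ 2 := by
    rw [← sq_abs ζ.im]
    exact pow_le_pow_left₀ (abs_nonneg _) h2 2
  have h4 : nz (y + ζ.re • e) (-(ζ.im • e)) ≤ 1 + ‖y‖ + 2 * R * ‖e‖ := by
    unfold nz
    have h5 : ‖y + ζ.re • e‖ ≤ ‖y‖ + R * ‖e‖ := by
      refine (norm_add_le _ _).trans ?_
      rw [norm_smul, Real.norm_eq_abs]
      gcongr
    have h6 : ‖-(ζ.im • e)‖ ≤ R * ‖e‖ := by
      rw [norm_neg, norm_smul, Real.norm_eq_abs]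
      gcongr
    linarith
  have h5 : 0 ≤ nz (y + ζ.re • e) (-(ζ.im • e)) := by
    unfold nz
    positivity
  gcongr
  exact (hv n _ _).trans (pow_le_pow_left₀ h5 h4 m)

/-- uniform Lipschitz estimate -/
lemma lipF (hv : ∀ n x k, ‖V (v n) x k‖ ≤ nz x k ^ m) (p₀ : E d) (r : ℝ) (hr : 0 < r) :
    ∃ M : ℝ, 0 ≤ M ∧ ∀ n, ∀ y₁ ∈ Metric.closedBall p₀ r, ∀ y₂ ∈ Metric.closedBall p₀ r,
      ‖V (v n) y₂ 0 - V (v n) y₁ 0‖ ≤ M * ‖y₂ - y₁‖ := by
  refine ⟨Real.exp (Real.pi * (2 * r + 1) ^ 2 * 1 ^ 2) * (1 + (‖p₀‖ + r) + 2 * (2 * r + 1) * 1) ^ m,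
    by positivity, ?_⟩
  intro n y₁ h1 y₂ h2
  by_cases hne : y₂ = y₁
  · rw [hne]
    simp
  have hN : 0 < ‖y₂ - y₁‖ := by
    rw [norm_pos_iff, sub_ne_zero]
    exact hne
  obtain ⟨N, hNd⟩ : ∃ N : ℝ, N = ‖y₂ - y₁‖ := ⟨_, rfl⟩
  rw [← hNd] at hN ⊢
  obtain ⟨e, he⟩ : ∃ e : E d, e = N⁻¹ • (y₂ - y₁) := ⟨_, rfl⟩
  have hen : ‖e‖ = 1 := by
    rw [he, norm_smul, Real.norm_eq_abs, abs_of_pos (inv_pos.2 hN), ← hNd, inv_mul_cancel₀ hN.ne']
  have hye : y₁ + N • e = y₂ := by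
    rw [he, smul_smul, mul_inv_cancel₀ hN.ne', one_smul]
    abel
  have hN2 : N ≤ 2 * r := by
    rw [Metric.mem_closedBall, dist_eq_norm] at h1 h2
    have h3 : y₂ - y₁ = (y₂ - p₀) - (y₁ - p₀) := by abel
    rw [hNd, h3]
    exact (norm_sub_le _ _).trans (by linarith)
  have hy1 : ‖y₁‖ ≤ ‖p₀‖ + r := by
    rw [Metric.mem_closedBall, dist_eq_norm] at h1
    have := norm_add_le (y₁ - p₀) p₀
    rw [sub_add_cancel] at this
    linarith
  have e1 : V (v n) y₂ 0 = lin (v n) y₁ e ((N : ℝ) : ℂ) := by rw [lin_real, hye]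
  have e2 : V (v n) y₁ 0 = lin (v n) y₁ e ((0 : ℝ) : ℂ) := by rw [lin_real, zero_smul, add_zero]
  rw [e1, e2]
  have hseg : ∀ z ∈ segment ℝ ((0 : ℝ) : ℂ) ((N : ℝ) : ℂ), ‖z‖ ≤ 2 * r := by
    intro z hz
    obtain ⟨a, b, ha, hb, hab, rfl⟩ := hz
    have : a • ((0 : ℝ) : ℂ) + b • ((N : ℝ) : ℂ) = ((b * N : ℝ) : ℂ) := by
      rw [real_smul, real_smul]
      push_cast
      ring
    rw [this, Complex.norm_real, Real.norm_of_nonneg (by positivity)]
    have hb1 : b ≤ 1 := by linarith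
    nlinarith
  have key := (convex_segment ((0 : ℝ) : ℂ) ((N : ℝ) : ℂ)).norm_image_sub_le_of_norm_deriv_le
    (𝕜 := ℂ) (f := lin (v n) y₁ e)
    (C := Real.exp (Real.pi * (2 * r + 1) ^ 2 * 1 ^ 2) * (1 + (‖p₀‖ + r) + 2 * (2 * r + 1) * 1) ^ m)
    (fun z _ => lin_diff (v n) y₁ e z) (by
      intro z hz
      have h3 := Complex.norm_deriv_le_of_forall_mem_sphere_norm_le (f := lin (v n) y₁ e) (c := z)
        (C := Real.exp (Real.pi * (2 * r + 1) ^ 2 * 1 ^ 2) * (1 + (‖p₀‖ + r) + 2 * (2 * r + 1) * 1) ^ m)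
        one_pos (lin_diff (v n) y₁ e).diffContOnCl (by
          intro w hw
          rw [mem_sphere_iff_norm] at hw
          have h4 : ‖w‖ ≤ 2 * r + 1 := by
            have h5 := norm_add_le (w - z) z
            rw [sub_add_cancel] at h5
            have h6 := hseg z hz
            linarith
          have h5 := lin_bound hv y₁ e (2 * r + 1) n w h4
          rw [hen] at h5
          refine h5.trans ?_
          gcongr)
      rwa [div_one] at h3) (left_mem_segment ℝ _ _) (right_mem_segment ℝ _ _)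
  rw [← ofReal_sub, Complex.norm_real, sub_zero, Real.norm_of_nonneg hN.le] at key
  exact key

lemma F_cont (v : 𝓢(E d, ℂ)) : Continuous (fun y : E d => V v y 0) := by
  have hgn : ∀ y : E d, 0 ≤ gg y := fun y => (Real.exp_pos _).le
  have hg1 : ∀ y : E d, gg y ≤ 1 := by
    intro y
    unfold gg
    rw [Real.exp_le_one_iff]
    have := Real.pi_pos
    nlinarith [mul_nonneg this.le (sq_nonneg ‖y‖)]
  have hgc : Continuous (gg (d := d)) := by
    unfold gg
    fun_prop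
  have hc1 : ∀ y : E d, chr 0 y = 1 := by
    intro y
    unfold chr
    simp
  unfold V
  simp only [hc1, map_one, mul_one]
  refine continuous_of_dominated (bound := fun y => ‖v y‖) ?_ ?_ v.integrable.norm ?_
  · intro z
    exact (v.continuous.mul (Complex.continuous_ofReal.comp (hgc.comp (by fun_prop)))).aestronglyMeasurable
  · intro z
    refine Eventually.of_forall fun y => ?_
    rw [norm_mul, Complex.norm_real, Real.norm_of_nonneg (hgn _)]
    exact mul_le_of_le_one_right (norm_nonneg _) (hg1 _)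
  · refine Eventually.of_forall fun y => ?_
    exact continuous_const.mul (Complex.continuous_ofReal.comp (hgc.comp (by fun_prop)))

/-- pointwise convergence in the ball -/
lemma pointwise (hv : ∀ n x k, ‖V (v n) x k‖ ≤ nz x k ^ m) (p₀ : E d) (r : ℝ) (hr : 0 < r)
    (hw : ∀ θ : 𝓢(E d, ℂ), HasCompactSupport θ → tsupport θ ⊆ Metric.closedBall p₀ r →
      Tendsto (fun n => ∫ y, V (v n) y 0 * conj (θ y)) atTop (𝓝 0))
    (y : E d) (hy : y ∈ Metric.ball p₀ r) : Tendsto (fun n => V (v n) y 0) atTop (𝓝 0) := by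
  obtain ⟨M, hM0, hM⟩ := lipF hv p₀ r hr
  rw [Metric.mem_ball] at hy
  rw [Metric.tendsto_nhds]
  intro ε hε
  obtain ⟨δ, hδ⟩ : ∃ δ : ℝ, δ = min (r - dist y p₀) (ε / (2 * (M + 1))) := ⟨_, rfl⟩
  have hδ0 : 0 < δ := by rw [hδ]; exact lt_min (by linarith) (by positivity)
  have hδ1 : δ ≤ r - dist y p₀ := by rw [hδ]; exact min_le_left _ _
  have hδ2 : (M + 1) * δ ≤ ε / 2 := by
    have h1 : δ ≤ ε / (2 * (M + 1)) := by rw [hδ]; exact min_le_right _ _
    calc (M + 1) * δ ≤ (M + 1) * (ε / (2 * (M + 1))) := by gcongr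
      _ = ε / 2 := by field_simp
  obtain ⟨b, hb⟩ : ∃ b : ContDiffBump y, b.rOut = δ :=
    ⟨⟨δ / 2, δ, by positivity, by linarith⟩, rfl⟩
  obtain ⟨θ0, hθ0⟩ : ∃ θ0 : E d → ℂ, θ0 = fun z => ((b.normed volume z : ℝ) : ℂ) := ⟨_, rfl⟩
  have hcs : HasCompactSupport θ0 := by
    rw [hθ0]
    exact b.hasCompactSupport_normed.comp_left (g := fun t : ℝ => (t : ℂ)) (by simp)
  have hsm : ContDiff ℝ ∞ θ0 := by
    rw [hθ0]
    exact Complex.ofRealCLM.contDiff.comp b.contDiff_normed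
  have hts : tsupport θ0 ⊆ Metric.closedBall y δ := by
    rw [← hb, ← b.tsupport_normed_eq (μ := volume), hθ0]
    apply closure_mono
    intro z hz h
    apply hz
    simp only
    rw [h]
    simp
  have hsub : Metric.closedBall y δ ⊆ Metric.closedBall p₀ r := by
    apply Metric.closedBall_subset_closedBall'
    linarith
  have hT := hw (hcs.toSchwartzMap hsm) hcs (hts.trans hsub)
  have hT2 := (tendsto_zero_iff_norm_tendsto_zero.1 hT).eventually
    (gt_mem_nhds (show (0 : ℝ) < ε / 2 by positivity))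
  filter_upwards [hT2] with n hn
  rw [dist_zero_right]
  have hθint : Integrable (fun z => b.normed volume z) := b.integrable_normed
  have hθr : ∀ z, conj ((hcs.toSchwartzMap hsm) z) = ((b.normed volume z : ℝ) : ℂ) := by
    intro z
    have h1 : (hcs.toSchwartzMap hsm) z = θ0 z := rfl
    rw [h1, hθ0]
    simp
  have hint1 : Integrable (fun z => V (v n) z 0 * ((b.normed volume z : ℝ) : ℂ)) := by
    apply Continuous.integrable_of_hasCompactSupport
    · exact (F_cont (v n)).mul (Complex.continuous_ofReal.comp b.continuous_normed)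
    · have : HasCompactSupport (fun z => ((b.normed volume z : ℝ) : ℂ)) := by
        rw [← hθ0]
        exact hcs
      exact this.mul_left
  have hint2 : Integrable (fun z => V (v n) y 0 * ((b.normed volume z : ℝ) : ℂ)) := (hθint.ofReal).const_mul _
  have hone : ∫ z, ((b.normed volume z : ℝ) : ℂ) = 1 := by
    rw [integral_complex_ofReal, b.integral_normed]
    simp
  have h1 : (∫ z, V (v n) z 0 * ((b.normed volume z : ℝ) : ℂ)) - V (v n) y 0 =
      ∫ z, (V (v n) z 0 - V (v n) y 0) * ((b.normed volume z : ℝ) : ℂ) := by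
    have h2 : V (v n) y 0 = ∫ z, V (v n) y 0 * ((b.normed volume z : ℝ) : ℂ) := by
      rw [integral_const_mul, hone, mul_one]
    conv_lhs => rw [h2]
    rw [← integral_sub hint1 hint2]
    congr 1
    funext z
    ring
  have h2 : ‖∫ z, (V (v n) z 0 - V (v n) y 0) * ((b.normed volume z : ℝ) : ℂ)‖ ≤ M * δ := by
    have h3 : ∀ z, ‖(V (v n) z 0 - V (v n) y 0) * ((b.normed volume z : ℝ) : ℂ)‖ ≤ M * δ * b.normed volume z := by
      intro z
      rw [norm_mul, Complex.norm_real, Real.norm_of_nonneg (b.nonneg_normed z)]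
      by_cases hz : z ∈ Metric.ball y δ
      · have hz1 : z ∈ Metric.closedBall p₀ r := hsub (Metric.ball_subset_closedBall hz)
        have hy1 : y ∈ Metric.closedBall p₀ r := Metric.mem_closedBall.2 hy.le
        have h4 := hM n y hy1 z hz1
        rw [Metric.mem_ball, dist_eq_norm] at hz
        have h5 := b.nonneg_normed (μ := volume) z
        have h6 : M * ‖z - y‖ ≤ M * δ := by gcongr
        gcongr
        exact h4.trans h6
      · have h4 : b.normed volume z = 0 := by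
          by_contra hcon
          apply hz
          rw [← hb, ← b.support_normed_eq (μ := volume)]
          exact hcon
        rw [h4]
        simp
    refine (norm_integral_le_of_norm_le (hθint.const_mul (M * δ)) (Eventually.of_forall h3)).trans ?_
    rw [integral_const_mul, b.integral_normed, mul_one]
  simp only [hθr] at hn
  have h3 : V (v n) y 0 = (∫ z, V (v n) z 0 * ((b.normed volume z : ℝ) : ℂ)) -
      ∫ z, (V (v n) z 0 - V (v n) y 0) * ((b.normed volume z : ℝ) : ℂ) := by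
    rw [← h1]
    ring
  have h4 : ‖V (v n) y 0‖ < ε / 2 + M * δ := by
    rw [h3]
    exact lt_of_le_of_lt (norm_sub_le _ _) (add_lt_add_of_lt_of_le hn h2)
  nlinarith

end BARG

open BARG in
/-- weak convergence on a ball implies convergence at the origin -/
theorem t_BARG : S_BARG := by
  intro d m p₀ r v hr hv hw
  have hpt := pointwise hv p₀ r hr hw
  have hb := fun n ζ hζ => lin_bound hv 0 p₀ 4 n ζ hζ
  have key := vit (fun n => lin (v n) 0 p₀) (fun n => lin_diff (v n) 0 p₀) _ (r / (‖p₀‖ + 1)) (by positivity)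
    (fun n z hz => hb n z (by
      have := norm_add_le (z - 1) 1
      rw [sub_add_cancel, norm_one] at this
      linarith)) (by
    intro h hh0 hhr
    have h1 : ∀ n, lin (v n) 0 p₀ (1 + h) = V (v n) (p₀ + h • p₀) 0 := by
      intro n
      have h2 := lin_real (v n) 0 p₀ (1 + h)
      rw [zero_add, add_smul, one_smul] at h2
      rw [← h2]
      push_cast
      rfl
    simp only [h1]
    apply hpt
    rw [Metric.mem_ball, dist_eq_norm, add_sub_cancel_left, norm_smul, Real.norm_of_nonneg hh0]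
    rw [lt_div_iff₀ (by positivity)] at hhr
    nlinarith [norm_nonneg p₀])
  have h2 : ∀ n, lin (v n) 0 p₀ 0 = V (v n) 0 0 := by
    intro n
    have h3 := lin_real (v n) 0 p₀ 0
    rw [zero_smul, add_zero, ofReal_zero] at h3
    exact h3
  simp only [h2] at key
  exact key

end

end Pool.Agent.Q73.SO
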