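import Pool.Agent.Q73.SO.Stm
import Pool.Agent.TH274.Wig.Gauss

/-!
# Moyal's identity (job SO-5)
-/

set_option autoImplicit false
open MeasureTheory Filter Topology Complex
open scoped ContDiff FourierTransform SchwartzMap ComplexConjugate Convolution

namespace Pool.Agent.Q73.SO

noncomputable section

namespace MOY

variable {d : ℕ}

/-- the Gaussian as a Schwartz function -/
def GS (d : ℕ) : 𝓢(E d, ℂ) := Pool.Agent.TH274.Wig.gauss d (Real.pi : ℂ) (by simpa using Real.pi_pos)

lemma GS_apply (y : E d) : GS d y = (gg y : ℂ) := by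
  unfold GS gg
  rw [Pool.Agent.TH274.Wig.gauss_apply]
  push_cast
  rfl

lemma gg_nonneg (y : E d) : 0 ≤ gg y := (Real.exp_pos _).le

lemma gg_le_one (y : E d) : gg y ≤ 1 := by
  unfold gg
  rw [Real.exp_le_one_iff]
  have := Real.pi_pos
  nlinarith [sq_nonneg ‖y‖, mul_nonneg this.le (sq_nonneg ‖y‖)]

lemma gg_cont : Continuous (gg (d := d)) := by
  unfold gg
  fun_prop

lemma gg_even (x y : E d) : gg (y - x) = gg (x - y) := by
  unfold gg
  rw [norm_sub_rev]

lemma gg_sq_int : Integrable (fun y : E d => gg y ^ 2) := by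
  have h1 : Integrable (Pool.Agent.TH274.Wig.gauss d ((2 * Real.pi : ℝ) : ℂ) (by
      rw [ofReal_re]; positivity)) := SchwartzMap.integrable _
  refine (h1.norm).congr (Eventually.of_forall fun y => ?_)
  simp only
  rw [Pool.Agent.TH274.Wig.gauss_apply]
  unfold gg
  rw [Complex.norm_exp, ← Real.exp_nat_mul, ← ofReal_neg, ← ofReal_mul, ofReal_re]
  congr 1
  push_cast
  ring

lemma cg_pos : 0 < cg d := by
  have h1 : cg d = ∫ v : E d, Real.exp (-(2 * Real.pi) * ‖v‖ ^ 2) := by
    unfold cg gg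
    congr 1
    funext y
    rw [← Real.exp_nat_mul]
    congr 1
    push_cast
    ring
  rw [h1, GaussianFourier.integral_rexp_neg_mul_sq_norm (by positivity)]
  have := Real.pi_pos
  positivity

lemma chr_norm (k y : E d) : ‖chr k y‖ = 1 := by
  unfold chr
  exact Complex.norm_exp_ofReal_mul_I _

lemma chr_conj (k y : E d) : conj (chr k y) = cexp (((-2 * Real.pi * inner ℝ y k : ℝ) : ℂ) * I) := by
  unfold chr
  rw [← Complex.exp_conj]
  congr 1
  rw [map_mul, conj_I, conj_ofReal, real_inner_comm]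
  push_cast
  ring

lemma chr_cont : Continuous (fun z : E d × E d => chr z.1 z.2) := by
  unfold chr
  fun_prop

lemma fourier_int (f : 𝓢(E d, ℂ)) (ξ : E d) : 𝓕 f ξ = ∫ y, conj (chr ξ y) * f y := by
  have h1 : 𝓕 f ξ = 𝓕 (f : E d → ℂ) ξ := rfl
  rw [h1, Real.fourier_eq']
  congr 1
  funext y
  rw [chr_conj, smul_eq_mul]

lemma pr_fourier (f h : 𝓢(E d, ℂ)) : pr f h = pr (𝓕 f : 𝓢(E d, ℂ)) (𝓕 h : 𝓢(E d, ℂ)) := by
  have h1 := SchwartzMap.integral_inner_fourier_fourier h f
  unfold pr
  have h2 : ∀ a b : ℂ, a * conj b = inner ℂ b a := by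
    intro a b
    rw [RCLike.inner_apply]
  simp only [h2]
  exact h1.symm

/-- the localised function -/
def loc (f : 𝓢(E d, ℂ)) (x : E d) : 𝓢(E d, ℂ) :=
  SchwartzMap.smulLeftCLM ℂ (SchwartzMap.compSubConstCLM ℂ x (GS d)) f

lemma loc_apply (f : 𝓢(E d, ℂ)) (x y : E d) : loc f x y = (gg (y - x) : ℂ) * f y := by
  unfold loc
  rw [SchwartzMap.smulLeftCLM_apply_apply (SchwartzMap.hasTemperateGrowth _), SchwartzMap.compSubConstCLM_apply,
    GS_apply, smul_eq_mul]

lemma V_eq (f : 𝓢(E d, ℂ)) (x k : E d) : V f x k = 𝓕 (loc f x) k := by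
  rw [fourier_int]
  unfold V
  congr 1
  funext y
  rw [loc_apply]
  ring

lemma V_cont (f : 𝓢(E d, ℂ)) : Continuous (fun z : E d × E d => V f z.1 z.2) := by
  unfold V
  have h1 : Integrable (fun y : E d => ‖f y‖) := f.integrable.norm
  refine continuous_of_dominated (bound := fun y => ‖f y‖) ?_ ?_ h1 ?_
  · intro z
    refine Continuous.aestronglyMeasurable ?_
    refine (f.continuous.mul (Complex.continuous_conj.comp ?_)).mul (Complex.continuous_ofReal.comp ?_)
    · exact chr_cont.comp (by fun_prop : Continuous fun y : E d => (z.2, y))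
    · exact gg_cont.comp (by fun_prop)
  · intro z
    refine Eventually.of_forall fun y => ?_
    rw [norm_mul, norm_mul, RCLike.norm_conj, chr_norm, mul_one, Complex.norm_real, Real.norm_of_nonneg (gg_nonneg _)]
    exact mul_le_of_le_one_right (norm_nonneg _) (gg_le_one _)
  · refine Eventually.of_forall fun y => ?_
    refine (continuous_const.mul (Complex.continuous_conj.comp ?_)).mul (Complex.continuous_ofReal.comp ?_)
    · exact chr_cont.comp (by fun_prop : Continuous fun z : E d × E d => (z.2, y))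
    · exact gg_cont.comp (by fun_prop)

/-- the convolution kernel -/
def ker (y : E d) : ℂ := ((gg y ^ 2 : ℝ) : ℂ)

lemma ker_int : Integrable (ker (d := d)) := gg_sq_int.ofReal

lemma ker_integral : ∫ y : E d, ker y = (cg d : ℂ) := by
  unfold ker cg
  exact integral_complex_ofReal

lemma inner_eq (f h : 𝓢(E d, ℂ)) (x : E d) :
    ∫ k, V f x k * conj (V h x k) = ∫ y, (f y * conj (h y)) * ker (x - y) := by
  have h1 := pr_fourier (loc f x) (loc h x)
  unfold pr at h1
  simp only [← V_eq] at h1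
  rw [← h1]
  congr 1
  funext y
  rw [loc_apply, loc_apply, map_mul, conj_ofReal, gg_even]
  unfold ker
  push_cast
  ring

lemma fh_int (f h : 𝓢(E d, ℂ)) : Integrable (fun y => f y * conj (h y)) := by
  have h1 : Integrable (fun y => f y * h y) := by
    have h2 := (SchwartzMap.smulLeftCLM ℂ (f : E d → ℂ) h).integrable (μ := volume)
    refine h2.congr (Eventually.of_forall fun y => ?_)
    rw [SchwartzMap.smulLeftCLM_apply_apply (SchwartzMap.hasTemperateGrowth f), smul_eq_mul]
  refine Integrable.mono h1 (f.continuous.mul (Complex.continuous_conj.comp h.continuous)).aestronglyMeasurable ?_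
  refine Eventually.of_forall fun y => ?_
  rw [norm_mul, norm_mul, RCLike.norm_conj]

lemma conv_eq (f h : 𝓢(E d, ℂ)) (x : E d) :
    ((fun y => f y * conj (h y)) ⋆[ContinuousLinearMap.mul ℝ ℂ, volume] ker) x =
      ∫ k, V f x k * conj (V h x k) := by
  rw [inner_eq]
  rfl

lemma conv_integral (f h : 𝓢(E d, ℂ)) : ∫ x, ∫ k, V f x k * conj (V h x k) = (cg d : ℂ) * pr f h := by
  have h1 := integral_convolution (ContinuousLinearMap.mul ℝ ℂ) (fh_int f h) (ker_int (d := d))
  simp only [conv_eq] at h1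
  rw [h1, ker_integral, ContinuousLinearMap.mul_apply', mul_comm]
  rfl

lemma conv_integrable (f h : 𝓢(E d, ℂ)) : Integrable (fun x => ∫ k, V f x k * conj (V h x k)) := by
  have h1 := Integrable.integrable_convolution (ContinuousLinearMap.mul ℝ ℂ) (fh_int f h) (ker_int (d := d))
  refine h1.congr (Eventually.of_forall fun x => ?_)
  exact conv_eq f h x

lemma sq_eq (z : ℂ) : z * conj z = ((‖z‖ ^ 2 : ℝ) : ℂ) := by
  rw [Complex.mul_conj, Complex.normSq_eq_norm_sq]

lemma inner_int (f : 𝓢(E d, ℂ)) (x : E d) : Integrable (fun k => ‖V f x k‖ ^ 2) := by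
  have h1 := fh_int (𝓕 (loc f x)) (𝓕 (loc f x))
  refine (h1.norm).congr (Eventually.of_forall fun k => ?_)
  simp only
  rw [norm_mul, RCLike.norm_conj, V_eq, sq]

lemma inner_real (f : 𝓢(E d, ℂ)) (x : E d) :
    ∫ k, V f x k * conj (V f x k) = ((∫ k, ‖V f x k‖ ^ 2 : ℝ) : ℂ) := by
  rw [← integral_complex_ofReal]
  congr 1
  funext k
  exact sq_eq _

lemma sq_int (f : 𝓢(E d, ℂ)) :
    Integrable (fun z : E d × E d => ‖V f z.1 z.2‖ ^ 2) (volume.prod volume) := by
  have hm : AEStronglyMeasurable (fun z : E d × E d => ‖V f z.1 z.2‖ ^ 2) (volume.prod volume) :=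
    ((V_cont f).norm.pow 2).aestronglyMeasurable
  rw [integrable_prod_iff hm]
  refine ⟨Eventually.of_forall fun x => inner_int f x, ?_⟩
  have h1 := (conv_integrable f f).norm
  refine h1.congr (Eventually.of_forall fun x => ?_)
  simp only
  rw [inner_real, Complex.norm_real, Real.norm_of_nonneg (integral_nonneg fun k => by positivity)]
  congr 1
  funext k
  rw [Real.norm_of_nonneg (by positivity)]

lemma prod_int (f h : 𝓢(E d, ℂ)) :
    Integrable (fun z : E d × E d => V f z.1 z.2 * conj (V h z.1 z.2)) (volume.prod volume) := by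
  refine Integrable.mono ((sq_int f).add (sq_int h))
    ((V_cont f).mul (Complex.continuous_conj.comp (V_cont h))).aestronglyMeasurable ?_
  refine Eventually.of_forall fun z => ?_
  rw [norm_mul, RCLike.norm_conj, Pi.add_apply, Real.norm_of_nonneg (by positivity)]
  nlinarith [sq_nonneg (‖V f z.1 z.2‖ - ‖V h z.1 z.2‖), sq_nonneg ‖V f z.1 z.2‖, sq_nonneg ‖V h z.1 z.2‖]

end MOY

open MOY in
/-- Moyal's identity -/
theorem t_MOY : S_MOY := by
  intro d
  refine ⟨cg_pos, ?_⟩
  intro f h
  refine ⟨V_cont f, prod_int f h, ?_, sq_int f, ?_⟩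
  · rw [integral_prod _ (prod_int f h)]
    exact conv_integral f h
  · rw [integral_prod _ (sq_int f)]
    have h1 := conv_integral f f
    simp only [inner_real] at h1
    rw [integral_complex_ofReal] at h1
    have h2 : pr f f = ((∫ y, ‖f y‖ ^ 2 : ℝ) : ℂ) := by
      unfold pr
      rw [← integral_complex_ofReal]
      congr 1
      funext y
      exact sq_eq _
    rw [h2] at h1
    exact_mod_cast h1

end

end Pool.Agent.Q73.SO
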