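import Pool.Agent.Q73.SO.Stm
import Pool.Agent.Q73.SO.MOY
import Pool.Agent.Q73.SO.COV

/-!
# Propagation of growth bounds (job SO-7, helper75)
-/

set_option autoImplicit false
open MeasureTheory Filter Topology Complex
open scoped ContDiff FourierTransform SchwartzMap ComplexConjugate

namespace Pool.Agent.Q73.SO

noncomputable section

namespace GRO

variable {d : ℕ}

lemma fourier_G (ξ : E d) : 𝓕 (MOY.GS d) ξ = (gg ξ : ℂ) := by
  have h1 : 𝓕 (MOY.GS d) ξ = 𝓕 (MOY.GS d : E d → ℂ) ξ := rfl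
  have h2 : (MOY.GS d : E d → ℂ) = fun v => cexp (-(Real.pi : ℂ) * ‖v‖ ^ 2) := by
    funext v
    rw [MOY.GS_apply]
    unfold gg
    push_cast
    rfl
  rw [h1, h2, fourier_gaussian_innerProductSpace (by simpa using Real.pi_pos)]
  have hpi : (Real.pi : ℂ) ≠ 0 := by exact_mod_cast Real.pi_ne_zero
  rw [div_self hpi, one_cpow, one_mul]
  unfold gg
  push_cast
  congr 1
  field_simp

lemma V_eq_pr (hU : S_U) (f : 𝓢(E d, ℂ)) (x k : E d) :
    V f x k = pr f (W x k (MOY.GS d)) := by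
  unfold V pr
  congr 1
  funext y
  rw [(hU d).2.2.2.1, MOY.GS_apply, map_mul, conj_ofReal, mul_assoc]

/-- The Gaussian integral. -/
lemma V_UG (hU : S_U) (s : ℝ) (x k : E d) :
    ‖V (U s (MOY.GS d)) x k‖ ≤
      Real.exp (-(Real.pi / 2) * ‖k‖ ^ 2) *
        Real.exp (-(Real.pi / (2 * (1 + 4 * Real.pi ^ 2 * s ^ 2))) *
          ‖x + (2 * Real.pi * s) • k‖ ^ 2) := by
  set b : ℂ := 2 * Real.pi - 4 * Real.pi ^ 2 * s * I with hb
  have hbre : b.re = 2 * Real.pi := by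
    rw [hb]
    have : (2 * (Real.pi : ℂ) - 4 * (Real.pi : ℂ) ^ 2 * s * I) =
      ((2 * Real.pi : ℝ) : ℂ) - ((4 * Real.pi ^ 2 * s : ℝ) : ℂ) * I := by push_cast; ring
    rw [this]
    simp only [sub_re, mul_re, ofReal_re, ofReal_im, I_re, I_im, mul_zero, mul_one, sub_zero]
  have hbim : b.im = -(4 * Real.pi ^ 2 * s) := by
    rw [hb]
    have : (2 * (Real.pi : ℂ) - 4 * (Real.pi : ℂ) ^ 2 * s * I) =
      ((2 * Real.pi : ℝ) : ℂ) - ((4 * Real.pi ^ 2 * s : ℝ) : ℂ) * I := by push_cast; ring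
    rw [this]
    simp only [sub_im, mul_im, ofReal_re, ofReal_im, I_re, I_im, mul_zero, mul_one, zero_sub,
      add_zero]
  have hbpos : 0 < b.re := by rw [hbre]; positivity
  have hb0 : b ≠ 0 := by
    intro h0
    rw [h0] at hbpos
    simp at hbpos
  have h1 : V (U s (MOY.GS d)) x k =
      ∫ ξ : E d, sym s ξ * (gg ξ : ℂ) * (chr (ξ - k) x * (gg (ξ - k) : ℂ)) := by
    rw [V_eq_pr hU, (hU d).2.2.2.2.1]
    unfold pr
    congr 1
    funext ξ
    rw [(hU d).2.2.1, COV.fourier_W hU, fourier_G, fourier_G, map_mul, Complex.conj_conj,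
      conj_ofReal]
  have h2 : ∫ ξ : E d, sym s ξ * (gg ξ : ℂ) * (chr (ξ - k) x * (gg (ξ - k) : ℂ)) =
      cexp (((-(Real.pi / 2) * ‖k‖ ^ 2 : ℝ) : ℂ) +
        ((Real.pi ^ 2 * s * ‖k‖ ^ 2 - Real.pi * inner ℝ k x : ℝ) : ℂ) * I) *
      ∫ η : E d, cexp (-b * ‖η‖ ^ 2 +
        (2 * Real.pi * I) * (inner ℝ (x + (2 * Real.pi * s) • k) η : ℝ)) := by
    rw [← integral_const_mul, ← integral_add_right_eq_self _ ((1 / 2 : ℝ) • k)]
    congr 1
    funext η
    have e1 : η + (1 / 2 : ℝ) • k - k = η - (1 / 2 : ℝ) • k := by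
      rw [add_sub_assoc, sub_eq_add_neg η]
      congr 1
      rw [show (k : E d) = (1 : ℝ) • k from (one_smul ℝ k).symm, smul_smul, ← sub_smul, ← neg_smul]
      norm_num
    rw [e1]
    unfold sym gg chr
    rw [ofReal_exp, ofReal_exp, ← Complex.exp_add, ← Complex.exp_add, ← Complex.exp_add,
      ← Complex.exp_add]
    congr 1
    have n1 : ‖η + (1 / 2 : ℝ) • k‖ ^ 2 = ‖η‖ ^ 2 + inner ℝ η k + ‖k‖ ^ 2 / 4 := by
      rw [norm_add_sq_real, norm_smul, inner_smul_right]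
      norm_num
      ring
    have n2 : ‖η - (1 / 2 : ℝ) • k‖ ^ 2 = ‖η‖ ^ 2 - inner ℝ η k + ‖k‖ ^ 2 / 4 := by
      rw [norm_sub_sq_real, norm_smul, inner_smul_right]
      norm_num
      ring
    have n3 : inner ℝ (η - (1 / 2 : ℝ) • k) x = inner ℝ x η - (1 / 2) * inner ℝ k x := by
      rw [inner_sub_left, inner_smul_left, real_inner_comm]
      simp
    have n4 : inner ℝ (x + (2 * Real.pi * s) • k) η = inner ℝ x η +
        (2 * Real.pi * s) * inner ℝ η k := by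
      rw [inner_add_left, inner_smul_left, real_inner_comm k η]
      simp
    rw [n1, n2, n3, n4, hb]
    push_cast
    ring
  have h3 := GaussianFourier.integral_cexp_neg_mul_sq_norm_add (V := E d) hbpos (2 * Real.pi * I)
    (x + (2 * Real.pi * s) • k)
  rw [h1, h2, h3, norm_mul, norm_mul, Complex.norm_exp, Complex.norm_exp]
  have r1 : (((-(Real.pi / 2) * ‖k‖ ^ 2 : ℝ) : ℂ) +
        ((Real.pi ^ 2 * s * ‖k‖ ^ 2 - Real.pi * inner ℝ k x : ℝ) : ℂ) * I).re =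
      -(Real.pi / 2) * ‖k‖ ^ 2 := by
    simp only [add_re, mul_re, ofReal_re, ofReal_im, I_re, I_im, mul_zero, zero_mul, sub_zero,
      add_zero]
  rw [r1]
  have hnsq : normSq b = 4 * Real.pi ^ 2 * (1 + 4 * Real.pi ^ 2 * s ^ 2) := by
    rw [normSq_apply, hbre, hbim]; ring
  have hL : 0 < 1 + 4 * Real.pi ^ 2 * s ^ 2 := by positivity
  have r2 : ((2 * Real.pi * I) ^ 2 * ‖x + (2 * Real.pi * s) • k‖ ^ 2 / (4 * b)).re =
      -(Real.pi / (2 * (1 + 4 * Real.pi ^ 2 * s ^ 2))) * ‖x + (2 * Real.pi * s) • k‖ ^ 2 := by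
    have e2 : (2 * (Real.pi : ℂ) * I) ^ 2 * (‖x + (2 * Real.pi * s) • k‖ : ℂ) ^ 2 / (4 * b) =
        ((-(Real.pi ^ 2) * ‖x + (2 * Real.pi * s) • k‖ ^ 2 : ℝ) : ℂ) * b⁻¹ := by
      push_cast
      rw [mul_pow, mul_pow, I_sq]
      field_simp
      ring
    rw [e2, re_ofReal_mul, inv_re, hbre, hnsq]
    have := Real.pi_ne_zero
    field_simp
    ring
  rw [r2]
  have r3 : ‖((Real.pi : ℂ) / b) ^ ((Module.finrank ℝ (E d) : ℂ) / 2)‖ ≤ 1 := by
    have e3 : ((Module.finrank ℝ (E d) : ℂ) / 2) = (((Module.finrank ℝ (E d) : ℝ) / 2 : ℝ) : ℂ) := by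
      push_cast; rfl
    rw [e3, Complex.norm_cpow_real]
    apply Real.rpow_le_one (norm_nonneg _)
    · rw [norm_div, Complex.norm_real, Real.norm_of_nonneg Real.pi_pos.le]
      rw [div_le_one (norm_pos_iff.mpr hb0)]
      calc Real.pi ≤ 2 * Real.pi := by linarith [Real.pi_pos]
        _ = b.re := hbre.symm
        _ ≤ ‖b‖ := re_le_norm b
    · positivity
  refine mul_le_mul_of_nonneg_left ?_ (Real.exp_pos _).le
  calc ‖((Real.pi : ℂ) / b) ^ ((Module.finrank ℝ (E d) : ℂ) / 2)‖ * Real.exp _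
      ≤ 1 * Real.exp _ := mul_le_mul_of_nonneg_right r3 (Real.exp_pos _).le
    _ = _ := one_mul _

/-- Polynomial decay from Gaussian decay. -/
lemma pow_le_exp (M : ℕ) (c : ℝ) (hc : 0 < c) : ∃ C : ℝ, 0 < C ∧ ∀ ρ : ℝ, 0 ≤ ρ →
    (1 + ρ) ^ M * Real.exp (-c * ρ ^ 2) ≤ C := by
  refine ⟨Real.exp c * (Nat.factorial M) * (2 / c) ^ M, by positivity, fun ρ hρ => ?_⟩
  have h1 : (c / 2 * (1 + ρ) ^ 2) ^ M / (Nat.factorial M) ≤ Real.exp (c / 2 * (1 + ρ) ^ 2) :=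
    Real.pow_div_factorial_le_exp _ (by positivity) M
  have h2 : c / 2 * (1 + ρ) ^ 2 ≤ c + c * ρ ^ 2 := by nlinarith [sq_nonneg (1 - ρ)]
  have h3 : (1 + ρ) ^ M ≤ ((1 + ρ) ^ 2) ^ M := by
    refine pow_le_pow_left₀ (by positivity) ?_ M
    nlinarith
  have hf : (0 : ℝ) < Nat.factorial M := by exact_mod_cast Nat.factorial_pos M
  have h4 : (1 + ρ) ^ M ≤ Real.exp (c + c * ρ ^ 2) * Nat.factorial M * (2 / c) ^ M := by
    calc (1 + ρ) ^ M ≤ ((1 + ρ) ^ 2) ^ M := h3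
      _ = (c / 2 * (1 + ρ) ^ 2) ^ M / Nat.factorial M * Nat.factorial M * (2 / c) ^ M := by
          rw [div_mul_cancel₀ _ hf.ne', ← mul_pow]
          congr 1
          field_simp
      _ ≤ Real.exp (c + c * ρ ^ 2) * Nat.factorial M * (2 / c) ^ M := by
          gcongr
          exact h1.trans (Real.exp_le_exp.mpr h2)
  calc (1 + ρ) ^ M * Real.exp (-c * ρ ^ 2)
      ≤ (Real.exp (c + c * ρ ^ 2) * Nat.factorial M * (2 / c) ^ M) * Real.exp (-c * ρ ^ 2) :=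
        mul_le_mul_of_nonneg_right h4 (Real.exp_pos _).le
    _ = Real.exp c * (Nat.factorial M) * (2 / c) ^ M *
        (Real.exp (c * ρ ^ 2) * Real.exp (-c * ρ ^ 2)) := by
        rw [Real.exp_add]; ring
    _ = _ := by
        rw [← Real.exp_add]
        simp

/-- Decay of the transform of the evolved Gaussian, with polynomial dependence on the time. -/
lemma decay_UG (hU : S_U) (M : ℕ) : ∃ C : ℝ, 0 < C ∧ ∀ (s : ℝ) (x k : E d),
    nz x k ^ M * ‖V (U s (MOY.GS d)) x k‖ ≤ C * (1 + |s|) ^ M := by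
  obtain ⟨C, hC0, hC⟩ := pow_le_exp M (Real.pi / 16) (by positivity)
  refine ⟨C * (2 * Real.pi) ^ M, by positivity, fun s x k => ?_⟩
  set L : ℝ := 1 + 4 * Real.pi ^ 2 * s ^ 2 with hL
  have hL1 : 1 ≤ L := by rw [hL]; nlinarith [sq_nonneg (2 * Real.pi * s)]
  have hL0 : 0 < L := by linarith
  set l : ℝ := Real.sqrt L with hl
  have hl2 : l ^ 2 = L := Real.sq_sqrt hL0.le
  have hl1 : 1 ≤ l := by rw [hl]; exact Real.one_le_sqrt.mpr hL1
  have hl0 : 0 < l := by linarith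
  have hlle : l ≤ 2 * Real.pi * (1 + |s|) := by
    have hpi := Real.pi_gt_three
    have h1 : l ≤ 1 + 2 * Real.pi * |s| := by
      rw [hl]
      apply Real.sqrt_le_iff.mpr
      refine ⟨by positivity, ?_⟩
      rw [hL]
      have : |s| ^ 2 = s ^ 2 := sq_abs s
      have h2 : 0 ≤ |s| := abs_nonneg s
      nlinarith [mul_nonneg (mul_nonneg (by norm_num : (0:ℝ) ≤ 4) Real.pi_pos.le) h2]
    linarith
  set ρ : ℝ := (‖x‖ + ‖k‖) / l with hρ
  have hρ0 : 0 ≤ ρ := by positivity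
  set w := x + (2 * Real.pi * s) • k with hw
  have hx : ‖x‖ ^ 2 ≤ 2 * ‖w‖ ^ 2 + 2 * L * ‖k‖ ^ 2 := by
    have h1 : ‖x‖ ≤ ‖w‖ + ‖(2 * Real.pi * s) • k‖ := by
      have : x = w - (2 * Real.pi * s) • k := by rw [hw]; simp
      calc ‖x‖ = ‖w - (2 * Real.pi * s) • k‖ := by rw [← this]
        _ ≤ _ := norm_sub_le _ _
    have h2 : ‖(2 * Real.pi * s) • k‖ ^ 2 ≤ L * ‖k‖ ^ 2 := by
      rw [norm_smul, mul_pow, Real.norm_eq_abs, sq_abs]
      refine mul_le_mul_of_nonneg_right ?_ (by positivity)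
      rw [hL]; ring_nf; linarith
    have h3 : ‖x‖ ^ 2 ≤ (‖w‖ + ‖(2 * Real.pi * s) • k‖) ^ 2 :=
      pow_le_pow_left₀ (norm_nonneg _) h1 2
    nlinarith [sq_nonneg (‖w‖ - ‖(2 * Real.pi * s) • k‖)]
  have hexp : (Real.pi / 16) * ρ ^ 2 ≤ (Real.pi / 2) * ‖k‖ ^ 2 + (Real.pi / (2 * L)) * ‖w‖ ^ 2 := by
    have h1 : (‖x‖ + ‖k‖) ^ 2 ≤ 8 * (L * ‖k‖ ^ 2 + ‖w‖ ^ 2) := by
      have h2 : ‖k‖ ^ 2 ≤ L * ‖k‖ ^ 2 := by nlinarith [sq_nonneg ‖k‖]
      nlinarith [sq_nonneg (‖x‖ - ‖k‖), sq_nonneg ‖w‖]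
    have h2 : ρ ^ 2 = (‖x‖ + ‖k‖) ^ 2 / L := by rw [hρ, div_pow, hl2]
    rw [h2]
    have h3 : (Real.pi / 2) * ‖k‖ ^ 2 + (Real.pi / (2 * L)) * ‖w‖ ^ 2 =
        Real.pi / 16 * (8 * (L * ‖k‖ ^ 2 + ‖w‖ ^ 2) / L) := by
      field_simp
      ring
    rw [h3]
    gcongr
  have hV : ‖V (U s (MOY.GS d)) x k‖ ≤ Real.exp (-(Real.pi / 16) * ρ ^ 2) := by
    refine (V_UG hU s x k).trans ?_
    rw [← Real.exp_add]
    apply Real.exp_le_exp.mpr
    rw [← hL, ← hw]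
    linarith
  have hnz : nz x k ≤ l * (1 + ρ) := by
    unfold nz
    have : l * (1 + ρ) = l + (‖x‖ + ‖k‖) := by
      rw [hρ]; field_simp
    rw [this]
    linarith
  have hnz0 : 0 ≤ nz x k := by unfold nz; positivity
  calc nz x k ^ M * ‖V (U s (MOY.GS d)) x k‖
      ≤ (l * (1 + ρ)) ^ M * Real.exp (-(Real.pi / 16) * ρ ^ 2) := by gcongr
    _ = l ^ M * ((1 + ρ) ^ M * Real.exp (-(Real.pi / 16) * ρ ^ 2)) := by rw [mul_pow]; ring
    _ ≤ l ^ M * C := by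
        refine mul_le_mul_of_nonneg_left (hC ρ hρ0) (by positivity)
    _ ≤ (2 * Real.pi * (1 + |s|)) ^ M * C := by gcongr
    _ = C * (2 * Real.pi) ^ M * (1 + |s|) ^ M := by rw [mul_pow]; ring

lemma nz_pos (x k : E d) : 0 < nz x k := by unfold nz; positivity

lemma one_le_nz (x k : E d) : 1 ≤ nz x k := by
  unfold nz; linarith [norm_nonneg x, norm_nonneg k]

lemma nz_cont : Continuous (fun z : E d × E d => nz z.1 z.2) := by
  unfold nz; fun_prop

/-- The weight is integrable. -/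
lemma nz_integrable (d : ℕ) :
    Integrable (fun z : E d × E d => (nz z.1 z.2 ^ (2 * d + 1))⁻¹) (volume.prod volume) := by
  have h1 : Integrable (fun z : E d × E d => (1 + ‖z‖) ^ (-((2 * d + 1 : ℕ) : ℝ)))
      (volume.prod volume) := by
    apply integrable_one_add_norm
    rw [Module.finrank_prod, finrank_euclideanSpace, Fintype.card_fin]
    push_cast
    linarith
  refine h1.mono' ?_ (Eventually.of_forall fun z => ?_)
  · exact ((nz_cont.pow _).inv₀ fun z => (pow_pos (nz_pos _ _) _).ne').aestronglyMeasurable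
  · rw [Real.norm_of_nonneg (inv_nonneg.mpr (pow_pos (nz_pos _ _) _).le),
      Real.rpow_neg (by positivity), Real.rpow_natCast]
    have h2 : 1 + ‖z‖ ≤ nz z.1 z.2 := by
      unfold nz
      have : ‖z‖ ≤ ‖z.1‖ + ‖z.2‖ := by
        rw [Prod.norm_def]
        exact max_le (by linarith [norm_nonneg z.2]) (by linarith [norm_nonneg z.1])
      linarith
    gcongr

lemma nz_sub_mul (x k x' k' : E d) : nz x k ≤ nz (x - x') (k - k') * nz x' k' := by
  unfold nz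
  have h1 : ‖x‖ ≤ ‖x - x'‖ + ‖x'‖ := by
    calc ‖x‖ = ‖(x - x') + x'‖ := by rw [sub_add_cancel]
      _ ≤ _ := norm_add_le _ _
  have h2 : ‖k‖ ≤ ‖k - k'‖ + ‖k'‖ := by
    calc ‖k‖ = ‖(k - k') + k'‖ := by rw [sub_add_cancel]
      _ ≤ _ := norm_add_le _ _
  have a1 := norm_nonneg (x - x')
  have a2 := norm_nonneg (k - k')
  have a3 := norm_nonneg x'
  have a4 := norm_nonneg k'
  nlinarith [mul_nonneg a1 a3, mul_nonneg a1 a4, mul_nonneg a2 a3, mul_nonneg a2 a4]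

/-- Pairing with a phase space translate. -/
lemma pr_W_le (hU : S_U) (hCOV : S_COV) (hMOY : S_MOY) (m : ℕ) {A B : ℝ} (hA : 0 ≤ A) (hB : 0 ≤ B)
    (v F : 𝓢(E d, ℂ)) (hv : ∀ x k, ‖V v x k‖ ≤ A * nz x k ^ m)
    (hF : ∀ x k, nz x k ^ (m + (2 * d + 1)) * ‖V F x k‖ ≤ B) (x k : E d) :
    ‖pr v (W x k F)‖ ≤ (cg d)⁻¹ * (A * B * nz x k ^ m *
      ∫ z : E d × E d, (nz z.1 z.2 ^ (2 * d + 1))⁻¹ ∂(volume.prod volume)) := by
  have hcg := (hMOY d).1
  have hm := ((hMOY d).2 v (W x k F)).2.2.1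
  have hm2 := ((hMOY d).2 v (W x k F)).2.1
  have h1 : pr v (W x k F) = ((cg d : ℝ) : ℂ)⁻¹ *
      ∫ z : E d × E d, V v z.1 z.2 * conj (V (W x k F) z.1 z.2) ∂(volume.prod volume) := by
    rw [hm, ← mul_assoc, inv_mul_cancel₀ (by exact_mod_cast hcg.ne'), one_mul]
  have hW : ∀ x' k' : E d, ‖V (W x k F) x' k'‖ = ‖V F (x' - x) (k' - k)‖ := by
    intro x' k'
    have := (hCOV hU d).2 (fun _ => 1) x k F x' k'
    simpa using this
  have h2 : ‖∫ z : E d × E d, V v z.1 z.2 * conj (V (W x k F) z.1 z.2) ∂(volume.prod volume)‖ ≤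
      ∫ z : E d × E d, A * B * nz x k ^ m * (nz (z.1 - x) (z.2 - k) ^ (2 * d + 1))⁻¹
        ∂(volume.prod volume) := by
    have hint : Integrable (fun z : E d × E d => A * B * nz x k ^ m *
        (nz (z.1 - x) (z.2 - k) ^ (2 * d + 1))⁻¹) (volume.prod volume) := by
      have := (nz_integrable d).comp_sub_right (x, k)
      exact this.const_mul _
    refine norm_integral_le_of_norm_le hint (Eventually.of_forall fun z => ?_)
    rw [norm_mul, RCLike.norm_conj, hW]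
    have e1 := hv z.1 z.2
    have e2 := hF (z.1 - x) (z.2 - k)
    have e3 : nz z.1 z.2 ^ m ≤ nz (z.1 - x) (z.2 - k) ^ m * nz x k ^ m := by
      rw [← mul_pow]
      exact pow_le_pow_left₀ (nz_pos _ _).le (nz_sub_mul _ _ _ _) m
    have e4 : ‖V F (z.1 - x) (z.2 - k)‖ ≤
        B * (nz (z.1 - x) (z.2 - k) ^ (m + (2 * d + 1)))⁻¹ := by
      rw [← div_eq_mul_inv, le_div_iff₀ (pow_pos (nz_pos _ _) _), mul_comm]
      exact e2
    calc ‖V v z.1 z.2‖ * ‖V F (z.1 - x) (z.2 - k)‖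
        ≤ (A * (nz (z.1 - x) (z.2 - k) ^ m * nz x k ^ m)) *
          (B * (nz (z.1 - x) (z.2 - k) ^ (m + (2 * d + 1)))⁻¹) := by
          refine mul_le_mul (e1.trans (mul_le_mul_of_nonneg_left e3 hA)) e4 (norm_nonneg _) ?_
          have := nz_pos (z.1 - x) (z.2 - k)
          have := nz_pos x k
          positivity
      _ = A * B * nz x k ^ m * (nz (z.1 - x) (z.2 - k) ^ (2 * d + 1))⁻¹ := by
          rw [pow_add]
          have := (pow_pos (nz_pos (z.1 - x) (z.2 - k)) m).ne'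
          have := (pow_pos (nz_pos (z.1 - x) (z.2 - k)) (2 * d + 1)).ne'
          field_simp
  have h3 : ∫ z : E d × E d, A * B * nz x k ^ m * (nz (z.1 - x) (z.2 - k) ^ (2 * d + 1))⁻¹
        ∂(volume.prod volume) = A * B * nz x k ^ m *
      ∫ z : E d × E d, (nz z.1 z.2 ^ (2 * d + 1))⁻¹ ∂(volume.prod volume) := by
    rw [integral_const_mul]
    congr 1
    exact integral_sub_right_eq_self
      (fun z : E d × E d => (nz z.1 z.2 ^ (2 * d + 1))⁻¹) (x, k)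
  rw [h1, norm_mul, norm_inv, Complex.norm_real, Real.norm_of_nonneg hcg.le]
  refine mul_le_mul_of_nonneg_left ?_ (inv_nonneg.mpr hcg.le)
  rw [← h3]
  exact h2

lemma norm_pr_smul (f h : 𝓢(E d, ℂ)) (c : ℂ) (hc : ‖c‖ = 1) :
    ‖pr f (c • h : 𝓢(E d, ℂ))‖ = ‖pr f h‖ := by
  have : pr f (c • h : 𝓢(E d, ℂ)) = conj c * pr f h := by
    unfold pr
    rw [← integral_const_mul]
    congr 1
    funext y
    have : (c • h : 𝓢(E d, ℂ)) y = c * h y := rfl
    rw [this, map_mul]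
    ring
  rw [this, norm_mul, RCLike.norm_conj, hc, one_mul]

lemma arith {c A C P Z Z' J : ℝ} (hc : 0 ≤ c) (hA : 0 ≤ A) (hC : 0 ≤ C) (hP : 0 ≤ P)
    (hZ : 0 ≤ Z) (hZZ : Z ≤ Z') (hJ : 0 ≤ J) :
    c * (A * (C * P) * Z * J) ≤ c * (A * (C * P) * Z' * (J + 1)) := by
  have h1 : Z * J ≤ Z' * (J + 1) := by nlinarith
  have h2 : 0 ≤ c * (A * (C * P)) := by positivity
  calc c * (A * (C * P) * Z * J) = c * (A * (C * P)) * (Z * J) := by ring
    _ ≤ c * (A * (C * P)) * (Z' * (J + 1)) := mul_le_mul_of_nonneg_left h1 h2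
    _ = _ := by ring

end GRO

theorem t_GRO : S_GRO := by
  intro hU hCOV hMOY _ d m
  obtain ⟨C, hC0, hC⟩ := GRO.decay_UG (d := d) hU (m + (2 * d + 1))
  set J := ∫ z : E d × E d, (nz z.1 z.2 ^ (2 * d + 1))⁻¹ ∂(volume.prod volume) with hJ
  have hJ0 : 0 ≤ J := integral_nonneg fun z => inv_nonneg.mpr (pow_pos (GRO.nz_pos _ _) _).le
  have hcg := (hMOY d).1
  refine ⟨(cg d)⁻¹ * C * (4 * Real.pi) ^ m * (J + 1), m + (2 * d + 1) + m, by positivity, ?_⟩
  intro A v hA hv t x k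
  have h1 : ‖V (U t v) x k‖ = ‖pr v (W (x + (4 * Real.pi * t) • k) k (U (-t) (MOY.GS d)))‖ := by
    rw [GRO.V_eq_pr hU, (hU d).2.2.2.2.2.1, (hCOV hU d).1, GRO.norm_pr_smul]
    · congr 3
      have : x - (4 * Real.pi * -t) • k = x + (4 * Real.pi * t) • k := by
        rw [mul_neg, neg_smul, sub_neg_eq_add]
      rw [this]
    · exact Complex.norm_exp_ofReal_mul_I _
  rw [h1]
  have hB : ∀ x k, nz x k ^ (m + (2 * d + 1)) * ‖V (U (-t) (MOY.GS d)) x k‖ ≤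
      C * (1 + |t|) ^ (m + (2 * d + 1)) := by
    intro x k
    have := hC (-t) x k
    rwa [abs_neg] at this
  have h2 := GRO.pr_W_le hU hCOV hMOY m hA (by positivity) v (U (-t) (MOY.GS d)) hv hB
    (x + (4 * Real.pi * t) • k) k
  refine h2.trans ?_
  have h3 : nz (x + (4 * Real.pi * t) • k) k ≤ 4 * Real.pi * (1 + |t|) * nz x k := by
    unfold nz
    have e1 : ‖x + (4 * Real.pi * t) • k‖ ≤ ‖x‖ + 4 * Real.pi * |t| * ‖k‖ := by
      refine (norm_add_le _ _).trans ?_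
      rw [norm_smul, Real.norm_eq_abs, abs_mul, abs_of_pos (by positivity : 0 < 4 * Real.pi)]
    have hpi := Real.pi_gt_three
    have a1 := norm_nonneg x
    have a2 := norm_nonneg k
    have a3 := abs_nonneg t
    have a4 := mul_nonneg Real.pi_pos.le a1
    have a5 := mul_nonneg Real.pi_pos.le a2
    have a6 := mul_nonneg Real.pi_pos.le a3
    have a7 := mul_nonneg a6 a1
    have a8 := mul_nonneg a6 a2
    nlinarith
  have h4 : nz (x + (4 * Real.pi * t) • k) k ^ m ≤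
      (4 * Real.pi) ^ m * (1 + |t|) ^ m * nz x k ^ m := by
    rw [← mul_pow, ← mul_pow]
    exact pow_le_pow_left₀ (GRO.nz_pos _ _).le h3 m
  have h5 := GRO.arith (inv_nonneg.mpr hcg.le) hA hC0.le
    (pow_nonneg (by positivity : 0 ≤ 1 + |t|) (m + (2 * d + 1)))
    (pow_nonneg (GRO.nz_pos (x + (4 * Real.pi * t) • k) k).le m) h4 hJ0
  refine h5.trans (le_of_eq ?_)
  rw [pow_add (1 + |t|) (m + (2 * d + 1)) m]
  ring

end

end Pool.Agent.Q73.SO
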