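import Pool.Agent.Q73.SO.Stm
import Pool.Agent.Q73.SO.GRO

/-!
# Assembly of the contradiction argument (job SO-13, helper75)
-/

set_option autoImplicit false
open MeasureTheory Filter Topology Complex
open scoped ContDiff FourierTransform SchwartzMap ComplexConjugate

namespace Pool.Agent.Q73.SO

noncomputable section

namespace CLAIM

variable {d : ℕ}

lemma one_le_wn (n : ℕ) (x k : E d) : 1 ≤ wn n x k := by
  unfold wn
  have : 0 ≤ (‖x‖ + ‖k‖) / n := by positivity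
  linarith

lemma wn_le_nz {n : ℕ} (hn : 0 < n) (x k : E d) : wn n x k ≤ nz x k := by
  unfold wn nz
  have h1 : (1 : ℝ) ≤ n := by exact_mod_cast hn
  have : (‖x‖ + ‖k‖) / n ≤ ‖x‖ + ‖k‖ := div_le_self (by positivity) h1
  linarith

lemma wn_add (n : ℕ) (x k x' k' : E d) : wn n (x + x') (k + k') ≤ wn n x k * wn n x' k' := by
  unfold wn
  have h1 := norm_add_le x x'
  have h2 := norm_add_le k k'
  have h3 : (‖x + x'‖ + ‖k + k'‖) / n ≤ (‖x‖ + ‖k‖) / n + (‖x'‖ + ‖k'‖) / n := by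
    rw [← add_div]
    exact div_le_div_of_nonneg_right (by linarith) (by positivity)
  have h4 : 0 ≤ ((‖x‖ + ‖k‖) / n) * ((‖x'‖ + ‖k'‖) / n) := by positivity
  nlinarith

lemma fourier_smul (c : ℂ) (u : 𝓢(E d, ℂ)) (ξ : E d) :
    𝓕 (c • u : 𝓢(E d, ℂ)) ξ = c * 𝓕 u ξ := by
  rw [COV.fourier_int, COV.fourier_int, ← integral_const_mul]
  congr 1
  funext y
  have : (c • u : 𝓢(E d, ℂ)) y = c * u y := rfl
  rw [this]; ring

lemma U_smul (hU : S_U) (t : ℝ) (c : ℂ) (u : 𝓢(E d, ℂ)) (y : E d) :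
    U t (c • u) y = c * U t u y := by
  have h1 : U t (c • u) = c • U t u := by
    apply COV.inj
    intro ξ
    rw [(hU d).2.2.1, fourier_smul, fourier_smul, (hU d).2.2.1]
    ring
  rw [h1]; rfl

lemma V_mul (c : ℂ) (f : E d → ℂ) (x k : E d) : V (fun y => c * f y) x k = c * V f x k := by
  unfold V
  rw [← integral_const_mul]
  congr 1
  funext y
  ring

lemma obs_smul (hU : S_U) (T : ℝ) (a : E d → ℝ) (p q : E d) (c : ℂ) (v : 𝓢(E d, ℂ)) (x k : E d) :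
    obs T a p q (c • v) x k = ‖c‖ ^ 2 * obs T a p q v x k := by
  unfold obs
  rw [← intervalIntegral.integral_const_mul]
  congr 1
  funext t
  rw [← mul_pow, ← norm_mul, ← V_mul]
  congr 3
  funext y
  rw [U_smul hU]
  ring

lemma W_W (hU : S_U) (p q : E d) (c : ℂ) (u : 𝓢(E d, ℂ)) :
    W p q (c • W (-p) (-q) u) = (c * chr q p) • u := by
  ext y
  have h1 : ((c * chr q p) • u : 𝓢(E d, ℂ)) y = (c * chr q p) * u y := rfl
  have h2 : (c • W (-p) (-q) u : 𝓢(E d, ℂ)) (y - p) = c * W (-p) (-q) u (y - p) := rfl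
  rw [h1, (hU d).2.2.2.1, h2, (hU d).2.2.2.1, sub_neg_eq_add, sub_add_cancel]
  have h3 : chr q y * chr (-q) (y - p) = chr q p := by
    unfold chr
    rw [← Complex.exp_add]
    congr 1
    rw [inner_neg_left, inner_sub_right]
    push_cast
    ring
  rw [← h3]
  ring

lemma V_W_neg (hU : S_U) (hCOV : S_COV) (p q : E d) (u : 𝓢(E d, ℂ)) (x k : E d) :
    ‖V (W (-p) (-q) u) x k‖ = ‖V u (x + p) (k + q)‖ := by
  have := (hCOV hU d).2 (fun _ => 1) (-p) (-q) u x k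
  simpa using this

/-- Renormalisation at a near maximal point. -/
lemma renorm (hU : S_U) (hCOV : S_COV) (hREN : S_REN) (hDEC : S_DEC) (m : ℕ) (T : ℝ)
    (a : E d → ℝ) {n : ℕ} (hn : 0 < n) (u : 𝓢(E d, ℂ)) (x₀ k₀ : E d) (S : ℝ) (hS : 0 ≤ S)
    (hobs : ∀ x k, obs T a 0 0 u x k ≤ S ^ 2 * wn n (x - x₀) (k - k₀) ^ (2 * m))
    (hviol : ∃ x k, n * S * wn n (x - x₀) (k - k₀) ^ m < ‖V u x k‖) :
    ∃ (p q : E d) (v : 𝓢(E d, ℂ)), (∀ x k, ‖V v x k‖ ≤ nz x k ^ m) ∧ 1 / 2 ≤ ‖V v 0 0‖ ∧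
      ∀ x k, obs T a p q v x k ≤ (1 / n : ℝ) ^ 2 * nz x k ^ (2 * m) := by
  have hn0 : (0 : ℝ) < n := by exact_mod_cast hn
  set Q : E d × E d → ℝ := fun z => ‖V u z.1 z.2‖ / wn n (z.1 - x₀) (z.2 - k₀) ^ m with hQ
  have hwpos : ∀ x k : E d, 0 < wn n x k ^ m := fun x k =>
    pow_pos (lt_of_lt_of_le zero_lt_one (one_le_wn n x k)) m
  obtain ⟨CD, KD, hCD, hD⟩ := hDEC d 0
  have hbdd : BddAbove (Set.range Q) := by
    refine ⟨CD * ((Finset.Iic (KD, KD)).sup (schwartzSeminormFamily ℝ (E d) ℂ)) u, ?_⟩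
    rintro _ ⟨z, rfl⟩
    have h1 := hD u z.1 z.2
    rw [pow_zero, one_mul] at h1
    refine (div_le_self (norm_nonneg _) (one_le_pow₀ (one_le_wn n _ _))).trans h1
  set A := ⨆ z, Q z with hA
  have hQA : ∀ z, Q z ≤ A := fun z => le_ciSup hbdd z
  obtain ⟨x₁, k₁, hx₁⟩ := hviol
  have hnSA : n * S < A := by
    refine lt_of_lt_of_le ?_ (hQA (x₁, k₁))
    rw [hQ]
    rw [lt_div_iff₀ (hwpos _ _)]
    exact hx₁
  have hA0 : 0 < A := lt_of_le_of_lt (by positivity) hnSA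
  obtain ⟨⟨p, q⟩, hpq⟩ := exists_lt_of_lt_ciSup (show A / 2 < ⨆ z, Q z by rw [← hA]; linarith)
  set w₁ := wn n (p - x₀) (q - k₀) with hw₁
  have hw₁pos : 0 < w₁ := lt_of_lt_of_le zero_lt_one (one_le_wn n _ _)
  have hw₁m : 0 < w₁ ^ m := pow_pos hw₁pos m
  set D := A * w₁ ^ m with hDdef
  have hDpos : 0 < D := mul_pos hA0 hw₁m
  have hc : ‖((D⁻¹ : ℝ) : ℂ)‖ = D⁻¹ := by
    rw [Complex.norm_real, Real.norm_of_nonneg (inv_nonneg.mpr hDpos.le)]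
  have hVv : ∀ x k, ‖V (((D⁻¹ : ℝ) : ℂ) • W (-p) (-q) u : 𝓢(E d, ℂ)) x k‖ =
      D⁻¹ * ‖V u (x + p) (k + q)‖ := by
    intro x k
    have h1 : V (((D⁻¹ : ℝ) : ℂ) • W (-p) (-q) u : 𝓢(E d, ℂ)) x k =
        ((D⁻¹ : ℝ) : ℂ) * V (W (-p) (-q) u) x k := by
      rw [← V_mul]; rfl
    rw [h1, norm_mul, hc, V_W_neg hU hCOV]
  have hwadd : ∀ x k : E d, wn n (x + p - x₀) (k + q - k₀) ≤ wn n x k * w₁ := by
    intro x k
    rw [add_sub_assoc, add_sub_assoc]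
    exact wn_add n x k _ _
  refine ⟨p, q, ((D⁻¹ : ℝ) : ℂ) • W (-p) (-q) u, ?_, ?_, ?_⟩
  · intro x k
    rw [hVv]
    have h1 : ‖V u (x + p) (k + q)‖ ≤ A * wn n (x + p - x₀) (k + q - k₀) ^ m := by
      have := hQA (x + p, k + q)
      rw [hQ] at this
      exact (div_le_iff₀ (hwpos _ _)).mp this
    have h2 : wn n (x + p - x₀) (k + q - k₀) ^ m ≤ (nz x k) ^ m * w₁ ^ m := by
      rw [← mul_pow]
      refine pow_le_pow_left₀ (zero_le_one.trans (one_le_wn n _ _)) ?_ m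
      exact (hwadd x k).trans (mul_le_mul_of_nonneg_right (wn_le_nz hn x k) hw₁pos.le)
    rw [inv_mul_le_iff₀ hDpos]
    calc ‖V u (x + p) (k + q)‖ ≤ A * wn n (x + p - x₀) (k + q - k₀) ^ m := h1
      _ ≤ A * ((nz x k) ^ m * w₁ ^ m) := mul_le_mul_of_nonneg_left h2 hA0.le
      _ = D * nz x k ^ m := by rw [hDdef]; ring
  · rw [hVv, zero_add, zero_add]
    have h1 : A / 2 < ‖V u p q‖ / w₁ ^ m := hpq
    rw [lt_div_iff₀ hw₁m] at h1
    rw [← div_eq_inv_mul, le_div_iff₀ hDpos, hDdef]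
    linarith
  · intro x k
    have h1 := hREN hU hCOV d T a p q (((D⁻¹ : ℝ) : ℂ) • W (-p) (-q) u) (x + p) (k + q)
    rw [add_sub_cancel_right, add_sub_cancel_right] at h1
    rw [← h1, W_W hU, obs_smul hU, norm_mul, hc, COV.chr_norm, mul_one]
    have h2 := hobs (x + p) (k + q)
    have h3 : wn n (x + p - x₀) (k + q - k₀) ^ (2 * m) ≤ nz x k ^ (2 * m) * w₁ ^ (2 * m) := by
      rw [← mul_pow]
      refine pow_le_pow_left₀ (zero_le_one.trans (one_le_wn n _ _)) ?_ _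
      exact (hwadd x k).trans (mul_le_mul_of_nonneg_right (wn_le_nz hn x k) hw₁pos.le)
    have hnz : 0 ≤ nz x k ^ (2 * m) := (pow_pos (GRO.nz_pos x k) _).le
    have h4 : (D⁻¹) ^ 2 * (S ^ 2 * (nz x k ^ (2 * m) * w₁ ^ (2 * m))) =
        (S / A) ^ 2 * nz x k ^ (2 * m) := by
      rw [hDdef, mul_inv, mul_pow, div_pow, inv_pow, inv_pow, ← pow_mul, mul_comm m 2]
      have := (pow_pos hw₁pos (2 * m)).ne'
      field_simp
    have h5 : S / A ≤ 1 / n := by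
      rw [div_le_div_iff₀ hA0 hn0]
      nlinarith
    calc (D⁻¹) ^ 2 * obs T a 0 0 u (x + p) (k + q)
        ≤ (D⁻¹) ^ 2 * (S ^ 2 * (nz x k ^ (2 * m) * w₁ ^ (2 * m))) := by
          refine mul_le_mul_of_nonneg_left (h2.trans ?_) (by positivity)
          exact mul_le_mul_of_nonneg_left h3 (by positivity)
      _ = (S / A) ^ 2 * nz x k ^ (2 * m) := h4
      _ ≤ (1 / n : ℝ) ^ 2 * nz x k ^ (2 * m) := by
          refine mul_le_mul_of_nonneg_right ?_ hnz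
          exact pow_le_pow_left₀ (by positivity) h5 2

/-- Chebyshev. -/
lemma chebyshev {τ : Set ℝ} {T τ₀ δ c : ℝ} (hτm : MeasurableSet τ) (hτT : τ ⊆ Set.Icc 0 T)
    (hτ : τ₀ ≤ (volume τ).toReal) (F : ℝ → ℂ) (hF : Continuous F) (hδ : 0 < δ)
    (hint : ∫ t in τ, ‖F t‖ ^ 2 ≤ c) (hii : IntegrableOn (fun t => ‖F t‖ ^ 2) τ)
    (hc : c ≤ δ ^ 2 * (τ₀ / 2)) :
    MeasurableSet (τ ∩ {t | ‖F t‖ ≤ δ}) ∧ τ₀ / 2 ≤ (volume (τ ∩ {t | ‖F t‖ ≤ δ})).toReal := by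
  have hcl : IsClosed {t | ‖F t‖ ≤ δ} := isClosed_le hF.norm continuous_const
  have hm1 : MeasurableSet (τ ∩ {t | ‖F t‖ ≤ δ}) := hτm.inter hcl.measurableSet
  refine ⟨hm1, ?_⟩
  have hfin : volume τ ≠ ⊤ :=
    ne_of_lt (lt_of_le_of_lt (measure_mono hτT) (by rw [Real.volume_Icc]; exact ENNReal.ofReal_lt_top))
  set B := τ \ {t | ‖F t‖ ≤ δ} with hB
  have hBm : MeasurableSet B := hτm.diff hcl.measurableSet
  have hBfin : volume B ≠ ⊤ := ne_of_lt (lt_of_le_of_lt (measure_mono Set.sdiff_subset) hfin.lt_top)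
  have h1 : δ ^ 2 * (volume B).toReal ≤ c := by
    have h2 : ∫ t in B, (δ ^ 2 : ℝ) ≤ ∫ t in B, ‖F t‖ ^ 2 := by
      refine setIntegral_mono_on ?_ (hii.mono_set Set.sdiff_subset) hBm ?_
      · exact integrableOn_const hBfin
      · intro t ht
        have h3 : ¬ ‖F t‖ ≤ δ := ht.2
        push Not at h3
        exact pow_le_pow_left₀ hδ.le h3.le 2
    have h4 : ∫ t in B, ‖F t‖ ^ 2 ≤ ∫ t in τ, ‖F t‖ ^ 2 :=
      setIntegral_mono_set hii (Eventually.of_forall fun t => by positivity)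
        (Eventually.of_forall fun t ht => ht.1)
    rw [setIntegral_const, smul_eq_mul, measureReal_def, mul_comm] at h2
    linarith
  have h2 : (volume B).toReal ≤ τ₀ / 2 := by
    have h3 : δ ^ 2 * (volume B).toReal ≤ δ ^ 2 * (τ₀ / 2) := h1.trans hc
    exact le_of_mul_le_mul_left h3 (by positivity)
  have h3 : (volume τ).toReal = (volume (τ ∩ {t | ‖F t‖ ≤ δ})).toReal + (volume B).toReal := by
    rw [← ENNReal.toReal_add ?_ hBfin, measure_inter_add_sdiff _ hcl.measurableSet]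
    exact ne_of_lt (lt_of_le_of_lt (measure_mono Set.inter_subset_left) hfin.lt_top)
  linarith

/-- Weak convergence to zero on a ball. -/
lemma weak (hU : S_U) (hCOV : S_COV) (hMOY : S_MOY) (hDEC : S_DEC) (hGRO : S_GRO) (hHN : S_HN)
    (hTWO : S_TWO) (hCORE : S_CORE) (m : ℕ) (T η τ₀ r : ℝ) (a : E d → ℝ) (hT : 0 < T)
    (hη : 0 < η) (hτ₀ : 0 < τ₀) (ha : Bd a) (p₀ : E d) (p q : ℕ → E d) (v : ℕ → 𝓢(E d, ℂ))
    (ε : ℕ → ℝ) (hε0 : ∀ n, 0 ≤ ε n) (hε : Tendsto ε atTop (𝓝 0)) (τ : ℕ → Set ℝ)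
    (hv : ∀ n x k, ‖V (v n) x k‖ ≤ nz x k ^ m)
    (hobs : ∀ n x k, obs T a (p n) (q n) (v n) x k ≤ ε n ^ 2 * nz x k ^ (2 * m))
    (hτm : ∀ n, MeasurableSet (τ n)) (hτT : ∀ n, τ n ⊆ Set.Icc 0 T)
    (hτv : ∀ n, τ₀ ≤ (volume (τ n)).toReal)
    (hb : ∀ n, ∀ t ∈ τ n, ∀ y ∈ Metric.closedBall p₀ r,
      η ≤ a (y + p n - (4 * Real.pi * t) • q n))
    (θ : 𝓢(E d, ℂ)) (hθ : HasCompactSupport θ) (hθr : tsupport θ ⊆ Metric.closedBall p₀ r) :
    Tendsto (fun n => ∫ y, V (v n) y 0 * conj (θ y)) atTop (𝓝 0) := by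
  obtain ⟨C, hC0, hC⟩ := hCORE hU hMOY hDEC d m T η a θ hT hη ha hθ
  obtain ⟨C₁, K, K', hC₁, hH⟩ := hHN hU hCOV hMOY hDEC hGRO d m
  set s := ((Finset.Iic (K', K')).sup (schwartzSeminormFamily ℝ (E d) ℂ)) θ with hs
  have hs0 : 0 ≤ s := apply_nonneg _ _
  rw [Metric.tendsto_atTop]
  intro e he
  obtain ⟨δ, hδ, hδH⟩ := hTWO K T (τ₀ / 2) (C₁ * (s + 1)) (e / 2) hT (by positivity)
    (by positivity) (by positivity)
  have hlim : Tendsto (fun n => C * ε n ^ 2) atTop (𝓝 0) := by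
    have := (hε.pow 2).const_mul C
    simpa using this
  have hev : ∀ᶠ n in atTop, C * ε n ^ 2 ≤ δ ^ 2 * (τ₀ / 2) :=
    hlim.eventually_le_const (by positivity)
  obtain ⟨N, hN⟩ := eventually_atTop.mp hev
  refine ⟨N, fun n hn => ?_⟩
  obtain ⟨H, hHd, hHr, hHb, hHv⟩ := hH (v n) θ (hv n)
  have hcont : Continuous fun t : ℝ => H t := by
    have h1 : ContinuousOn H {ζ : ℂ | 0 ≤ ζ.im} := by
      have := hHd.continuousOn
      rwa [Complex.closure_setOfPred_lt_im] at this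
    exact h1.comp_continuous continuous_ofReal fun t => by simp
  obtain ⟨hI, hI2⟩ := hC (p n) (q n) (v n) (ε n) (τ n) (hε0 n) (hτm n) (hτT n) (hobs n)
    (fun t ht y hy => hb n t ht y (hθr hy))
  have hfe : (fun t : ℝ => ‖pr (U t (v n)) θ‖ ^ 2) = fun t : ℝ => ‖H t‖ ^ 2 := by
    funext t; rw [hHr]
  rw [hfe] at hI hI2
  obtain ⟨hAm, hAv⟩ := chebyshev (hτm n) (hτT n) (hτv n) (fun t : ℝ => H t) hcont hδ hI2 hI (hN n hn)
  have h2 := hδH H (τ n ∩ {t | ‖H t‖ ≤ δ}) hHd (fun ζ hζ => by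
      refine (hHb ζ hζ).trans ?_
      have h3 : 0 ≤ (1 + ‖ζ‖) ^ K := by positivity
      calc C₁ * (1 + ‖ζ‖) ^ K * s ≤ C₁ * (1 + ‖ζ‖) ^ K * (s + 1) :=
            mul_le_mul_of_nonneg_left (by linarith) (by positivity)
        _ = C₁ * (s + 1) * (1 + ‖ζ‖) ^ K := by ring)
    hAm (Set.inter_subset_left.trans (hτT n)) hAv (fun t ht => ht.2)
  rw [dist_zero_right, ← hHv]
  linarith

end CLAIM

theorem t_CLAIM : S_CLAIM := by
  intro hU hCOV hREN hMOY hDEC hGRO hHN hTWO hCORE hPIG hBARG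
  intro d m T L η a hT hL hη ha hRD
  by_contra hcon
  push Not at hcon
  have key : ∀ n : ℕ, ∃ (p q : E d) (v : 𝓢(E d, ℂ)), (∀ x k, ‖V v x k‖ ≤ nz x k ^ m) ∧
      1 / 2 ≤ ‖V v 0 0‖ ∧
      ∀ x k, obs T a p q v x k ≤ (1 / ((n + 1 : ℕ) : ℝ)) ^ 2 * nz x k ^ (2 * m) := by
    intro n
    obtain ⟨u, x₀, k₀, S, hS, hobs, x, k, hxk⟩ := hcon (n + 1) (Nat.succ_pos n)
    exact CLAIM.renorm hU hCOV hREN hDEC m T a (Nat.succ_pos n) u x₀ k₀ S hS hobs ⟨x, k, hxk⟩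
  choose p q v hv hv0 hobs using key
  obtain ⟨P, r, τ₀, hr, hτ₀, hP⟩ := hPIG d T L η a hT hL hη ha hRD
  choose c hcP τ hτm hτT hτv hτb using fun n : ℕ => hP (p n) (q n)
  obtain ⟨p₀, hp₀⟩ : ∃ p₀, ∃ᶠ n in atTop, c n = p₀ := by
    by_contra hno
    push Not at hno
    have h1 : ∀ᶠ n in atTop, ∀ p₀ ∈ P, ¬ c n = p₀ := by
      rw [Finset.eventually_all]
      intro p₀ _
      exact hno p₀
    obtain ⟨n, hn⟩ := h1.exists
    exact hn (c n) (hcP n) rfl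
  obtain ⟨φ, hφ, hφc⟩ := extraction_of_frequently_atTop hp₀
  have hε : Tendsto (fun n : ℕ => 1 / ((φ n + 1 : ℕ) : ℝ)) atTop (𝓝 0) := by
    have h1 : Tendsto (fun n : ℕ => 1 / ((n + 1 : ℕ) : ℝ)) atTop (𝓝 0) := by
      have := tendsto_one_div_add_atTop_nhds_zero_nat (𝕜 := ℝ)
      simpa using this
    exact h1.comp hφ.tendsto_atTop
  have hlim := hBARG d m p₀ r (fun n => v (φ n)) hr (fun n => hv (φ n)) (fun θ hθ hθr =>
    CLAIM.weak hU hCOV hMOY hDEC hGRO hHN hTWO hCORE m T (η / 2) τ₀ r a hT (by positivity) hτ₀ ha p₀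
      (fun n => p (φ n)) (fun n => q (φ n)) (fun n => v (φ n)) (fun n => 1 / ((φ n + 1 : ℕ) : ℝ))
      (fun n => by positivity) hε (fun n => τ (φ n)) (fun n => hv (φ n)) (fun n => hobs (φ n))
      (fun n => hτm (φ n)) (fun n => hτT (φ n)) (fun n => hτv (φ n))
      (fun n t ht y hy => hτb (φ n) t ht y (by rw [hφc n]; exact hy)) θ hθ hθr)
  have h1 := hlim.norm
  rw [norm_zero] at h1
  have h2 := ge_of_tendsto' h1 fun n => hv0 (φ n)
  norm_num at h2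

end

end Pool.Agent.Q73.SO
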