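import Pool.Agent.Q198.SO.Bas

/-!
# Smallness of the pairing (job SO-10)
-/

set_option autoImplicit false
open MeasureTheory Filter Topology Complex
open scoped ContDiff FourierTransform SchwartzMap ComplexConjugate

namespace Pool.Agent.Q73.SO

noncomputable section

namespace CORE

open Pool.Agent.Q198.SO MOY DEC

variable {d : ℕ}

/-! ### The function `1/s` -/

/-- the cut-off -/
def cut (η s : ℝ) : ℝ := Real.smoothTransition ((2 * s - η) / η)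

/-- a positive smooth function, equal to `s` for `s ≥ η` -/
def den (η s : ℝ) : ℝ := s * cut η s + (1 - cut η s)

lemma den_pos {η : ℝ} (hη : 0 < η) (s : ℝ) : 0 < den η s := by
  unfold den
  by_cases h : s ≤ η / 2
  · have h1 : cut η s = 0 := by
      unfold cut
      apply Real.smoothTransition.zero_of_nonpos
      apply div_nonpos_of_nonpos_of_nonneg _ hη.le
      linarith
    rw [h1]
    norm_num
  · push Not at h
    have hs : 0 < s := by linarith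
    have h1 : 0 ≤ cut η s := Real.smoothTransition.nonneg _
    have h2 : cut η s ≤ 1 := Real.smoothTransition.le_one _
    rcases h1.eq_or_lt with h3 | h3
    · rw [← h3]
      norm_num
    · have : 0 < s * cut η s := by positivity
      linarith

lemma den_eq {η : ℝ} (hη : 0 < η) {s : ℝ} (hs : η ≤ s) : den η s = s := by
  unfold den
  have h1 : cut η s = 1 := by
    unfold cut
    apply Real.smoothTransition.one_of_one_le
    rw [le_div_iff₀ hη]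
    linarith
  rw [h1]
  ring

lemma den_smooth (η : ℝ) : ContDiff ℝ ∞ (den η) := by
  have h1 : ContDiff ℝ ∞ (cut η) := by
    unfold cut
    refine Real.smoothTransition.contDiff.comp ?_
    fun_prop
  unfold den
  exact (contDiff_id.mul h1).add (contDiff_const.sub h1)

/-- smooth, `1/s` for `s ≥ η` -/
def inv1 (η s : ℝ) : ℝ := (den η s)⁻¹

lemma inv1_smooth {η : ℝ} (hη : 0 < η) : ContDiff ℝ ∞ (inv1 η) := by
  unfold inv1
  exact (den_smooth η).inv fun s => (den_pos hη s).ne'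

/-- bounded derivatives of the composition -/
lemma G_bound {η : ℝ} (hη : 0 < η) {a : E d → ℝ} (ha : Bd a) (n : ℕ) :
    ∃ B : ℝ, 0 ≤ B ∧ ∀ x, ‖iteratedFDeriv ℝ n (inv1 η ∘ a) x‖ ≤ B := by
  have hF : ∀ i : ℕ, ∃ C : ℝ, ∀ s ∈ Set.Icc (0 : ℝ) 1, ‖iteratedFDeriv ℝ i (inv1 η) s‖ ≤ C := by
    intro i
    have hc : Continuous (iteratedFDeriv ℝ i (inv1 η)) :=
      (inv1_smooth hη).continuous_iteratedFDeriv (by exact_mod_cast le_top)
    exact isCompact_Icc.exists_bound_of_continuousOn hc.continuousOn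
  choose C hC using hF
  choose B hB using ha.bound
  obtain ⟨C', hC'⟩ : ∃ C' : ℝ, C' = ∑ i ∈ Finset.range (n + 1), |C i| := ⟨_, rfl⟩
  obtain ⟨D', hD'⟩ : ∃ D' : ℝ, D' = 1 + ∑ i ∈ Finset.range (n + 1), |B i| := ⟨_, rfl⟩
  have hC0 : 0 ≤ C' := by rw [hC']; positivity
  have hD0 : 1 ≤ D' := by
    rw [hD']
    have : 0 ≤ ∑ i ∈ Finset.range (n + 1), |B i| := by positivity
    linarith
  refine ⟨n.factorial * C' * D' ^ n, by positivity, fun x => ?_⟩
  refine norm_iteratedFDeriv_comp_le (𝕜 := ℝ) (N := (⊤ : ℕ∞)) (inv1_smooth hη) ha.smooth (by exact_mod_cast le_top) x ?_ ?_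
  · intro i hi
    have h1 := hC i (a x) ⟨ha.nonneg x, ha.le_one x⟩
    have h2 : |C i| ≤ C' := by
      rw [hC']
      exact Finset.single_le_sum (f := fun i => |C i|) (fun j _ => abs_nonneg _) (Finset.mem_range.2 (by omega))
    exact h1.trans ((le_abs_self _).trans h2)
  · intro i hi1 hi2
    have h1 := hB i x
    have h2 : |B i| ≤ ∑ i ∈ Finset.range (n + 1), |B i| :=
      Finset.single_le_sum (f := fun i => |B i|) (fun j _ => abs_nonneg _) (Finset.mem_range.2 (by omega))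
    have h3 : B i ≤ D' := by
      rw [hD']
      have := le_abs_self (B i)
      linarith
    exact (h1.trans h3).trans (le_self_pow₀ hD0 (by omega))

/-- the multiplier -/
def Gm (η : ℝ) (a : E d → ℝ) (w : E d) (y : E d) : ℂ := (((inv1 η ∘ a) (y + w) : ℝ) : ℂ)

lemma Gm_norm {η : ℝ} (hη : 0 < η) {a : E d → ℝ} (ha : Bd a) (w : E d) (n : ℕ) (y : E d) :
    ‖iteratedFDeriv ℝ n (Gm η a w) y‖ = ‖iteratedFDeriv ℝ n (inv1 η ∘ a) (y + w)‖ := by
  have hsm : ContDiff ℝ ∞ (inv1 η ∘ a) := (inv1_smooth hη).comp ha.smooth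
  have h1 : Gm η a w = Complex.ofRealLI ∘ (fun y => (inv1 η ∘ a) (y + w)) := by
    funext y
    rfl
  have h2 : ContDiff ℝ ∞ (fun y => (inv1 η ∘ a) (y + w)) := hsm.comp (contDiff_id.add contDiff_const)
  rw [h1, LinearIsometry.norm_iteratedFDeriv_comp_left (n := (⊤ : ℕ∞)) _ h2.contDiffAt (by exact_mod_cast le_top),
    iteratedFDeriv_comp_add_right]

lemma Gm_temp {η : ℝ} (hη : 0 < η) {a : E d → ℝ} (ha : Bd a) (w : E d) : Function.HasTemperateGrowth (Gm η a w) := by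
  have hsm : ContDiff ℝ ∞ (inv1 η ∘ a) := (inv1_smooth hη).comp ha.smooth
  refine ⟨Complex.ofRealCLM.contDiff.comp (hsm.comp (contDiff_id.add contDiff_const)), fun n => ?_⟩
  obtain ⟨B, _, hB⟩ := G_bound hη ha n
  refine ⟨0, B, fun y => ?_⟩
  rw [pow_zero, mul_one, Gm_norm hη ha]
  exact hB _

/-- the auxiliary test function -/
def psi (η : ℝ) (a : E d → ℝ) (w : E d) (θ : 𝓢(E d, ℂ)) : 𝓢(E d, ℂ) := SchwartzMap.smulLeftCLM ℂ (Gm η a w) θ

lemma psi_apply {η : ℝ} (hη : 0 < η) {a : E d → ℝ} (ha : Bd a) (w : E d) (θ : 𝓢(E d, ℂ)) (y : E d) :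
    psi η a w θ y = Gm η a w y * θ y := by
  unfold psi
  rw [SchwartzMap.smulLeftCLM_apply_apply (Gm_temp hη ha w), smul_eq_mul]

lemma psi_mul {η : ℝ} (hη : 0 < η) {a : E d → ℝ} (ha : Bd a) (w : E d) (θ : 𝓢(E d, ℂ))
    (hw : ∀ y ∈ tsupport θ, η ≤ a (y + w)) (y : E d) : (a (y + w) : ℂ) * psi η a w θ y = θ y := by
  rw [psi_apply hη ha]
  by_cases hy : y ∈ tsupport θ
  · have h1 := hw y hy
    have h2 : Gm η a w y = (a (y + w) : ℂ)⁻¹ := by
      unfold Gm inv1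
      simp only [Function.comp_apply]
      rw [den_eq hη h1]
      push_cast
      rfl
    have h3 : (a (y + w) : ℂ) ≠ 0 := by
      have : a (y + w) ≠ 0 := by linarith
      exact_mod_cast this
    rw [h2, ← mul_assoc, mul_inv_cancel₀ h3, one_mul]
  · have h1 : θ y = 0 := image_eq_zero_of_notMem_tsupport hy
    rw [h1]
    simp

lemma psi_sem {η : ℝ} (hη : 0 < η) {a : E d → ℝ} (ha : Bd a) (θ : 𝓢(E d, ℂ)) (K : ℕ) :
    ∃ C : ℝ, 0 ≤ C ∧ ∀ w : E d, PK K (psi η a w θ) ≤ C := by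
  choose B hB0 hB using fun n => G_bound hη ha n
  obtain ⟨S, hS⟩ : ∃ S : ℝ, S = ∑ i ∈ Finset.range (K + 1), B i := ⟨_, rfl⟩
  have hS0 : 0 ≤ S := by rw [hS]; exact Finset.sum_nonneg fun i _ => hB0 i
  have hSi : ∀ i ≤ K, B i ≤ S := by
    intro i hi
    rw [hS]
    exact Finset.single_le_sum (f := B) (fun j _ => hB0 j) (Finset.mem_range.2 (by omega))
  have hP := PK_nonneg K θ
  refine ⟨2 ^ K * S * (2 ^ K * PK K θ), by positivity, fun w => ?_⟩
  apply Seminorm.finset_sup_apply_le (by positivity)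
  intro i hi
  rw [Finset.mem_Iic] at hi
  have hi1 : i.1 ≤ K := hi.1
  have hi2 : i.2 ≤ K := hi.2
  show SchwartzMap.seminorm ℝ i.1 i.2 (psi η a w θ) ≤ _
  apply SchwartzMap.seminorm_le_bound _ _ _ _ (by positivity)
  intro y
  have h1 : (psi η a w θ : E d → ℂ) = fun y => Gm η a w y * θ y := by
    funext y
    exact psi_apply hη ha w θ y
  rw [h1]
  have h2 := norm_iteratedFDeriv_mul_le (𝕜 := ℝ) (N := (⊤ : ℕ∞)) (n := i.2)
    (Gm_temp hη ha w).1 (θ.smooth ⊤) y (by exact_mod_cast le_top)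
  calc ‖y‖ ^ i.1 * ‖iteratedFDeriv ℝ i.2 (fun y => Gm η a w y * θ y) y‖
      ≤ (1 + ‖y‖) ^ i.1 * ∑ j ∈ Finset.range (i.2 + 1), (i.2.choose j : ℝ) *
        ‖iteratedFDeriv ℝ j (Gm η a w) y‖ * ‖iteratedFDeriv ℝ (i.2 - j) θ y‖ := by
        gcongr
        linarith
    _ = ∑ j ∈ Finset.range (i.2 + 1), (i.2.choose j : ℝ) *
        ‖iteratedFDeriv ℝ j (Gm η a w) y‖ * ((1 + ‖y‖) ^ i.1 * ‖iteratedFDeriv ℝ (i.2 - j) θ y‖) := by
        rw [Finset.mul_sum]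
        apply Finset.sum_congr rfl
        intro j _
        ring
    _ ≤ ∑ j ∈ Finset.range (i.2 + 1), (i.2.choose j : ℝ) * S * (2 ^ K * PK K θ) := by
        apply Finset.sum_le_sum
        intro j hj
        rw [Finset.mem_range] at hj
        have e1 : ‖iteratedFDeriv ℝ j (Gm η a w) y‖ ≤ S := by
          rw [Gm_norm hη ha]
          exact (hB j _).trans (hSi j (by omega))
        have e2 := pt (k := i.1) (n := i.2 - j) (K := K) hi1 (by omega) θ y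
        gcongr
    _ = 2 ^ i.2 * S * (2 ^ K * PK K θ) := by
        rw [← Finset.sum_mul, ← Finset.sum_mul]
        have h3 : ∑ j ∈ Finset.range (i.2 + 1), ((i.2.choose j : ℕ) : ℝ) = 2 ^ i.2 := by
          exact_mod_cast Nat.sum_range_choose i.2
        rw [h3]
    _ ≤ 2 ^ K * S * (2 ^ K * PK K θ) := by
        gcongr
        norm_num

/-! ### The pairing -/

lemma pr_cont (v θ : 𝓢(E d, ℂ)) : Continuous (fun t : ℝ => pr (U t v) θ) := by
  unfold pr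
  refine continuous_of_dominated (bound := fun y => (∫ ξ, ‖𝓕 v ξ‖) * ‖θ y‖) ?_ ?_ (θ.integrable.norm.const_mul _) ?_
  · intro t
    exact ((U t v).continuous.mul (Complex.continuous_conj.comp θ.continuous)).aestronglyMeasurable
  · intro t
    refine Eventually.of_forall fun y => ?_
    rw [norm_mul, RCLike.norm_conj]
    exact mul_le_mul_of_nonneg_right (U_bd v t y) (norm_nonneg _)
  · refine Eventually.of_forall fun y => ?_
    have h1 : Continuous (fun t : ℝ => U t v y) :=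
      Continuous.comp (g := fun z : ℝ × E d => U z.1 v z.2) (f := fun t : ℝ => ((t, y) : ℝ × E d)) (U_cont v)
        (continuous_id.prodMk continuous_const)
    exact h1.mul continuous_const

lemma pr_psi {η : ℝ} (hη : 0 < η) {a : E d → ℝ} (ha : Bd a) (w : E d) (t : ℝ) (v θ : 𝓢(E d, ℂ))
    (hw : ∀ y ∈ tsupport θ, η ≤ a (y + w)) : pr (U t v) θ = pr (BU a w t v) (psi η a w θ) := by
  unfold pr
  congr 1
  funext y
  rw [BU_apply ha, ← psi_mul hη ha w θ hw y, map_mul, conj_ofReal]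
  ring

/-- the product of the observation and the weight is integrable -/
lemma ob_prod_int {a : E d → ℝ} (ha : Bd a) (p q : E d) (v : 𝓢(E d, ℂ)) (T : ℝ) {N : ℕ} (hN : 2 * d + 1 ≤ N) :
    Integrable (fun s : ℝ × (E d × E d) => ob a p q v s.1 s.2 * (nz s.2.1 s.2.2 ^ N)⁻¹)
      ((volume.restrict (Set.Icc 0 T)).prod (volume.prod volume)) := by
  have hfin : IsFiniteMeasure (volume.restrict (Set.Icc (0 : ℝ) T)) :=
    ⟨by rw [Measure.restrict_apply_univ, Real.volume_Icc]; exact ENNReal.ofReal_lt_top⟩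
  have h1 : Integrable (fun s : ℝ × (E d × E d) => (nz s.2.1 s.2.2 ^ N)⁻¹)
      ((volume.restrict (Set.Icc 0 T)).prod (volume.prod volume)) := (nz_int hN).comp_snd _
  refine Integrable.mono (h1.const_mul (((∫ ξ, ‖𝓕 v ξ‖) * ∫ y : E d, gg y) ^ 2)) ?_ ?_
  · refine Continuous.aestronglyMeasurable ?_
    refine (ob_cont ha p q v).mul ?_
    refine Continuous.inv₀ ((nz_cont.comp continuous_snd).pow N) fun s => (pow_pos (nz_pos _ _) N).ne'
  · refine Eventually.of_forall fun s => ?_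
    have h2 : 0 ≤ (nz s.2.1 s.2.2 ^ N)⁻¹ := inv_nonneg.2 (pow_pos (nz_pos _ _) N).le
    rw [Real.norm_of_nonneg (mul_nonneg (ob_nonneg _ _ _ _ _ _) h2), Real.norm_of_nonneg (by positivity)]
    exact mul_le_mul_of_nonneg_right (ob_bd ha p q v _ _) h2

lemma Vw_int (f : 𝓢(E d, ℂ)) {N : ℕ} (hN : 2 * d + 1 ≤ N) (j : ℕ) :
    Integrable (fun z : E d × E d => ‖V f z.1 z.2‖ ^ j * (nz z.1 z.2 ^ N)⁻¹) (volume.prod volume) := by
  obtain ⟨B, hB⟩ : ∃ B : ℝ, ∀ y, ‖f y‖ ≤ B := by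
    refine ⟨SchwartzMap.seminorm ℝ 0 0 f, fun y => ?_⟩
    exact SchwartzMap.norm_le_seminorm ℝ f y
  have hB0 : 0 ≤ B := (norm_nonneg _).trans (hB 0)
  have hG : 0 ≤ ∫ y : E d, gg y := integral_nonneg gg_nonneg
  refine Integrable.mono ((nz_int hN).const_mul ((B * ∫ y : E d, gg y) ^ j)) ?_ ?_
  · refine Continuous.aestronglyMeasurable ?_
    exact ((V_cont f).norm.pow j).mul ((nz_cont.pow N).inv₀ fun s => (pow_pos (nz_pos _ _) N).ne')
  · refine Eventually.of_forall fun z => ?_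
    have h2 : 0 ≤ (nz z.1 z.2 ^ N)⁻¹ := inv_nonneg.2 (pow_pos (nz_pos _ _) N).le
    rw [Real.norm_of_nonneg (mul_nonneg (by positivity) h2), Real.norm_of_nonneg (mul_nonneg (by positivity) h2)]
    exact mul_le_mul_of_nonneg_right (pow_le_pow_left₀ (norm_nonneg _) (V_bd _ _ _ B hB) j) h2

/-- the pairing is bounded by the weighted integral of the square -/
lemma pair_bd (f h : 𝓢(E d, ℂ)) {N : ℕ} (hN : 2 * d + 1 ≤ N) {C : ℝ}
    (hh : ∀ x k, ‖V h x k‖ ≤ C * (nz x k ^ N)⁻¹) :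
    ‖pr f h‖ ^ 2 ≤ ((cg d)⁻¹ * C) ^ 2 * ((∫ z : E d × E d, (nz z.1 z.2 ^ N)⁻¹ ∂(volume.prod volume)) *
      ∫ z : E d × E d, ‖V f z.1 z.2‖ ^ 2 * (nz z.1 z.2 ^ N)⁻¹ ∂(volume.prod volume)) := by
  obtain ⟨hcg, hM⟩ := t_MOY d
  obtain ⟨_, h1, h2, _, _⟩ := hM f h
  have i1 : Integrable (fun z : E d × E d => ‖V f z.1 z.2‖ * (nz z.1 z.2 ^ N)⁻¹) (volume.prod volume) := by
    simpa using Vw_int f hN 1
  have h3 : ‖pr f h‖ = (cg d)⁻¹ * ‖∫ z : E d × E d, V f z.1 z.2 * conj (V h z.1 z.2) ∂(volume.prod volume)‖ := by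
    rw [h2, norm_mul, Complex.norm_real, Real.norm_of_nonneg hcg.le]
    field_simp
  have h4 : ‖∫ z : E d × E d, V f z.1 z.2 * conj (V h z.1 z.2) ∂(volume.prod volume)‖ ≤
      C * ∫ z : E d × E d, ‖V f z.1 z.2‖ * (nz z.1 z.2 ^ N)⁻¹ ∂(volume.prod volume) := by
    rw [← integral_const_mul]
    refine norm_integral_le_of_norm_le (i1.const_mul C) (Eventually.of_forall fun z => ?_)
    rw [norm_mul, RCLike.norm_conj]
    calc ‖V f z.1 z.2‖ * ‖V h z.1 z.2‖ ≤ ‖V f z.1 z.2‖ * (C * (nz z.1 z.2 ^ N)⁻¹) :=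
          mul_le_mul_of_nonneg_left (hh _ _) (norm_nonneg _)
      _ = _ := by ring
  have h5 := jensen (μ := volume.prod volume) (fun z : E d × E d => ‖V f z.1 z.2‖) (fun z => (nz z.1 z.2 ^ N)⁻¹)
    (fun z => inv_nonneg.2 (pow_pos (nz_pos _ _) N).le) (nz_int hN) i1 (Vw_int f hN 2)
  have hcg' : 0 ≤ (cg d)⁻¹ := inv_nonneg.2 hcg.le
  have h6 : ‖pr f h‖ ≤ (cg d)⁻¹ * C * ∫ z : E d × E d, ‖V f z.1 z.2‖ * (nz z.1 z.2 ^ N)⁻¹ ∂(volume.prod volume) := by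
    rw [h3, mul_assoc]
    exact mul_le_mul_of_nonneg_left h4 hcg'
  calc ‖pr f h‖ ^ 2 ≤ ((cg d)⁻¹ * C *
        ∫ z : E d × E d, ‖V f z.1 z.2‖ * (nz z.1 z.2 ^ N)⁻¹ ∂(volume.prod volume)) ^ 2 :=
        pow_le_pow_left₀ (norm_nonneg _) h6 2
    _ = ((cg d)⁻¹ * C) ^ 2 *
        (∫ z : E d × E d, ‖V f z.1 z.2‖ * (nz z.1 z.2 ^ N)⁻¹ ∂(volume.prod volume)) ^ 2 := by rw [mul_pow]
    _ ≤ _ := mul_le_mul_of_nonneg_left h5 (sq_nonneg _)

/-- the change of variables -/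
lemma chg (f : 𝓢(E d, ℂ)) {N : ℕ} (hN : 2 * d + 1 ≤ N) {c T : ℝ} (hc : |c| ≤ T) :
    ∫ z : E d × E d, ‖V f z.1 z.2‖ ^ 2 * (nz z.1 z.2 ^ N)⁻¹ ∂(volume.prod volume) ≤
    (1 + T) ^ N * ∫ z : E d × E d, ‖V f (sh c z).1 (sh c z).2‖ ^ 2 * (nz z.1 z.2 ^ N)⁻¹ ∂(volume.prod volume) := by
  have hT : 0 ≤ T := (abs_nonneg c).trans hc
  rw [← sh_integral c (fun z => ‖V f z.1 z.2‖ ^ 2 * (nz z.1 z.2 ^ N)⁻¹), ← integral_const_mul]
  obtain ⟨B, hB⟩ : ∃ B : ℝ, ∀ y, ‖f y‖ ≤ B := by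
    refine ⟨SchwartzMap.seminorm ℝ 0 0 f, fun y => ?_⟩
    exact SchwartzMap.norm_le_seminorm ℝ f y
  have hB0 : 0 ≤ B := (norm_nonneg _).trans (hB 0)
  have hG : 0 ≤ ∫ y : E d, gg y := integral_nonneg gg_nonneg
  have hint : Integrable (fun z : E d × E d => ‖V f (sh c z).1 (sh c z).2‖ ^ 2 * (nz z.1 z.2 ^ N)⁻¹)
      (volume.prod volume) := by
    refine Integrable.mono ((nz_int hN).const_mul ((B * ∫ y : E d, gg y) ^ 2)) ?_ ?_
    · refine Continuous.aestronglyMeasurable ?_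
      exact (((V_cont f).comp (sh c).continuous).norm.pow 2).mul
        ((nz_cont.pow N).inv₀ fun s => (pow_pos (nz_pos _ _) N).ne')
    · refine Eventually.of_forall fun z => ?_
      have h2 : 0 ≤ (nz z.1 z.2 ^ N)⁻¹ := inv_nonneg.2 (pow_pos (nz_pos _ _) N).le
      rw [Real.norm_of_nonneg (mul_nonneg (by positivity) h2), Real.norm_of_nonneg (mul_nonneg (by positivity) h2)]
      exact mul_le_mul_of_nonneg_right (pow_le_pow_left₀ (norm_nonneg _) (V_bd _ _ _ B hB) 2) h2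
  refine integral_mono (sh_integrable c (Vw_int f hN 2)) (hint.const_mul _) fun z => ?_
  simp only
  have h1 := nz_pos (sh c z).1 (sh c z).2
  have h2 := nz_pos z.1 z.2
  have h3 : nz z.1 z.2 ≤ (1 + T) * nz (sh c z).1 (sh c z).2 := by
    have h4 := nz_shear c z.1 z.2
    rw [sh_apply]
    refine h4.trans (mul_le_mul_of_nonneg_right (by linarith) (nz_pos _ _).le)
  have h5 : (nz (sh c z).1 (sh c z).2 ^ N)⁻¹ ≤ (1 + T) ^ N * (nz z.1 z.2 ^ N)⁻¹ := by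
    rw [← div_eq_mul_inv, le_div_iff₀ (pow_pos h2 N), inv_mul_le_iff₀ (pow_pos h1 N), mul_comm, ← mul_pow]
    exact pow_le_pow_left₀ h2.le h3 N
  calc ‖V f (sh c z).1 (sh c z).2‖ ^ 2 * (nz (sh c z).1 (sh c z).2 ^ N)⁻¹
      ≤ ‖V f (sh c z).1 (sh c z).2‖ ^ 2 * ((1 + T) ^ N * (nz z.1 z.2 ^ N)⁻¹) :=
        mul_le_mul_of_nonneg_left h5 (sq_nonneg _)
    _ = _ := by ring

lemma obs_icc {T : ℝ} (hT : 0 ≤ T) (a : E d → ℝ) (p q : E d) (v : 𝓢(E d, ℂ)) (z : E d × E d) :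
    obs T a p q v z.1 z.2 = ∫ t in Set.Icc 0 T, ob a p q v t z := by
  rw [obs_eq, intervalIntegral.integral_of_le hT, integral_Icc_eq_integral_Ioc]

end CORE

open Pool.Agent.Q198.SO CORE MOY DEC in
/-- smallness of the pairing -/
theorem t_CORE : S_CORE := by
  intro _ _ hD d m T η a θ hT hη ha _
  obtain ⟨N, hNe⟩ : ∃ N : ℕ, N = 2 * m + (2 * d + 1) := ⟨_, rfl⟩
  have hN : 2 * d + 1 ≤ N := by omega
  obtain ⟨C1, K, hC1, hdec⟩ := hD d N
  obtain ⟨C2, hC2, hsem⟩ := psi_sem hη ha θ K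
  obtain ⟨B, hB⟩ : ∃ B : ℝ, B = ∫ z : E d × E d, (nz z.1 z.2 ^ N)⁻¹ ∂(volume.prod volume) := ⟨_, rfl⟩
  obtain ⟨B', hB'⟩ : ∃ B' : ℝ, B' = ∫ z : E d × E d, (nz z.1 z.2 ^ (2 * d + 1))⁻¹ ∂(volume.prod volume) := ⟨_, rfl⟩
  have hB0 : 0 ≤ B := by
    rw [hB]
    exact integral_nonneg fun z => inv_nonneg.2 (pow_pos (nz_pos _ _) N).le
  have hB'0 : 0 ≤ B' := by
    rw [hB']
    exact integral_nonneg fun z => inv_nonneg.2 (pow_pos (nz_pos _ _) _).le
  obtain ⟨C4, hC4⟩ : ∃ C4 : ℝ, C4 = ((cg d)⁻¹ * (C1 * C2)) ^ 2 * (B * (1 + 4 * Real.pi * T) ^ N) := ⟨_, rfl⟩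
  have hpi := Real.pi_pos
  have hC40 : 0 ≤ C4 := by
    rw [hC4]
    positivity
  refine ⟨C4 * B' + 1, by positivity, ?_⟩
  intro p q v ε τ _ hτm hτ hobs hbig
  have hcont : Continuous (fun t : ℝ => ‖pr (U t v) θ‖ ^ 2) := (pr_cont v θ).norm.pow 2
  have hion : IntegrableOn (fun t : ℝ => ‖pr (U t v) θ‖ ^ 2) (Set.Icc 0 T) :=
    hcont.continuousOn.integrableOn_compact isCompact_Icc
  refine ⟨hion.mono_set hτ, ?_⟩
  have hprod := ob_prod_int ha p q v T hN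
  have hF : Integrable (fun t => ∫ z : E d × E d, ob a p q v t z * (nz z.1 z.2 ^ N)⁻¹ ∂(volume.prod volume))
      (volume.restrict (Set.Icc 0 T)) := hprod.integral_prod_left
  have hF0 : ∀ t, 0 ≤ ∫ z : E d × E d, ob a p q v t z * (nz z.1 z.2 ^ N)⁻¹ ∂(volume.prod volume) :=
    fun t => integral_nonneg fun z => mul_nonneg (ob_nonneg _ _ _ _ _ _) (inv_nonneg.2 (pow_pos (nz_pos _ _) N).le)
  have hpt : ∀ t ∈ τ, ‖pr (U t v) θ‖ ^ 2 ≤
      C4 * ∫ z : E d × E d, ob a p q v t z * (nz z.1 z.2 ^ N)⁻¹ ∂(volume.prod volume) := by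
    intro t ht
    have ht' := hτ ht
    have hw : ∀ y ∈ tsupport θ, η ≤ a (y + (p - (4 * Real.pi * t) • q)) := by
      intro y hy
      rw [← add_sub_assoc]
      exact hbig t ht y hy
    rw [pr_psi hη ha _ t v θ hw]
    have hh : ∀ x k, ‖V (psi η a (p - (4 * Real.pi * t) • q) θ) x k‖ ≤ (C1 * C2) * (nz x k ^ N)⁻¹ := by
      intro x k
      have h1 := hdec (psi η a (p - (4 * Real.pi * t) • q) θ) x k
      have h2 := hsem (p - (4 * Real.pi * t) • q)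
      rw [← div_eq_mul_inv, le_div_iff₀ (pow_pos (nz_pos _ _) N), mul_comm]
      exact h1.trans (mul_le_mul_of_nonneg_left h2 hC1.le)
    have h3 := pair_bd (BU a (p - (4 * Real.pi * t) • q) t v) (psi η a (p - (4 * Real.pi * t) • q) θ) hN
      hh
    have hc : |4 * Real.pi * t| ≤ 4 * Real.pi * T := by
      rw [abs_of_nonneg (mul_nonneg (by positivity) ht'.1)]
      exact mul_le_mul_of_nonneg_left ht'.2 (by positivity)
    have h4 := chg (BU a (p - (4 * Real.pi * t) • q) t v) hN hc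
    have h5 : ∫ z : E d × E d, ‖V (BU a (p - (4 * Real.pi * t) • q) t v) (sh (4 * Real.pi * t) z).1
        (sh (4 * Real.pi * t) z).2‖ ^ 2 * (nz z.1 z.2 ^ N)⁻¹ ∂(volume.prod volume) =
        ∫ z : E d × E d, ob a p q v t z * (nz z.1 z.2 ^ N)⁻¹ ∂(volume.prod volume) := by
      congr 1
      funext z
      rw [ob_BU ha]
    rw [h5] at h4
    rw [← hB] at h3
    refine h3.trans ?_
    rw [hC4]
    calc ((cg d)⁻¹ * (C1 * C2)) ^ 2 * (B * ∫ z : E d × E d,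
          ‖V (BU a (p - (4 * Real.pi * t) • q) t v) z.1 z.2‖ ^ 2 * (nz z.1 z.2 ^ N)⁻¹ ∂(volume.prod volume))
        ≤ ((cg d)⁻¹ * (C1 * C2)) ^ 2 * (B * ((1 + 4 * Real.pi * T) ^ N *
          ∫ z : E d × E d, ob a p q v t z * (nz z.1 z.2 ^ N)⁻¹ ∂(volume.prod volume))) :=
          mul_le_mul_of_nonneg_left (mul_le_mul_of_nonneg_left h4 hB0) (sq_nonneg _)
      _ = _ := by ring
  have hA : ∫ t in τ, ‖pr (U t v) θ‖ ^ 2 ≤
      ∫ t in τ, C4 * ∫ z : E d × E d, ob a p q v t z * (nz z.1 z.2 ^ N)⁻¹ ∂(volume.prod volume) :=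
    setIntegral_mono_on (hion.mono_set hτ) ((IntegrableOn.mono_set hF hτ).const_mul C4) hτm hpt
  have hBd : ∫ t in τ, C4 * ∫ z : E d × E d, ob a p q v t z * (nz z.1 z.2 ^ N)⁻¹ ∂(volume.prod volume) ≤
      ∫ t in Set.Icc 0 T, C4 * ∫ z : E d × E d, ob a p q v t z * (nz z.1 z.2 ^ N)⁻¹ ∂(volume.prod volume) := by
    refine setIntegral_mono_set (hF.const_mul C4) (Eventually.of_forall fun t => ?_) ?_
    · exact mul_nonneg hC40 (hF0 t)
    · exact LE.le.eventuallyLE hτ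
  have hsw : ∫ t in Set.Icc 0 T, ∫ z : E d × E d, ob a p q v t z * (nz z.1 z.2 ^ N)⁻¹ ∂(volume.prod volume) =
      ∫ z : E d × E d, (∫ t in Set.Icc 0 T, ob a p q v t z * (nz z.1 z.2 ^ N)⁻¹) ∂(volume.prod volume) :=
    integral_integral_swap hprod
  have hint2 : Integrable (fun z : E d × E d => ∫ t in Set.Icc 0 T, ob a p q v t z * (nz z.1 z.2 ^ N)⁻¹)
      (volume.prod volume) := hprod.integral_prod_right
  have hfin : ∫ z : E d × E d, (∫ t in Set.Icc 0 T, ob a p q v t z * (nz z.1 z.2 ^ N)⁻¹) ∂(volume.prod volume) ≤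
      ∫ z : E d × E d, ε ^ 2 * (nz z.1 z.2 ^ (2 * d + 1))⁻¹ ∂(volume.prod volume) := by
    refine integral_mono hint2 ((nz_int le_rfl).const_mul _) fun z => ?_
    have e1 : ∫ t in Set.Icc 0 T, ob a p q v t z * (nz z.1 z.2 ^ N)⁻¹ = obs T a p q v z.1 z.2 * (nz z.1 z.2 ^ N)⁻¹ := by
      rw [integral_mul_const, obs_icc hT.le]
    have e2 := nz_pos z.1 z.2
    have e3 : ε ^ 2 * (nz z.1 z.2 ^ (2 * d + 1))⁻¹ = ε ^ 2 * nz z.1 z.2 ^ (2 * m) * (nz z.1 z.2 ^ N)⁻¹ := by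
      rw [hNe]
      generalize nz z.1 z.2 = w at e2
      have e4 : w ^ (2 * m) * (w ^ (2 * m + (2 * d + 1)))⁻¹ = (w ^ (2 * d + 1))⁻¹ := by
        rw [pow_add, mul_inv, ← mul_assoc, mul_inv_cancel₀ (pow_pos e2 _).ne', one_mul]
      rw [mul_assoc, e4]
    simp only
    rw [e1, e3]
    exact mul_le_mul_of_nonneg_right (hobs _ _) (inv_nonneg.2 (pow_pos e2 N).le)
  rw [integral_const_mul, ← hB'] at hfin
  have hBd2 : ∫ t in Set.Icc 0 T, C4 * ∫ z : E d × E d, ob a p q v t z * (nz z.1 z.2 ^ N)⁻¹ ∂(volume.prod volume) =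
      C4 * ∫ z : E d × E d, (∫ t in Set.Icc 0 T, ob a p q v t z * (nz z.1 z.2 ^ N)⁻¹) ∂(volume.prod volume) := by
    rw [integral_const_mul, hsw]
  rw [hBd2] at hBd
  have h9 : 0 ≤ ε ^ 2 := sq_nonneg _
  calc ∫ t in τ, ‖pr (U t v) θ‖ ^ 2 ≤ C4 * ∫ z : E d × E d,
        (∫ t in Set.Icc 0 T, ob a p q v t z * (nz z.1 z.2 ^ N)⁻¹) ∂(volume.prod volume) := hA.trans hBd
    _ ≤ C4 * (ε ^ 2 * B') := mul_le_mul_of_nonneg_left hfin hC40
    _ ≤ (C4 * B' + 1) * ε ^ 2 := by nlinarith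

end

end Pool.Agent.Q73.SO
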