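import Pool.Agent.Q73.SO.MOY

/-!
# Decay of the short time Fourier transform (job SO-6)
-/

set_option autoImplicit false
open MeasureTheory Filter Topology Complex
open scoped ContDiff FourierTransform SchwartzMap ComplexConjugate

namespace Pool.Agent.Q73.SO

noncomputable section

namespace DEC

open MOY

variable {d : ℕ}

/-- the seminorm -/
abbrev PK (K : ℕ) (χ : 𝓢(E d, ℂ)) : ℝ := ((Finset.Iic (K, K)).sup (schwartzSeminormFamily ℝ (E d) ℂ)) χ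

lemma PK_nonneg (K : ℕ) (χ : 𝓢(E d, ℂ)) : 0 ≤ PK K χ := apply_nonneg _ _

lemma PK_mono {K K' : ℕ} (h : K ≤ K') (χ : 𝓢(E d, ℂ)) : PK K χ ≤ PK K' χ := by
  have h1 : (Finset.Iic (K, K)).sup (schwartzSeminormFamily ℝ (E d) ℂ) ≤
      (Finset.Iic (K', K')).sup (schwartzSeminormFamily ℝ (E d) ℂ) := by
    apply Finset.sup_mono
    intro m hm
    rw [Finset.mem_Iic] at hm ⊢
    exact hm.trans (Prod.mk_le_mk.2 ⟨h, h⟩)
  exact h1 χ

/-- the weighted pointwise bound -/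
lemma pt {k n K : ℕ} (hk : k ≤ K) (hn : n ≤ K) (f : 𝓢(E d, ℂ)) (x : E d) :
    (1 + ‖x‖) ^ k * ‖iteratedFDeriv ℝ n f x‖ ≤ 2 ^ K * PK K f :=
  SchwartzMap.one_add_le_sup_seminorm_apply (𝕜 := ℝ) (m := (K, K)) hk hn f x

lemma shift_iter (x y : E d) (n : ℕ) :
    iteratedFDeriv ℝ n (SchwartzMap.compSubConstCLM ℂ x (GS d)) y = iteratedFDeriv ℝ n (GS d) (y - x) := by
  have h1 : (SchwartzMap.compSubConstCLM ℂ x (GS d) : E d → ℂ) = fun y => GS d (y - x) := by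
    funext y
    rw [SchwartzMap.compSubConstCLM_apply]
  rw [h1, iteratedFDeriv_comp_sub]

/-- one seminorm of the localised function -/
lemma one_sem (M a b : ℕ) : ∃ (C : ℝ) (K : ℕ), 0 ≤ C ∧ ∀ (χ : 𝓢(E d, ℂ)) (x : E d),
    (1 + ‖x‖) ^ M * SchwartzMap.seminorm ℝ a b (loc χ x) ≤ C * PK K χ := by
  obtain ⟨K, hK⟩ : ∃ K : ℕ, K = a + M + b := ⟨_, rfl⟩
  refine ⟨∑ i ∈ Finset.range (b + 1), (b.choose i : ℝ) * (2 ^ K * PK K (GS d)) * 2 ^ K, K, ?_, ?_⟩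
  · have := PK_nonneg K (GS d)
    positivity
  intro χ x
  have hx : 0 < (1 + ‖x‖) ^ M := by positivity
  rw [mul_comm, ← le_div_iff₀ hx]
  have hPK := PK_nonneg K (GS d)
  have hPK2 := PK_nonneg K χ
  apply SchwartzMap.seminorm_le_bound
  · positivity
  intro y
  rw [le_div_iff₀ hx]
  have h1 : (loc χ x : E d → ℂ) = fun y => (SchwartzMap.compSubConstCLM ℂ x (GS d)) y * χ y := by
    funext y
    rw [loc_apply, SchwartzMap.compSubConstCLM_apply, GS_apply]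
  rw [h1]
  have h2 := norm_iteratedFDeriv_mul_le (𝕜 := ℝ) (N := (⊤ : ℕ∞)) (n := b)
    (SchwartzMap.smooth (SchwartzMap.compSubConstCLM ℂ x (GS d)) ⊤) (χ.smooth ⊤) y (by exact_mod_cast le_top)
  have hxy : 1 + ‖x‖ ≤ (1 + ‖y - x‖) * (1 + ‖y‖) := by
    have h3 : ‖x‖ ≤ ‖y - x‖ + ‖y‖ := by
      have h4 := norm_sub_le y (y - x)
      rw [sub_sub_cancel] at h4
      linarith
    nlinarith [norm_nonneg (y - x), norm_nonneg y, mul_nonneg (norm_nonneg (y - x)) (norm_nonneg y)]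
  have hw : ‖y‖ ^ a * (1 + ‖x‖) ^ M ≤ (1 + ‖y - x‖) ^ M * (1 + ‖y‖) ^ (a + M) := by
    calc ‖y‖ ^ a * (1 + ‖x‖) ^ M ≤ (1 + ‖y‖) ^ a * ((1 + ‖y - x‖) * (1 + ‖y‖)) ^ M := by
          gcongr
          linarith
      _ = (1 + ‖y - x‖) ^ M * (1 + ‖y‖) ^ (a + M) := by
          rw [mul_pow, pow_add]
          ring
  calc ‖y‖ ^ a * ‖iteratedFDeriv ℝ b (fun y => (SchwartzMap.compSubConstCLM ℂ x (GS d)) y * χ y) y‖ * (1 + ‖x‖) ^ M
      = (‖y‖ ^ a * (1 + ‖x‖) ^ M) *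
        ‖iteratedFDeriv ℝ b (fun y => (SchwartzMap.compSubConstCLM ℂ x (GS d)) y * χ y) y‖ := by ring
    _ ≤ ((1 + ‖y - x‖) ^ M * (1 + ‖y‖) ^ (a + M)) * ∑ i ∈ Finset.range (b + 1), (b.choose i : ℝ) *
        ‖iteratedFDeriv ℝ i (SchwartzMap.compSubConstCLM ℂ x (GS d)) y‖ * ‖iteratedFDeriv ℝ (b - i) χ y‖ := by
        gcongr
    _ = ∑ i ∈ Finset.range (b + 1), (b.choose i : ℝ) *
        ((1 + ‖y - x‖) ^ M * ‖iteratedFDeriv ℝ i (GS d) (y - x)‖) *
        ((1 + ‖y‖) ^ (a + M) * ‖iteratedFDeriv ℝ (b - i) χ y‖) := by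
        rw [Finset.mul_sum]
        apply Finset.sum_congr rfl
        intro i _
        rw [shift_iter]
        ring
    _ ≤ ∑ i ∈ Finset.range (b + 1), (b.choose i : ℝ) * (2 ^ K * PK K (GS d)) * (2 ^ K * PK K χ) := by
        apply Finset.sum_le_sum
        intro i hi
        rw [Finset.mem_range] at hi
        have e1 := pt (k := M) (n := i) (K := K) (by omega) (by omega) (GS d) (y - x)
        have e2 := pt (k := a + M) (n := b - i) (K := K) (by omega) (by omega) χ y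
        gcongr
    _ = (∑ i ∈ Finset.range (b + 1), (b.choose i : ℝ) * (2 ^ K * PK K (GS d)) * 2 ^ K) * PK K χ := by
        rw [Finset.sum_mul]
        apply Finset.sum_congr rfl
        intro i _
        ring

/-- finitely many seminorms of the localised function -/
lemma fin_sem (M : ℕ) (s : Finset (ℕ × ℕ)) : ∃ (C : ℝ) (K : ℕ), 0 ≤ C ∧ ∀ (χ : 𝓢(E d, ℂ)) (x : E d),
    (1 + ‖x‖) ^ M * ∑ i ∈ s, schwartzSeminormFamily ℝ (E d) ℂ i (loc χ x) ≤ C * PK K χ := by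
  classical
  induction s using Finset.induction_on with
  | empty => exact ⟨0, 0, le_rfl, fun χ x => by simp⟩
  | insert i s hi ih =>
    obtain ⟨C1, K1, h1, h2⟩ := ih
    obtain ⟨C2, K2, h3, h4⟩ := one_sem (d := d) M i.1 i.2
    refine ⟨C1 + C2, max K1 K2, by linarith, fun χ x => ?_⟩
    rw [Finset.sum_insert hi, mul_add, add_mul, add_comm]
    apply add_le_add
    · refine (h2 χ x).trans ?_
      gcongr
      exact PK_mono (le_max_left _ _) χ
    · refine (h4 χ x).trans ?_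
      gcongr
      exact PK_mono (le_max_right _ _) χ

/-- the Fourier transform is bounded by seminorms -/
lemma four_bound (M : ℕ) : ∃ (s : Finset (ℕ × ℕ)) (C : ℝ), 0 ≤ C ∧ ∀ (F : 𝓢(E d, ℂ)) (k : E d),
    (1 + ‖k‖) ^ M * ‖𝓕 F k‖ ≤ C * ∑ i ∈ s, schwartzSeminormFamily ℝ (E d) ℂ i F := by
  obtain ⟨q, hq⟩ : ∃ q : Seminorm ℝ (𝓢(E d, ℂ)), q =
    ((Finset.Iic (M, M)).sup (schwartzSeminormFamily ℝ (E d) ℂ)).comp
      (SchwartzMap.fourierTransformCLM ℝ (V := E d) (E := ℂ)).toLinearMap := ⟨_, rfl⟩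
  have hws := schwartz_withSeminorms ℝ (E d) ℂ
  have hsupc : Continuous ⇑((Finset.Iic (M, M)).sup (schwartzSeminormFamily ℝ (E d) ℂ) : Seminorm ℝ 𝓢(E d, ℂ)) := by
    classical
    generalize Finset.Iic (M, M) = t
    induction t using Finset.induction_on with
    | empty =>
      rw [Finset.sup_empty, Seminorm.coe_bot]
      exact continuous_const
    | insert i t _ ih =>
      rw [Finset.sup_insert, Seminorm.coe_sup]
      exact (hws.continuous_seminorm i).sup ih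
  have hqc : Continuous q := by
    rw [hq]
    exact hsupc.comp (SchwartzMap.fourierTransformCLM ℝ (V := E d) (E := ℂ)).continuous
  obtain ⟨s, C, hC, hb⟩ := Seminorm.bound_of_continuous hws q hqc
  refine ⟨s, 2 ^ M * C, by positivity, fun F k => ?_⟩
  have h1 := SchwartzMap.one_add_le_sup_seminorm_apply (𝕜 := ℝ) (m := (M, M)) (k := M) (n := 0) le_rfl (Nat.zero_le _)
    (𝓕 F) k
  rw [norm_iteratedFDeriv_zero] at h1
  have h2 : q F = (Finset.Iic (M, M)).sup (schwartzSeminormFamily ℝ (E d) ℂ) (𝓕 F) := by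
    rw [hq, Seminorm.comp_apply]
    rfl
  have h3 := hb F
  have h4 := Seminorm.finset_sup_le_sum (schwartzSeminormFamily ℝ (E d) ℂ) s F
  have h5 : (∑ i ∈ s, schwartzSeminormFamily ℝ (E d) ℂ i) F = ∑ i ∈ s, schwartzSeminormFamily ℝ (E d) ℂ i F := by
    rw [← FunLike.coeAddMonoidHom_apply, map_sum, Finset.sum_apply]
    rfl
  rw [h5] at h4
  have h6 : q F ≤ C * s.sup (schwartzSeminormFamily ℝ (E d) ℂ) F := h3
  calc (1 + ‖k‖) ^ M * ‖𝓕 F k‖ ≤ 2 ^ M * q F := by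
        rw [h2]
        exact h1
    _ ≤ 2 ^ M * (C * s.sup (schwartzSeminormFamily ℝ (E d) ℂ) F) := by gcongr
    _ ≤ 2 ^ M * (C * ∑ i ∈ s, schwartzSeminormFamily ℝ (E d) ℂ i F) := by gcongr
    _ = _ := by ring

end DEC

open DEC MOY in
/-- decay of the short time Fourier transform -/
theorem t_DEC : S_DEC := by
  intro d M
  obtain ⟨s, C1, hC1, h1⟩ := four_bound (d := d) M
  obtain ⟨C2, K, hC2, h2⟩ := fin_sem (d := d) M s
  refine ⟨C1 * C2 + 1, K, by positivity, fun χ x k => ?_⟩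
  have h3 : nz x k ≤ (1 + ‖x‖) * (1 + ‖k‖) := by
    unfold nz
    nlinarith [norm_nonneg x, norm_nonneg k, mul_nonneg (norm_nonneg x) (norm_nonneg k)]
  have h0 : 0 ≤ nz x k := by
    unfold nz
    positivity
  rw [V_eq]
  have hP := PK_nonneg K χ
  calc nz x k ^ M * ‖𝓕 (loc χ x) k‖ ≤ ((1 + ‖x‖) * (1 + ‖k‖)) ^ M * ‖𝓕 (loc χ x) k‖ := by gcongr
    _ = (1 + ‖x‖) ^ M * ((1 + ‖k‖) ^ M * ‖𝓕 (loc χ x) k‖) := by rw [mul_pow]; ring
    _ ≤ (1 + ‖x‖) ^ M * (C1 * ∑ i ∈ s, schwartzSeminormFamily ℝ (E d) ℂ i (loc χ x)) :=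
        mul_le_mul_of_nonneg_left (h1 _ _) (by positivity)
    _ = C1 * ((1 + ‖x‖) ^ M * ∑ i ∈ s, schwartzSeminormFamily ℝ (E d) ℂ i (loc χ x)) := by ring
    _ ≤ C1 * (C2 * PK K χ) := mul_le_mul_of_nonneg_left (h2 χ x) hC1
    _ ≤ (C1 * C2 + 1) * PK K χ := by nlinarith

end

end Pool.Agent.Q73.SO
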