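import Pool.Agent.Q73.SO.Stm
import Pool.Agent.Q73.SO.GRO

/-!
# The holomorphic extension in time (job SO-8, helper75)
-/

set_option autoImplicit false
open MeasureTheory Filter Topology Complex
open scoped ContDiff FourierTransform SchwartzMap ComplexConjugate

namespace Pool.Agent.Q73.SO

noncomputable section

namespace HN

variable {d : ℕ}

/-- the holomorphic function -/
def HH (v θ : 𝓢(E d, ℂ)) (ζ : ℂ) : ℂ :=
  ∫ ξ : E d, cexp (4 * Real.pi ^ 2 * I * ζ * ((‖ξ‖ ^ 2 : ℝ) : ℂ)) * (𝓕 v ξ * conj (𝓕 θ ξ))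

lemma norm_exp_le {ζ : ℂ} (h : 0 ≤ ζ.im) (ξ : E d) :
    ‖cexp (4 * Real.pi ^ 2 * I * ζ * ((‖ξ‖ ^ 2 : ℝ) : ℂ))‖ ≤ 1 := by
  rw [Complex.norm_exp, Real.exp_le_one_iff]
  have h1 : (4 * (Real.pi : ℂ) ^ 2 * I * ζ * ((‖ξ‖ ^ 2 : ℝ) : ℂ)) =
      ((4 * Real.pi ^ 2 * ‖ξ‖ ^ 2 : ℝ) : ℂ) * (I * ζ) := by push_cast; ring
  rw [h1, re_ofReal_mul, I_mul_re]
  have : 0 ≤ 4 * Real.pi ^ 2 * ‖ξ‖ ^ 2 := by positivity
  nlinarith

lemma w_int (v θ : 𝓢(E d, ℂ)) : Integrable (fun ξ : E d => 𝓕 v ξ * conj (𝓕 θ ξ)) :=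
  MOY.fh_int (𝓕 v) (𝓕 θ)

lemma w_int2 (v θ : 𝓢(E d, ℂ)) :
    Integrable (fun ξ : E d => ‖ξ‖ ^ 2 * ‖𝓕 v ξ * conj (𝓕 θ ξ)‖) := by
  obtain ⟨C, hC⟩ := (𝓕 θ : 𝓢(E d, ℂ)).decay 2 0
  have h1 : Integrable (fun ξ : E d => C * ‖𝓕 v ξ‖) :=
    ((𝓕 v : 𝓢(E d, ℂ)).integrable.norm).const_mul C
  refine h1.mono' ?_ (Eventually.of_forall fun ξ => ?_)
  · exact ((continuous_norm.pow 2).aestronglyMeasurable).mul (w_int v θ).norm.aestronglyMeasurable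
  · rw [norm_mul, norm_mul, RCLike.norm_conj, Real.norm_of_nonneg (by positivity),
      Real.norm_of_nonneg (by positivity)]
    have h2 := hC.2 ξ
    rw [norm_iteratedFDeriv_zero] at h2
    calc ‖ξ‖ ^ 2 * (‖𝓕 v ξ‖ * ‖𝓕 θ ξ‖) = (‖ξ‖ ^ 2 * ‖𝓕 θ ξ‖) * ‖𝓕 v ξ‖ := by ring
      _ ≤ C * ‖𝓕 v ξ‖ := mul_le_mul_of_nonneg_right h2 (norm_nonneg _)

lemma meas (v θ : 𝓢(E d, ℂ)) (ζ : ℂ) : AEStronglyMeasurable
    (fun ξ : E d => cexp (4 * Real.pi ^ 2 * I * ζ * ((‖ξ‖ ^ 2 : ℝ) : ℂ)) *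
      (𝓕 v ξ * conj (𝓕 θ ξ))) := by
  refine AEStronglyMeasurable.mul ?_ (w_int v θ).aestronglyMeasurable
  have : Continuous fun ξ : E d => cexp (4 * Real.pi ^ 2 * I * ζ * ((‖ξ‖ ^ 2 : ℝ) : ℂ)) := by
    fun_prop
  exact this.aestronglyMeasurable

lemma integrand_le {ζ : ℂ} (h : 0 ≤ ζ.im) (v θ : 𝓢(E d, ℂ)) (ξ : E d) :
    ‖cexp (4 * Real.pi ^ 2 * I * ζ * ((‖ξ‖ ^ 2 : ℝ) : ℂ)) * (𝓕 v ξ * conj (𝓕 θ ξ))‖ ≤
      ‖𝓕 v ξ * conj (𝓕 θ ξ)‖ := by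
  rw [norm_mul]
  calc _ ≤ 1 * ‖𝓕 v ξ * conj (𝓕 θ ξ)‖ :=
        mul_le_mul_of_nonneg_right (norm_exp_le h ξ) (norm_nonneg _)
    _ = _ := one_mul _

lemma HH_contOn (v θ : 𝓢(E d, ℂ)) : ContinuousOn (HH v θ) {ζ | 0 ≤ ζ.im} := by
  refine continuousOn_of_dominated (bound := fun ξ => ‖𝓕 v ξ * conj (𝓕 θ ξ)‖)
    (fun ζ _ => meas v θ ζ) (fun ζ hζ => Eventually.of_forall fun ξ => integrand_le hζ v θ ξ)
    (w_int v θ).norm (Eventually.of_forall fun ξ => ?_)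
  have : Continuous fun ζ : ℂ => cexp (4 * Real.pi ^ 2 * I * ζ * ((‖ξ‖ ^ 2 : ℝ) : ℂ)) *
      (𝓕 v ξ * conj (𝓕 θ ξ)) := by fun_prop
  exact this.continuousOn

lemma HH_bound (v θ : 𝓢(E d, ℂ)) {ζ : ℂ} (h : 0 ≤ ζ.im) :
    ‖HH v θ ζ‖ ≤ ∫ ξ : E d, ‖𝓕 v ξ * conj (𝓕 θ ξ)‖ :=
  norm_integral_le_of_norm_le (w_int v θ).norm
    (Eventually.of_forall fun ξ => integrand_le h v θ ξ)

lemma HH_diffOn (v θ : 𝓢(E d, ℂ)) : DifferentiableOn ℂ (HH v θ) {ζ | 0 < ζ.im} := by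
  intro ζ₀ hζ₀
  have hopen : IsOpen {ζ : ℂ | 0 < ζ.im} := isOpen_lt continuous_const continuous_im
  have h1 := hasDerivAt_integral_of_dominated_loc_of_deriv_le (μ := (volume : Measure (E d)))
    (F := fun (ζ : ℂ) (ξ : E d) => cexp (4 * Real.pi ^ 2 * I * ζ * ((‖ξ‖ ^ 2 : ℝ) : ℂ)) *
      (𝓕 v ξ * conj (𝓕 θ ξ)))
    (F' := fun (ζ : ℂ) (ξ : E d) => (4 * Real.pi ^ 2 * I * ((‖ξ‖ ^ 2 : ℝ) : ℂ)) *
      (cexp (4 * Real.pi ^ 2 * I * ζ * ((‖ξ‖ ^ 2 : ℝ) : ℂ)) * (𝓕 v ξ * conj (𝓕 θ ξ))))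
    (bound := fun ξ => 4 * Real.pi ^ 2 * (‖ξ‖ ^ 2 * ‖𝓕 v ξ * conj (𝓕 θ ξ)‖))
    (s := {ζ : ℂ | 0 < ζ.im}) (x₀ := ζ₀) (hopen.mem_nhds hζ₀)
    (Eventually.of_forall fun ζ => meas v θ ζ)
    ((w_int v θ).norm.mono' (meas v θ ζ₀)
      (Eventually.of_forall fun ξ => integrand_le (le_of_lt hζ₀) v θ ξ))
    (by
      refine AEStronglyMeasurable.mul ?_ (meas v θ ζ₀)
      have : Continuous fun ξ : E d => (4 * Real.pi ^ 2 * I * ((‖ξ‖ ^ 2 : ℝ) : ℂ)) := by fun_prop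
      exact this.aestronglyMeasurable)
    (Eventually.of_forall fun ξ ζ hζ => by
      rw [norm_mul]
      have e1 : ‖(4 * (Real.pi : ℂ) ^ 2 * I * ((‖ξ‖ ^ 2 : ℝ) : ℂ))‖ = 4 * Real.pi ^ 2 * ‖ξ‖ ^ 2 := by
        have : (4 * (Real.pi : ℂ) ^ 2 * I * ((‖ξ‖ ^ 2 : ℝ) : ℂ)) =
          ((4 * Real.pi ^ 2 * ‖ξ‖ ^ 2 : ℝ) : ℂ) * I := by push_cast; ring
        rw [this, norm_mul, norm_I, mul_one, Complex.norm_real, Real.norm_of_nonneg (by positivity)]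
      rw [e1, mul_assoc (4 * Real.pi ^ 2)]
      refine mul_le_mul_of_nonneg_left ?_ (by positivity)
      exact mul_le_mul_of_nonneg_left (integrand_le (le_of_lt hζ) v θ ξ) (by positivity))
    ((w_int2 v θ).const_mul _)
    (Eventually.of_forall fun ξ ζ _ => by
      have h2 : HasDerivAt (fun ζ : ℂ => 4 * (Real.pi : ℂ) ^ 2 * I * ζ * ((‖ξ‖ ^ 2 : ℝ) : ℂ))
          (4 * (Real.pi : ℂ) ^ 2 * I * ((‖ξ‖ ^ 2 : ℝ) : ℂ)) ζ := by
        have := ((hasDerivAt_id ζ).const_mul (4 * (Real.pi : ℂ) ^ 2 * I)).mul_const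
          ((‖ξ‖ ^ 2 : ℝ) : ℂ)
        simpa using this
      have h3 := (h2.cexp).mul_const (𝓕 v ξ * conj (𝓕 θ ξ))
      refine h3.congr_deriv ?_
      ring)
  exact h1.2.differentiableAt.differentiableWithinAt

lemma HH_dco (v θ : 𝓢(E d, ℂ)) : DiffContOnCl ℂ (HH v θ) {ζ | 0 < ζ.im} := by
  refine ⟨HH_diffOn v θ, ?_⟩
  rw [Complex.closure_setOf_lt_im]
  exact HH_contOn v θ

lemma HH_real (hU : S_U) (v θ : 𝓢(E d, ℂ)) (t : ℝ) : HH v θ t = pr (U t v) θ := by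
  rw [(hU d).2.2.2.2.1]
  unfold HH pr
  congr 1
  funext ξ
  rw [(hU d).2.2.1, ← mul_assoc]
  congr 2
  unfold sym
  congr 1
  push_cast
  ring

lemma W_zero (hU : S_U) (f : 𝓢(E d, ℂ)) : W 0 0 f = f := by
  ext y
  rw [(hU d).2.2.2.1]
  unfold chr
  simp

/-- The Schwartz function with Fourier transform `gg * 𝓕 v`. -/
def Fv (v : 𝓢(E d, ℂ)) : 𝓢(E d, ℂ) := 𝓕⁻ (SchwartzMap.smulLeftCLM ℂ (MOY.GS d) (𝓕 v))

lemma fourier_Fv (v : 𝓢(E d, ℂ)) (ξ : E d) : 𝓕 (Fv v) ξ = (gg ξ : ℂ) * 𝓕 v ξ := by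
  have h1 : 𝓕 (Fv v) = SchwartzMap.smulLeftCLM ℂ (MOY.GS d) (𝓕 v) := by
    unfold Fv
    simp
  rw [h1, SchwartzMap.smulLeftCLM_apply_apply (SchwartzMap.hasTemperateGrowth _), MOY.GS_apply,
    smul_eq_mul]

lemma Fv_apply (hU : S_U) (v : 𝓢(E d, ℂ)) (y : E d) : Fv v y = V v y 0 := by
  have h1 : Fv v y = ∫ ξ : E d, chr ξ y * ((gg ξ : ℂ) * 𝓕 v ξ) := by
    have h2 : Fv v y = 𝓕⁻ (SchwartzMap.smulLeftCLM ℂ (MOY.GS d) (𝓕 v) : E d → ℂ) y := by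
      unfold Fv
      rw [SchwartzMap.fourierInv_coe]
    rw [h2, Real.fourierInv_eq']
    congr 1
    funext ξ
    rw [SchwartzMap.smulLeftCLM_apply_apply (SchwartzMap.hasTemperateGrowth _), MOY.GS_apply,
      smul_eq_mul, smul_eq_mul]
    rfl
  rw [h1, GRO.V_eq_pr hU, (hU d).2.2.2.2.1]
  unfold pr
  congr 1
  funext ξ
  rw [COV.fourier_W hU, GRO.fourier_G, sub_zero, map_mul, Complex.conj_conj, conj_ofReal]
  ring

lemma HH_value (hU : S_U) (v θ : 𝓢(E d, ℂ)) :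
    HH v θ (I / (4 * Real.pi)) = ∫ y, V v y 0 * conj (θ y) := by
  have h1 : (∫ y, V v y 0 * conj (θ y)) = pr (Fv v) θ := by
    unfold pr
    congr 1
    funext y
    rw [Fv_apply hU]
  rw [h1, (hU d).2.2.2.2.1]
  unfold HH pr
  congr 1
  funext ξ
  rw [fourier_Fv, ← mul_assoc]
  congr 2
  unfold gg
  push_cast
  congr 1
  have hpi : (Real.pi : ℂ) ≠ 0 := by exact_mod_cast Real.pi_ne_zero
  field_simp
  rw [I_sq]
  ring

/-- Phragmén-Lindelöf in the upper half plane, with polynomial growth on the real axis. -/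
lemma phragmen {h : ℂ → ℂ} (hd : DiffContOnCl ℂ h {ζ | 0 < ζ.im}) {M : ℝ}
    (hM : ∀ ζ : ℂ, 0 ≤ ζ.im → ‖h ζ‖ ≤ M) {C : ℝ} (hC : 0 ≤ C) (K : ℕ)
    (hreal : ∀ t : ℝ, ‖h t‖ ≤ C * (1 + |t|) ^ K) {ζ : ℂ} (hζ : 0 ≤ ζ.im) :
    ‖h ζ‖ ≤ C * 2 ^ K * (1 + ‖ζ‖) ^ K := by
  have hM0 : 0 ≤ M := (norm_nonneg _).trans (hM 0 (by simp))
  have hlow : ∀ z : ℂ, 0 ≤ z.re → 1 ≤ ‖I * z + I‖ := by
    intro z hz
    have : I * z + I = I * (z + 1) := by ring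
    rw [this, norm_mul, norm_I, one_mul]
    calc (1 : ℝ) ≤ (z + 1).re := by simp [hz]
      _ ≤ ‖z + 1‖ := re_le_norm _
  have hcl : closure {z : ℂ | 0 < z.re} = {z : ℂ | 0 ≤ z.re} := Complex.closure_setOf_lt_re 0
  have hlin : DiffContOnCl ℂ (fun z : ℂ => I * z + I) {z | 0 < z.re} :=
    Differentiable.diffContOnCl (by fun_prop)
  have hf : DiffContOnCl ℂ (fun z : ℂ => (h (I * z)) * ((I * z + I) ^ K)⁻¹) {z | 0 < z.re} := by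
    have h1 : DiffContOnCl ℂ (fun z : ℂ => h (I * z)) {z | 0 < z.re} := by
      have h0 : DiffContOnCl ℂ (fun z : ℂ => I * z) {z | 0 < z.re} :=
        Differentiable.diffContOnCl (by fun_prop)
      refine hd.comp (g := fun z : ℂ => I * z) h0 ?_
      intro z hz
      have : (I * z).im = z.re := by simp
      simpa [this] using hz
    have h2 : DiffContOnCl ℂ (fun z : ℂ => ((I * z + I) ^ K)⁻¹) {z | 0 < z.re} := by
      refine DiffContOnCl.inv (f := fun z : ℂ => (I * z + I) ^ K)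
        (Differentiable.diffContOnCl (by fun_prop)) ?_
      intro z hz
      rw [hcl] at hz
      apply pow_ne_zero
      intro h0
      have := hlow z hz
      rw [h0, norm_zero] at this
      linarith
    exact h1.smul h2
  have hfb : ∀ z : ℂ, 0 ≤ z.re → ‖(h (I * z)) * ((I * z + I) ^ K)⁻¹‖ ≤ M := by
    intro z hz
    rw [norm_mul, norm_inv, norm_pow]
    have h1 : ‖h (I * z)‖ ≤ M := hM _ (by simpa using hz)
    have h2 : (‖I * z + I‖ ^ K)⁻¹ ≤ 1 := inv_le_one_of_one_le₀ (one_le_pow₀ (hlow z hz))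
    calc ‖h (I * z)‖ * (‖I * z + I‖ ^ K)⁻¹ ≤ M * 1 :=
          mul_le_mul h1 h2 (inv_nonneg.mpr (by positivity)) hM0
      _ = M := mul_one _
  have hPL := PhragmenLindelof.right_half_plane_of_bounded_on_real hf (C := C * 2 ^ K)
    (z := -I * ζ) ?_ ?_ ?_ ?_
  · have e1 : I * (-I * ζ) = ζ := by
      rw [← mul_assoc, mul_neg, I_mul_I]; simp
    rw [e1, norm_mul, norm_inv, norm_pow] at hPL
    have h3 : 1 ≤ ‖ζ + I‖ := by
      have := hlow (-I * ζ) (by simpa using hζ)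
      rwa [e1] at this
    have h4 : ‖ζ + I‖ ≤ 1 + ‖ζ‖ := by
      refine (norm_add_le _ _).trans ?_
      rw [norm_I, add_comm]
    have h5 : 0 < ‖ζ + I‖ ^ K := by positivity
    rw [← div_eq_mul_inv, div_le_iff₀ h5] at hPL
    refine hPL.trans ?_
    refine mul_le_mul_of_nonneg_left ?_ (by positivity)
    exact pow_le_pow_left₀ (norm_nonneg _) h4 K
  · refine ⟨0, by norm_num, 0, ?_⟩
    refine Asymptotics.IsBigO.of_bound M ?_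
    rw [eventually_inf_principal]
    refine Eventually.of_forall fun z hz => ?_
    simp only [zero_mul, Real.exp_zero, norm_one, mul_one]
    exact hfb z (le_of_lt hz)
  · refine ⟨M, ?_⟩
    rw [eventually_map]
    filter_upwards [eventually_ge_atTop 0] with x hx
    exact hfb x (by simpa using hx)
  · intro x
    have e2 : I * (x * I) = ((-x : ℝ) : ℂ) := by
      rw [mul_comm, mul_assoc, I_mul_I]; push_cast; ring
    rw [e2, norm_mul, norm_inv, norm_pow]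
    have h1 := hreal (-x)
    have h2 : (1 + |(-x)|) / 2 ≤ ‖((-x : ℝ) : ℂ) + I‖ := by
      have a1 : |(-x)| ≤ ‖((-x : ℝ) : ℂ) + I‖ := by
        calc |(-x)| = |(((-x : ℝ) : ℂ) + I).re| := by simp
          _ ≤ _ := abs_re_le_norm _
      have a2 : 1 ≤ ‖((-x : ℝ) : ℂ) + I‖ := by
        calc (1 : ℝ) = |(((-x : ℝ) : ℂ) + I).im| := by simp
          _ ≤ _ := abs_im_le_norm _
      linarith
    have h3 : 0 < ‖((-x : ℝ) : ℂ) + I‖ := lt_of_lt_of_le (by positivity) h2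
    rw [← div_eq_mul_inv, div_le_iff₀ (pow_pos h3 K)]
    calc ‖h ((-x : ℝ) : ℂ)‖ ≤ C * (1 + |(-x)|) ^ K := h1
      _ = C * 2 ^ K * ((1 + |(-x)|) / 2) ^ K := by rw [div_pow]; field_simp
      _ ≤ C * 2 ^ K * ‖((-x : ℝ) : ℂ) + I‖ ^ K := by gcongr
  · simpa using hζ

end HN

theorem t_HN : S_HN := by
  intro hU hCOV hMOY hDEC hGRO d m
  obtain ⟨C₁, K₁, hC₁, hG⟩ := hGRO hU hCOV hMOY hDEC d m
  obtain ⟨C₂, K', hC₂, hD⟩ := hDEC d (m + (2 * d + 1))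
  set J := ∫ z : E d × E d, (nz z.1 z.2 ^ (2 * d + 1))⁻¹ ∂(volume.prod volume) with hJ
  have hJ0 : 0 ≤ J := integral_nonneg fun z => inv_nonneg.mpr (pow_pos (GRO.nz_pos _ _) _).le
  have hcg := (hMOY d).1
  refine ⟨(cg d)⁻¹ * C₁ * C₂ * (J + 1) * 2 ^ K₁, K₁, K', by positivity, fun v θ hv => ?_⟩
  refine ⟨HN.HH v θ, HN.HH_dco v θ, HN.HH_real hU v θ, ?_, HN.HH_value hU v θ⟩
  set p := ((Finset.Iic (K', K')).sup (schwartzSeminormFamily ℝ (E d) ℂ)) θ with hp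
  have hp0 : 0 ≤ p := apply_nonneg _ _
  have hreal : ∀ t : ℝ, ‖HN.HH v θ t‖ ≤ ((cg d)⁻¹ * C₁ * C₂ * (J + 1) * p) * (1 + |t|) ^ K₁ := by
    intro t
    rw [HN.HH_real hU]
    have h1 : ∀ x k, ‖V (U t v) x k‖ ≤ (C₁ * (1 + |t|) ^ K₁) * nz x k ^ m := by
      intro x k
      have := hG 1 v zero_le_one (fun x k => by rw [one_mul]; exact hv x k) t x k
      calc _ ≤ C₁ * 1 * (1 + |t|) ^ K₁ * nz x k ^ m := this
        _ = _ := by ring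
    have h2 := GRO.pr_W_le hU hCOV hMOY m (A := C₁ * (1 + |t|) ^ K₁) (B := C₂ * p)
      (by positivity) (by positivity) (U t v) θ h1 (fun x k => hD θ x k) 0 0
    rw [HN.W_zero hU] at h2
    have h3 : nz (0 : E d) (0 : E d) = 1 := by unfold nz; simp
    rw [h3, one_pow, mul_one] at h2
    refine h2.trans ?_
    have hT : 0 ≤ (1 + |t|) ^ K₁ := by positivity
    calc (cg d)⁻¹ * (C₁ * (1 + |t|) ^ K₁ * (C₂ * p) * J)
        = ((cg d)⁻¹ * C₁ * C₂ * p * (1 + |t|) ^ K₁) * J := by ring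
      _ ≤ ((cg d)⁻¹ * C₁ * C₂ * p * (1 + |t|) ^ K₁) * (J + 1) := by
          refine mul_le_mul_of_nonneg_left (by linarith) ?_
          have := inv_nonneg.mpr hcg.le
          positivity
      _ = _ := by ring
  intro ζ hζ
  have h4 := HN.phragmen (HN.HH_dco v θ) (fun ζ hζ => HN.HH_bound v θ hζ)
    (by have := inv_nonneg.mpr hcg.le; positivity) K₁ hreal hζ
  refine h4.trans (le_of_eq ?_)
  ring

end

end Pool.Agent.Q73.SO
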