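import Pool.Agent.Q73.SO.Stm

/-!
# Pigeonhole for the good balls (job SO-11)
-/

set_option autoImplicit false
open MeasureTheory Filter Topology Complex
open scoped ContDiff FourierTransform SchwartzMap ComplexConjugate

namespace Pool.Agent.Q73.SO

noncomputable section

namespace PIG

variable {d : ℕ}

lemma lip {a : E d → ℝ} (ha : Bd a) : ∃ Λ : ℝ, 0 < Λ ∧ ∀ x y, |a x - a y| ≤ Λ * ‖x - y‖ := by
  obtain ⟨B, hB⟩ := ha.bound 1
  refine ⟨|B| + 1, by positivity, ?_⟩
  intro x y
  have hd : Differentiable ℝ a := ha.smooth.differentiable (by simp)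
  have h1 : ∀ z ∈ (Set.univ : Set (E d)), ‖fderiv ℝ a z‖ ≤ |B| + 1 := by
    intro z _
    have h2 := hB z
    have h3 : ‖fderiv ℝ a z‖ = ‖iteratedFDeriv ℝ 1 a z‖ := by
      rw [← norm_iteratedFDeriv_fderiv, norm_iteratedFDeriv_zero]
    rw [h3]
    have := le_abs_self B
    linarith
  have h4 := Convex.norm_image_sub_le_of_norm_fderiv_le (𝕜 := ℝ) (f := a) (C := |B| + 1)
    (fun z _ => hd z) h1 convex_univ (Set.mem_univ y) (Set.mem_univ x)
  rwa [Real.norm_eq_abs] at h4

lemma cube_eq (c : E d) (L : ℝ) : cube c L =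
    (@WithLp.ofLp 2 (Fin d → ℝ)) ⁻¹' (Set.Icc (fun i => c i) (fun i => c i + L)) := by
  ext z
  simp only [cube, Set.mem_ofPred_eq, Set.mem_preimage, Set.mem_Icc, Pi.le_def]
  exact ⟨fun h => ⟨fun i => (h i).1, fun i => (h i).2⟩, fun h i => ⟨h.1 i, h.2 i⟩⟩

lemma cube_meas (c : E d) (L : ℝ) : MeasurableSet (cube c L) := by
  rw [cube_eq]
  exact (PiLp.volume_preserving_ofLp (Fin d)).measurable measurableSet_Icc

lemma cube_vol (c : E d) {L : ℝ} (hL : 0 ≤ L) : (volume (cube c L)).toReal = L ^ d := by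
  rw [cube_eq, (PiLp.volume_preserving_ofLp (Fin d)).measure_preimage measurableSet_Icc.nullMeasurableSet,
    Real.volume_Icc_pi]
  simp [hL]

lemma cube_fin (c : E d) (L : ℝ) : volume (cube c L) < ⊤ := by
  rw [cube_eq, (PiLp.volume_preserving_ofLp (Fin d)).measure_preimage measurableSet_Icc.nullMeasurableSet,
    Real.volume_Icc_pi]
  exact ENNReal.prod_lt_top fun i _ => ENNReal.ofReal_lt_top

lemma cube_closed (c : E d) (L : ℝ) : IsClosed (cube c L) := by
  have h : cube c L = ⋂ i, {z : E d | c i ≤ z i ∧ z i ≤ c i + L} := by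
    ext z
    simp [cube]
  rw [h]
  refine isClosed_iInter fun i => ?_
  have hc : Continuous (fun z : E d => z i) := by fun_prop
  exact (isClosed_le continuous_const hc).inter (isClosed_le hc continuous_const)

lemma cube_bdd (c : E d) (L : ℝ) : Bornology.IsBounded (cube c L) := by
  rw [isBounded_iff_forall_norm_le]
  refine ⟨‖c‖ + Real.sqrt (∑ _i : Fin d, L ^ 2), fun z hz => ?_⟩
  have h1 : ‖z - c‖ ≤ Real.sqrt (∑ _i : Fin d, L ^ 2) := by
    rw [EuclideanSpace.norm_eq]
    apply Real.sqrt_le_sqrt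
    apply Finset.sum_le_sum
    intro i _
    have h2 := hz i
    rw [Real.norm_eq_abs, sq_abs]
    have h3 : (z - c) i = z i - c i := rfl
    rw [h3]
    have h4 : 0 ≤ z i - c i := by linarith [h2.1]
    have h5 : z i - c i ≤ L := by linarith [h2.2]
    exact pow_le_pow_left₀ h4 h5 2
  have h2 : ‖z‖ ≤ ‖z - c‖ + ‖c‖ := by
    have := norm_add_le (z - c) c
    rwa [sub_add_cancel] at this
  linarith

lemma cube_compact (c : E d) (L : ℝ) : IsCompact (cube c L) :=
  Metric.isCompact_of_isClosed_isBounded (cube_closed c L) (cube_bdd c L)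

lemma cube_shift (w y : E d) (L : ℝ) : y + w ∈ cube w L ↔ y ∈ cube (0 : E d) L := by
  have h : ∀ i, (y + w) i = y i + w i := fun i => rfl
  have h0 : ∀ i, (0 : E d) i = 0 := fun i => rfl
  constructor
  · intro hy i
    have := hy i
    rw [h] at this
    rw [h0]
    constructor <;> linarith [this.1, this.2]
  · intro hy i
    have := hy i
    rw [h0] at this
    rw [h]
    constructor <;> linarith [this.1, this.2]

/-- a good point in the cube -/
lemma good_point {a : E d → ℝ} {L η : ℝ} (hL : 0 < L) (ha : Bd a) (hR : RD L η a) (w : E d) :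
    ∃ y ∈ cube (0 : E d) L, η ≤ a (y + w) := by
  have hne : (cube (0 : E d) L).Nonempty := ⟨0, fun i => by
    have h0 : (0 : E d) i = 0 := rfl
    rw [h0]
    constructor <;> linarith⟩
  have hcont : Continuous (fun y : E d => a (y + w)) := ha.smooth.continuous.comp (by fun_prop)
  obtain ⟨y, hy, hmax⟩ := (cube_compact (0 : E d) L).exists_isMaxOn hne hcont.continuousOn
  refine ⟨y, hy, ?_⟩
  have h1 := hR w
  have h2 : ∫ z in cube w L, a z ≤ ∫ z in cube w L, a (y + w) := by
    have hfin : IsFiniteMeasure (volume.restrict (cube w L)) :=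
      ⟨by rw [Measure.restrict_apply_univ]; exact cube_fin w L⟩
    apply setIntegral_mono_on
    · exact ha.smooth.continuous.continuousOn.integrableOn_compact (cube_compact w L)
    · exact integrable_const _
    · exact cube_meas w L
    · intro z hz
      have h3 : z - w ∈ cube (0 : E d) L := by
        rw [← cube_shift w, sub_add_cancel]
        exact hz
      have h4 := hmax h3
      simp only [Set.mem_ofPred_eq, sub_add_cancel] at h4
      exact h4
  rw [setIntegral_const, Measure.real, cube_vol w hL.le, smul_eq_mul] at h2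
  have h3 : 0 < L ^ d := by positivity
  calc η ≤ (L ^ d)⁻¹ * ∫ z in cube w L, a z := h1
    _ ≤ (L ^ d)⁻¹ * (L ^ d * a (y + w)) := by gcongr
    _ = a (y + w) := by field_simp

end PIG

open PIG in
/-- pigeonhole -/
theorem t_PIG : S_PIG := by
  intro d T L η a hT hL hη ha hR
  obtain ⟨Λ, hΛ, hlip⟩ := lip ha
  obtain ⟨r, hr⟩ : ∃ r : ℝ, r = η / (4 * Λ) := ⟨_, rfl⟩
  have hr0 : 0 < r := by rw [hr]; positivity
  have hr2 : Λ * (2 * r) = η / 2 := by
    rw [hr]
    field_simp
    ring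
  obtain ⟨s, hsf, hs⟩ := Metric.totallyBounded_iff.1 (cube_compact (0 : E d) L).totallyBounded r hr0
  obtain ⟨P, hP⟩ : ∃ P : Finset (E d), P = hsf.toFinset := ⟨_, rfl⟩
  have hPm : ∀ y ∈ cube (0 : E d) L, ∃ p₀ ∈ P, ‖y - p₀‖ < r := by
    intro y hy
    have h1 := hs hy
    rw [Set.mem_iUnion₂] at h1
    obtain ⟨p₀, hp, hy2⟩ := h1
    refine ⟨p₀, ?_, ?_⟩
    · rw [hP, Set.Finite.mem_toFinset]
      exact hp
    · rwa [Metric.mem_ball, dist_eq_norm] at hy2
  refine ⟨P, r, T / (P.card + 1), hr0, by positivity, ?_⟩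
  intro p q
  obtain ⟨tau, htau⟩ : ∃ tau : E d → Set ℝ, tau = fun p₀ => Set.Icc 0 T ∩
    ⋂ y ∈ Metric.closedBall p₀ r, {t : ℝ | η / 2 ≤ a (y + p - (4 * Real.pi * t) • q)} := ⟨_, rfl⟩
  have hclosed : ∀ p₀, IsClosed (tau p₀) := by
    intro p₀
    rw [htau]
    refine isClosed_Icc.inter (isClosed_biInter fun y _ => ?_)
    have hc : Continuous (fun t : ℝ => a (y + p - (4 * Real.pi * t) • q)) :=
      ha.smooth.continuous.comp (by fun_prop)
    exact isClosed_le continuous_const hc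
  have hcov : Set.Icc 0 T ⊆ ⋃ p₀ ∈ P, tau p₀ := by
    intro t ht
    obtain ⟨y, hy, hya⟩ := good_point hL ha hR (p - (4 * Real.pi * t) • q)
    obtain ⟨p₀, hp₀, hyp⟩ := hPm y hy
    rw [Set.mem_iUnion₂]
    refine ⟨p₀, hp₀, ?_⟩
    rw [htau]
    refine ⟨ht, ?_⟩
    rw [Set.mem_iInter₂]
    intro z hz
    rw [Metric.mem_closedBall, dist_eq_norm] at hz
    show η / 2 ≤ a (z + p - (4 * Real.pi * t) • q)
    have h1 := hlip (y + (p - (4 * Real.pi * t) • q)) (z + p - (4 * Real.pi * t) • q)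
    have h2 : y + (p - (4 * Real.pi * t) • q) - (z + p - (4 * Real.pi * t) • q) = (y - p₀) - (z - p₀) := by abel
    rw [h2] at h1
    have h3 : ‖(y - p₀) - (z - p₀)‖ ≤ 2 * r := (norm_sub_le _ _).trans (by linarith)
    have h4 : Λ * ‖(y - p₀) - (z - p₀)‖ ≤ η / 2 := by
      rw [← hr2]
      gcongr
    have h5 := (abs_le.1 (h1.trans h4)).2
    linarith
  by_contra hcon
  push Not at hcon
  have hsmall : ∀ p₀ ∈ P, (volume (tau p₀)).toReal < T / (P.card + 1) := by
    intro p₀ hp₀
    by_contra h1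
    push Not at h1
    obtain ⟨t, ht, y, hy, hlt⟩ := hcon p₀ hp₀ (tau p₀) (hclosed p₀).measurableSet (by
      rw [htau]
      exact Set.inter_subset_left) h1
    rw [htau] at ht
    have h2 := (Set.mem_iInter₂.1 ht.2) y hy
    have h3 : η / 2 ≤ a (y + p - (4 * Real.pi * t) • q) := h2
    linarith
  have hfin : ∀ p₀, volume (tau p₀) ≠ ⊤ := by
    intro p₀
    refine ne_top_of_le_ne_top ?_ (measure_mono (show tau p₀ ⊆ Set.Icc 0 T by
      rw [htau]
      exact Set.inter_subset_left))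
    rw [Real.volume_Icc]
    exact ENNReal.ofReal_ne_top
  have h1 : volume (Set.Icc (0 : ℝ) T) ≤ ∑ p₀ ∈ P, volume (tau p₀) :=
    (measure_mono hcov).trans (measure_biUnion_finset_le P tau)
  have h2 : T ≤ ∑ p₀ ∈ P, (volume (tau p₀)).toReal := by
    rw [← ENNReal.toReal_sum fun p₀ _ => hfin p₀]
    rw [Real.volume_Icc, sub_zero] at h1
    have h3 := ENNReal.toReal_mono (by
      rw [ENNReal.sum_ne_top]
      exact fun p₀ _ => hfin p₀) h1
    rwa [ENNReal.toReal_ofReal hT.le] at h3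
  have h3 : ∑ p₀ ∈ P, (volume (tau p₀)).toReal ≤ P.card • (T / (P.card + 1)) :=
    Finset.sum_le_card_nsmul _ _ _ fun p₀ hp₀ => (hsmall p₀ hp₀).le
  rw [nsmul_eq_mul] at h3
  have h4 : (P.card : ℝ) * (T / (P.card + 1)) < T := by
    rw [mul_div_assoc', div_lt_iff₀ (by positivity)]
    nlinarith
  linarith

end

end Pool.Agent.Q73.SO
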