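import Pool.Agent.Q73.SO.Stm

/-!
# Project SO, job SO-4: renormalisation of the observation
-/

set_option autoImplicit false

namespace Pool.Agent.Q73.SO

open MeasureTheory Filter Topology Complex
open scoped ContDiff FourierTransform SchwartzMap ComplexConjugate

/-- **Job REN.** -/
theorem t_REN : S_REN := by
  intro hU hC d T a p q v x k
  obtain ⟨h1, h2⟩ := hC hU d
  unfold obs
  congr 1
  funext t
  congr 1
  obtain ⟨s, hs⟩ : ∃ s : ℝ, s = 4 * Real.pi * t := ⟨_, rfl⟩
  rw [← hs]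
  obtain ⟨ph, hph⟩ : ∃ ph : ℂ, ph = cexp (((4 * Real.pi ^ 2 * t * ‖q‖ ^ 2 : ℝ) : ℂ) * I) :=
    ⟨_, rfl⟩
  have hn : ‖ph‖ = 1 := by
    rw [hph]
    exact Complex.norm_exp_ofReal_mul_I _
  have e1 : V (fun y => (a (y + 0 - s • (0 : E d)) : ℂ) * U t (W p q v) y) (x - s • k) k =
      ph * V (fun y => (a y : ℂ) * W (p - s • q) q (U t v) y) (x - s • k) k := by
    unfold V
    rw [← integral_const_mul]
    congr 1
    funext y
    rw [h1 t p q v, ← hph, ← hs]
    beta_reduce
    rw [add_zero, smul_zero, sub_zero, smul_apply, smul_eq_mul]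
    ring
  rw [e1, norm_mul, hn, one_mul, h2 (fun y => (a y : ℂ)) (p - s • q) q (U t v) (x - s • k) k]
  have e2 : x - s • k - (p - s • q) = x - p - s • (k - q) := by
    rw [smul_sub]
    abel
  have e3 : (fun y : E d => (a (y + (p - s • q)) : ℂ) * U t v y) =
      fun y => (a (y + p - s • q) : ℂ) * U t v y := by
    funext y
    rw [add_sub_assoc]
  rw [e2, e3]

end Pool.Agent.Q73.SO
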