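import Pool.Agent.Q198.SO.Bas

/-!
# Local boundedness of the observation (job SO-14)
-/

set_option autoImplicit false
open MeasureTheory Filter Topology Complex
open scoped ContDiff FourierTransform SchwartzMap ComplexConjugate

namespace Pool.Agent.Q73.SO

noncomputable section

namespace REP

open Pool.Agent.Q198.SO MOY DEC

variable {d : ℕ}

/-- the translated weight -/
def wt (N : ℕ) (z₀ z : E d × E d) : ℝ := (nz (z.1 - z₀.1) (z.2 - z₀.2) ^ N)⁻¹

lemma wt_nonneg (N : ℕ) (z₀ z : E d × E d) : 0 ≤ wt N z₀ z := inv_nonneg.2 (pow_pos (nz_pos _ _) N).le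

lemma wt_le_one (N : ℕ) (z₀ z : E d × E d) : wt N z₀ z ≤ 1 := by
  unfold wt
  exact inv_le_one_of_one_le₀ (one_le_pow₀ (nz_one_le _ _))

lemma wt_anti {M N : ℕ} (h : M ≤ N) (z₀ z : E d × E d) : wt N z₀ z ≤ wt M z₀ z := by
  unfold wt
  exact inv_anti₀ (pow_pos (nz_pos _ _) M) (pow_le_pow_right₀ (nz_one_le _ _) h)

lemma wt_cont (N : ℕ) (z₀ : E d × E d) : Continuous (wt N z₀) := by
  unfold wt
  have h1 : Continuous (fun z : E d × E d => ((z.1 - z₀.1, z.2 - z₀.2) : E d × E d)) := by fun_prop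
  exact ((nz_cont.comp h1).pow N).inv₀ fun z => (pow_pos (nz_pos _ _) N).ne'

lemma wt_int {N : ℕ} (hN : 2 * d + 1 ≤ N) (z₀ : E d × E d) : Integrable (wt N z₀) (volume.prod volume) := by
  have h1 := (nz_int (d := d) hN).comp_sub_right z₀
  exact h1

lemma wt_integral (N : ℕ) (z₀ : E d × E d) :
    ∫ z, wt N z₀ z ∂(volume.prod volume) = ∫ z : E d × E d, (nz z.1 z.2 ^ N)⁻¹ ∂(volume.prod volume) := by
  have h1 := integral_sub_right_eq_self (μ := (volume : Measure (E d)).prod volume)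
    (fun z : E d × E d => (nz z.1 z.2 ^ N)⁻¹) z₀
  exact h1

lemma V_bound (f : 𝓢(E d, ℂ)) : ∃ B : ℝ, 0 ≤ B ∧ ∀ x k, ‖V f x k‖ ≤ B := by
  have h1 : ∀ y, ‖f y‖ ≤ SchwartzMap.seminorm ℝ 0 0 f := fun y => SchwartzMap.norm_le_seminorm ℝ f y
  refine ⟨SchwartzMap.seminorm ℝ 0 0 f * ∫ y : E d, gg y, ?_, fun x k => V_bd _ _ _ _ h1⟩
  exact mul_nonneg (apply_nonneg _ _) (integral_nonneg gg_nonneg)

lemma Vw_int (f : 𝓢(E d, ℂ)) {N : ℕ} (hN : 2 * d + 1 ≤ N) (j : ℕ) (z₀ : E d × E d) :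
    Integrable (fun z : E d × E d => ‖V f z.1 z.2‖ ^ j * wt N z₀ z) (volume.prod volume) := by
  obtain ⟨B, hB0, hB⟩ := V_bound f
  refine Integrable.mono ((wt_int hN z₀).const_mul (B ^ j)) ?_ ?_
  · refine Continuous.aestronglyMeasurable ?_
    exact ((V_cont f).norm.pow j).mul (wt_cont N z₀)
  · refine Eventually.of_forall fun z => ?_
    have h2 := wt_nonneg N z₀ z
    rw [Real.norm_of_nonneg (mul_nonneg (by positivity) h2), Real.norm_of_nonneg (mul_nonneg (by positivity) h2)]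
    exact mul_le_mul_of_nonneg_right (pow_le_pow_left₀ (norm_nonneg _) (hB _ _) j) h2

/-- the pairing is bounded by the weighted integral of the square -/
lemma pair_bd (f h : 𝓢(E d, ℂ)) {N : ℕ} (hN : 2 * d + 1 ≤ N) {C : ℝ} (z₀ : E d × E d)
    (hh : ∀ z, ‖V h z.1 z.2‖ ≤ C * wt N z₀ z) :
    ‖pr f h‖ ^ 2 ≤ ((cg d)⁻¹ * C) ^ 2 * ((∫ z : E d × E d, (nz z.1 z.2 ^ N)⁻¹ ∂(volume.prod volume)) *
      ∫ z : E d × E d, ‖V f z.1 z.2‖ ^ 2 * wt N z₀ z ∂(volume.prod volume)) := by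
  obtain ⟨hcg, hM⟩ := t_MOY d
  obtain ⟨_, h1, h2, _, _⟩ := hM f h
  have i1 : Integrable (fun z : E d × E d => ‖V f z.1 z.2‖ * wt N z₀ z) (volume.prod volume) := by
    simpa using Vw_int f hN 1 z₀
  have h3 : ‖pr f h‖ = (cg d)⁻¹ * ‖∫ z : E d × E d, V f z.1 z.2 * conj (V h z.1 z.2) ∂(volume.prod volume)‖ := by
    rw [h2, norm_mul, Complex.norm_real, Real.norm_of_nonneg hcg.le]
    field_simp
  have h4 : ‖∫ z : E d × E d, V f z.1 z.2 * conj (V h z.1 z.2) ∂(volume.prod volume)‖ ≤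
      C * ∫ z : E d × E d, ‖V f z.1 z.2‖ * wt N z₀ z ∂(volume.prod volume) := by
    rw [← integral_const_mul]
    refine norm_integral_le_of_norm_le (i1.const_mul C) (Eventually.of_forall fun z => ?_)
    rw [norm_mul, RCLike.norm_conj]
    calc ‖V f z.1 z.2‖ * ‖V h z.1 z.2‖ ≤ ‖V f z.1 z.2‖ * (C * wt N z₀ z) :=
          mul_le_mul_of_nonneg_left (hh _) (norm_nonneg _)
      _ = _ := by ring
  have h5 := jensen (μ := volume.prod volume) (fun z : E d × E d => ‖V f z.1 z.2‖) (wt N z₀)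
    (wt_nonneg N z₀) (wt_int hN z₀) i1 (Vw_int f hN 2 z₀)
  rw [wt_integral] at h5
  have hcg' : 0 ≤ (cg d)⁻¹ := inv_nonneg.2 hcg.le
  have h6 : ‖pr f h‖ ≤ (cg d)⁻¹ * C * ∫ z : E d × E d, ‖V f z.1 z.2‖ * wt N z₀ z ∂(volume.prod volume) := by
    rw [h3, mul_assoc]
    exact mul_le_mul_of_nonneg_left h4 hcg'
  calc ‖pr f h‖ ^ 2 ≤ ((cg d)⁻¹ * C *
        ∫ z : E d × E d, ‖V f z.1 z.2‖ * wt N z₀ z ∂(volume.prod volume)) ^ 2 :=
        pow_le_pow_left₀ (norm_nonneg _) h6 2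
    _ = ((cg d)⁻¹ * C) ^ 2 *
        (∫ z : E d × E d, ‖V f z.1 z.2‖ * wt N z₀ z ∂(volume.prod volume)) ^ 2 := by rw [mul_pow]
    _ ≤ _ := mul_le_mul_of_nonneg_left h5 (sq_nonneg _)

/-- the short time Fourier transform as a pairing -/
lemma V_pr (hU : S_U) (f : 𝓢(E d, ℂ)) (x k : E d) : V f x k = pr f (W x k (GS d)) := by
  unfold V pr
  congr 1
  funext y
  rw [(hU d).2.2.2.1, GS_apply, map_mul, conj_ofReal]
  ring

lemma V_WG (hU : S_U) (hC : S_COV) (x k x' k' : E d) :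
    ‖V (W x k (GS d)) x' k'‖ = ‖V (GS d) (x' - x) (k' - k)‖ := by
  have h1 := (hC hU d).2 (fun _ => 1) x k (GS d) x' k'
  simpa using h1

/-- the reproducing bound at a point of phase space -/
lemma point_bd (hU : S_U) (hC : S_COV) (hD : S_DEC) {N : ℕ} (hN : 2 * d + 1 ≤ N) :
    ∃ C : ℝ, 0 ≤ C ∧ ∀ (f : 𝓢(E d, ℂ)) (z₀ : E d × E d), ‖V f z₀.1 z₀.2‖ ^ 2 ≤
      C * ∫ z : E d × E d, ‖V f z.1 z.2‖ ^ 2 * wt N z₀ z ∂(volume.prod volume) := by
  obtain ⟨C1, K, hC1, hdec⟩ := hD d N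
  have hP := PK_nonneg K (GS d)
  obtain ⟨B, hB⟩ : ∃ B : ℝ, B = ∫ z : E d × E d, (nz z.1 z.2 ^ N)⁻¹ ∂(volume.prod volume) := ⟨_, rfl⟩
  have hB0 : 0 ≤ B := by
    rw [hB]
    exact integral_nonneg fun z => inv_nonneg.2 (pow_pos (nz_pos _ _) N).le
  refine ⟨((cg d)⁻¹ * (C1 * PK K (GS d))) ^ 2 * B, by positivity, fun f z₀ => ?_⟩
  have hh : ∀ z : E d × E d, ‖V (W z₀.1 z₀.2 (GS d)) z.1 z.2‖ ≤ (C1 * PK K (GS d)) * wt N z₀ z := by
    intro z
    rw [V_WG hU hC]
    have h1 := hdec (GS d) (z.1 - z₀.1) (z.2 - z₀.2)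
    unfold wt
    rw [← div_eq_mul_inv, le_div_iff₀ (pow_pos (nz_pos _ _) N), mul_comm]
    exact h1
  have h2 := pair_bd f (W z₀.1 z₀.2 (GS d)) hN z₀ hh
  rw [← V_pr hU, ← hB] at h2
  refine h2.trans (le_of_eq ?_)
  ring

/-- the weight under the shear -/
lemma wt_sh (N : ℕ) {c T : ℝ} (hc : |c| ≤ T) (z₀ z : E d × E d) :
    wt N (sh c z₀) (sh c z) ≤ (1 + T) ^ N * wt N z₀ z := by
  unfold wt
  rw [sh_apply, sh_apply]
  have e1 : z.1 - c • z.2 - (z₀.1 - c • z₀.2) = (z.1 - z₀.1) - c • (z.2 - z₀.2) := by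
    rw [smul_sub]
    abel
  simp only
  rw [e1]
  have h3 : nz (z.1 - z₀.1) (z.2 - z₀.2) ≤ (1 + T) * nz ((z.1 - z₀.1) - c • (z.2 - z₀.2)) (z.2 - z₀.2) :=
    (nz_shear c _ _).trans (mul_le_mul_of_nonneg_right (by linarith) (nz_pos _ _).le)
  have h1 := nz_pos ((z.1 - z₀.1) - c • (z.2 - z₀.2)) (z.2 - z₀.2)
  have h2 := nz_pos (z.1 - z₀.1) (z.2 - z₀.2)
  rw [← div_eq_mul_inv, le_div_iff₀ (pow_pos h2 N), inv_mul_le_iff₀ (pow_pos h1 N), mul_comm, ← mul_pow]
  exact pow_le_pow_left₀ h2.le h3 N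

/-- the point bound for the integrand of the observation -/
lemma ob_point (hU : S_U) (hC : S_COV) (hD : S_DEC) {N : ℕ} (hN : 2 * d + 1 ≤ N) (T : ℝ) :
    ∃ C : ℝ, 0 ≤ C ∧ ∀ (a : E d → ℝ), Bd a → ∀ (u : 𝓢(E d, ℂ)) (t : ℝ), |4 * Real.pi * t| ≤ T →
      ∀ z₀ : E d × E d, ob a 0 0 u t z₀ ≤
        C * ∫ z : E d × E d, ob a 0 0 u t z * wt N z₀ z ∂(volume.prod volume) := by
  obtain ⟨C, hC0, hpt⟩ := point_bd (d := d) hU hC hD hN
  refine ⟨C * (1 + |T|) ^ N, by positivity, ?_⟩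
  intro a ha u t ht z₀
  obtain ⟨c, hc⟩ : ∃ c : ℝ, c = 4 * Real.pi * t := ⟨_, rfl⟩
  obtain ⟨F, hF⟩ : ∃ F : 𝓢(E d, ℂ), F = BU a (0 - (4 * Real.pi * t) • (0 : E d)) t u := ⟨_, rfl⟩
  have hob : ∀ z : E d × E d, ob a 0 0 u t z = ‖V F (sh c z).1 (sh c z).2‖ ^ 2 := by
    intro z
    rw [ob_BU ha, hF, hc]
  rw [← hc] at ht
  have hTT : |c| ≤ |T| := ht.trans (le_abs_self T)
  have h1 := hpt F (sh c z₀)
  have h2 := sh_integral c (fun z : E d × E d => ‖V F z.1 z.2‖ ^ 2 * wt N (sh c z₀) z)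
  rw [← h2] at h1
  simp only [← hob] at h1
  refine h1.trans ?_
  rw [mul_assoc]
  refine mul_le_mul_of_nonneg_left ?_ hC0
  rw [← integral_const_mul]
  obtain ⟨B, hB0, hB⟩ := V_bound F
  have hcont : Continuous (fun z : E d × E d => ob a 0 0 u t z) := by
    simp only [hob]
    exact ((V_cont F).comp (sh c).continuous).norm.pow 2
  have hobB : ∀ z, ob a 0 0 u t z ≤ B ^ 2 := by
    intro z
    rw [hob]
    exact pow_le_pow_left₀ (norm_nonneg _) (hB _ _) 2
  have i1 : Integrable (fun z : E d × E d => ob a 0 0 u t z * wt N z₀ z) (volume.prod volume) := by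
    refine Integrable.mono ((wt_int hN z₀).const_mul (B ^ 2)) (hcont.mul (wt_cont N z₀)).aestronglyMeasurable ?_
    refine Eventually.of_forall fun z => ?_
    have h2 := wt_nonneg N z₀ z
    rw [Real.norm_of_nonneg (mul_nonneg (ob_nonneg _ _ _ _ _ _) h2), Real.norm_of_nonneg (mul_nonneg (by positivity) h2)]
    exact mul_le_mul_of_nonneg_right (hobB z) h2
  have i2 : Integrable (fun z : E d × E d => ob a 0 0 u t z * wt N (sh c z₀) (sh c z)) (volume.prod volume) := by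
    have h3 := sh_integrable c (Vw_int F hN 2 (sh c z₀))
    simp only [← hob] at h3
    exact h3
  refine integral_mono i2 (i1.const_mul _) fun z => ?_
  simp only
  calc ob a 0 0 u t z * wt N (sh c z₀) (sh c z) ≤ ob a 0 0 u t z * ((1 + |T|) ^ N * wt N z₀ z) :=
        mul_le_mul_of_nonneg_left (wt_sh N hTT z₀ z) (ob_nonneg _ _ _ _ _ _)
    _ = _ := by ring

/-! ### Integrability of the observation -/

lemma ob_int {a : E d → ℝ} (ha : Bd a) (u : 𝓢(E d, ℂ)) (t : ℝ) :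
    Integrable (fun z : E d × E d => ob a 0 0 u t z) (volume.prod volume) := by
  have h1 := sh_integrable (4 * Real.pi * t) (sq_int (BU a (0 - (4 * Real.pi * t) • (0 : E d)) t u))
  refine h1.congr (Eventually.of_forall fun z => ?_)
  simp only
  rw [ob_BU ha]

lemma ob_integral {a : E d → ℝ} (ha : Bd a) (u : 𝓢(E d, ℂ)) (t : ℝ) :
    ∫ z : E d × E d, ob a 0 0 u t z ∂(volume.prod volume) = cg d * ∫ y, ‖(a y : ℂ) * U t u y‖ ^ 2 := by
  have h1 := sh_integral (4 * Real.pi * t)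
    (fun z : E d × E d => ‖V (BU a (0 - (4 * Real.pi * t) • (0 : E d)) t u) z.1 z.2‖ ^ 2)
  simp only [← ob_BU ha] at h1
  rw [h1, ((t_MOY d).2 (BU a (0 - (4 * Real.pi * t) • (0 : E d)) t u)
    (BU a (0 - (4 * Real.pi * t) • (0 : E d)) t u)).2.2.2.2]
  congr 1
  congr 1
  funext y
  rw [BU_apply ha, smul_zero, sub_zero, add_zero]

lemma aU_le {a : E d → ℝ} (ha : Bd a) (u : 𝓢(E d, ℂ)) (hU : S_U) (t : ℝ) :
    ∫ y, ‖(a y : ℂ) * U t u y‖ ^ 2 ≤ ∫ y, ‖u y‖ ^ 2 := by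
  rw [← (hU d).2.2.2.2.2.2.1 t u]
  have h0 : Integrable (fun y => ‖U t u y‖ ^ 2) := by
    have h1 := (fh_int (U t u) (U t u)).norm
    refine h1.congr (Eventually.of_forall fun y => ?_)
    simp only
    rw [norm_mul, RCLike.norm_conj, sq]
  refine integral_mono_of_nonneg (Eventually.of_forall fun y => by positivity) h0 (Eventually.of_forall fun y => ?_)
  simp only
  rw [norm_mul, mul_pow, Complex.norm_real, Real.norm_of_nonneg (ha.nonneg y)]
  have h2 := ha.nonneg y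
  have h3 := ha.le_one y
  have h4 : a y ^ 2 ≤ 1 := by nlinarith
  have h5 : 0 ≤ ‖U t u y‖ ^ 2 := by positivity
  nlinarith

lemma ob_prod {a : E d → ℝ} (ha : Bd a) (u : 𝓢(E d, ℂ)) (hU : S_U) (T : ℝ) :
    Integrable (fun s : ℝ × (E d × E d) => ob a 0 0 u s.1 s.2)
      ((volume.restrict (Set.Icc 0 T)).prod (volume.prod volume)) := by
  have hfin : IsFiniteMeasure (volume.restrict (Set.Icc (0 : ℝ) T)) :=
    ⟨by rw [Measure.restrict_apply_univ, Real.volume_Icc]; exact ENNReal.ofReal_lt_top⟩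
  have hm : AEStronglyMeasurable (fun s : ℝ × (E d × E d) => ob a 0 0 u s.1 s.2)
      ((volume.restrict (Set.Icc 0 T)).prod (volume.prod volume)) := (ob_cont ha 0 0 u).aestronglyMeasurable
  rw [integrable_prod_iff hm]
  refine ⟨Eventually.of_forall fun t => ob_int ha u t, ?_⟩
  have h1 : (fun t => ∫ z : E d × E d, ‖ob a 0 0 u t z‖ ∂(volume.prod volume)) =
      fun t => cg d * ∫ y, ‖(a y : ℂ) * U t u y‖ ^ 2 := by
    funext t
    rw [← ob_integral ha]
    congr 1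
    funext z
    rw [Real.norm_of_nonneg (ob_nonneg _ _ _ _ _ _)]
  have hm2 : AEStronglyMeasurable (fun t => ∫ z : E d × E d, ‖ob a 0 0 u t z‖ ∂(volume.prod volume))
      (volume.restrict (Set.Icc 0 T)) := hm.norm.integral_prod_right'
  refine Integrable.of_bound hm2 (cg d * ∫ y, ‖u y‖ ^ 2) (Eventually.of_forall fun t => ?_)
  have h2 : ∫ z : E d × E d, ‖ob a 0 0 u t z‖ ∂(volume.prod volume) = cg d * ∫ y, ‖(a y : ℂ) * U t u y‖ ^ 2 :=
    congrFun h1 t
  rw [h2, Real.norm_of_nonneg]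
  · exact mul_le_mul_of_nonneg_left (aU_le ha u hU t) (cg_pos).le
  · exact mul_nonneg (cg_pos).le (integral_nonneg fun y => by positivity)

lemma obs_icc {T : ℝ} (hT : 0 ≤ T) (a : E d → ℝ) (p q : E d) (v : 𝓢(E d, ℂ)) (z : E d × E d) :
    obs T a p q v z.1 z.2 = ∫ t in Set.Icc 0 T, ob a p q v t z := by
  rw [obs_eq, intervalIntegral.integral_of_le hT, integral_Icc_eq_integral_Ioc]

end REP

open Pool.Agent.Q198.SO REP MOY DEC in
/-- local boundedness of the observation -/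
theorem t_REP : S_REP := by
  intro hU hC _ hD d M T a hT ha
  obtain ⟨N, hNe⟩ : ∃ N : ℕ, N = max M (2 * d + 1) := ⟨_, rfl⟩
  have hN : 2 * d + 1 ≤ N := by omega
  have hNM : M ≤ N := by omega
  obtain ⟨C, hC0, hpt⟩ := ob_point (d := d) hU hC hD hN (4 * Real.pi * T)
  have hpi := Real.pi_pos
  refine ⟨C + 1, by positivity, fun u => ?_⟩
  have hprod := ob_prod ha u hU T
  have hobs : (fun z : E d × E d => obs T a 0 0 u z.1 z.2) = fun z => ∫ t in Set.Icc 0 T, ob a 0 0 u t z := by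
    funext z
    exact obs_icc hT.le a 0 0 u z
  refine ⟨?_, ?_, ?_, ?_⟩
  · have h1 : Continuous (Function.uncurry fun (z : E d × E d) (t : ℝ) => ob a 0 0 u t z) := by
      exact Continuous.comp (g := fun s : ℝ × (E d × E d) => ob a 0 0 u s.1 s.2)
        (f := fun s : (E d × E d) × ℝ => ((s.2, s.1) : ℝ × (E d × E d))) (ob_cont ha 0 0 u)
        (continuous_snd.prodMk continuous_fst)
    exact intervalIntegral.continuous_parametric_intervalIntegral_of_continuous' h1 0 T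
  · rw [hobs]
    exact hprod.integral_prod_right
  · rw [hobs]
    have h1 := integral_integral_swap (f := fun (t : ℝ) (z : E d × E d) => ob a 0 0 u t z) hprod
    rw [← h1, intervalIntegral.integral_of_le hT.le, ← integral_Icc_eq_integral_Ioc, ← integral_const_mul]
    congr 1
    funext t
    exact ob_integral ha u t
  · intro x k
    obtain ⟨z₀, hz₀⟩ : ∃ z₀ : E d × E d, z₀ = (x, k) := ⟨_, rfl⟩
    have hw : Integrable (fun s : ℝ × (E d × E d) => ob a 0 0 u s.1 s.2 * wt M z₀ s.2)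
        ((volume.restrict (Set.Icc 0 T)).prod (volume.prod volume)) := by
      refine Integrable.mono hprod ?_ ?_
      · exact ((ob_cont ha 0 0 u).mul ((wt_cont M z₀).comp continuous_snd)).aestronglyMeasurable
      · refine Eventually.of_forall fun s => ?_
        rw [Real.norm_of_nonneg (mul_nonneg (ob_nonneg _ _ _ _ _ _) (wt_nonneg _ _ _)),
          Real.norm_of_nonneg (ob_nonneg _ _ _ _ _ _)]
        exact mul_le_of_le_one_right (ob_nonneg _ _ _ _ _ _) (wt_le_one _ _ _)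
    have hpt2 : ∀ t ∈ Set.Icc 0 T, ob a 0 0 u t z₀ ≤
        C * ∫ z : E d × E d, ob a 0 0 u t z * wt M z₀ z ∂(volume.prod volume) := by
      intro t ht
      have hc : |4 * Real.pi * t| ≤ 4 * Real.pi * T := by
        rw [abs_of_nonneg (mul_nonneg (by positivity) ht.1)]
        exact mul_le_mul_of_nonneg_left ht.2 (by positivity)
      refine (hpt a ha u t hc z₀).trans (mul_le_mul_of_nonneg_left ?_ hC0)
      refine integral_mono_of_nonneg (Eventually.of_forall fun z => mul_nonneg (ob_nonneg _ _ _ _ _ _) (wt_nonneg _ _ _))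
        ?_ (Eventually.of_forall fun z => mul_le_mul_of_nonneg_left (wt_anti hNM _ _) (ob_nonneg _ _ _ _ _ _))
      refine Integrable.mono (ob_int ha u t) ?_ ?_
      · refine Continuous.aestronglyMeasurable ?_
        have h5 : Continuous (fun z : E d × E d => ob a 0 0 u t z) :=
          Continuous.comp (g := fun s : ℝ × (E d × E d) => ob a 0 0 u s.1 s.2)
            (f := fun z : E d × E d => ((t, z) : ℝ × (E d × E d))) (ob_cont ha 0 0 u)
            (continuous_const.prodMk continuous_id)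
        exact h5.mul (wt_cont M z₀)
      · refine Eventually.of_forall fun s => ?_
        rw [Real.norm_of_nonneg (mul_nonneg (ob_nonneg _ _ _ _ _ _) (wt_nonneg _ _ _)),
          Real.norm_of_nonneg (ob_nonneg _ _ _ _ _ _)]
        exact mul_le_of_le_one_right (ob_nonneg _ _ _ _ _ _) (wt_le_one _ _ _)
    have hct : Continuous (fun t : ℝ => ob a 0 0 u t z₀) :=
      Continuous.comp (g := fun s : ℝ × (E d × E d) => ob a 0 0 u s.1 s.2)
        (f := fun t : ℝ => ((t, z₀) : ℝ × (E d × E d))) (ob_cont ha 0 0 u)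
        (continuous_id.prodMk continuous_const)
    have hion : IntegrableOn (fun t : ℝ => ob a 0 0 u t z₀) (Set.Icc 0 T) :=
      hct.continuousOn.integrableOn_compact isCompact_Icc
    have hF : IntegrableOn (fun t => ∫ z : E d × E d, ob a 0 0 u t z * wt M z₀ z ∂(volume.prod volume))
        (Set.Icc 0 T) := hw.integral_prod_left
    have h6 : ∫ t in Set.Icc 0 T, ob a 0 0 u t z₀ ≤
        ∫ t in Set.Icc 0 T, C * ∫ z : E d × E d, ob a 0 0 u t z * wt M z₀ z ∂(volume.prod volume) :=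
      setIntegral_mono_on hion (hF.const_mul C) measurableSet_Icc hpt2
    have h7 : ∫ t in Set.Icc 0 T, C * ∫ z : E d × E d, ob a 0 0 u t z * wt M z₀ z ∂(volume.prod volume) =
        C * ∫ z : E d × E d, (∫ t in Set.Icc 0 T, ob a 0 0 u t z * wt M z₀ z) ∂(volume.prod volume) := by
      rw [integral_const_mul]
      congr 1
      exact integral_integral_swap hw
    have h8 : (∫ z : E d × E d, (∫ t in Set.Icc 0 T, ob a 0 0 u t z * wt M z₀ z) ∂(volume.prod volume)) =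
        ∫ z : E d × E d, obs T a 0 0 u z.1 z.2 * (nz (z.1 - x) (z.2 - k) ^ M)⁻¹ ∂(volume.prod volume) := by
      congr 1
      funext z
      rw [integral_mul_const, obs_icc hT.le, hz₀]
      rfl
    have h9 : obs T a 0 0 u x k = ∫ t in Set.Icc 0 T, ob a 0 0 u t z₀ := by
      rw [← obs_icc hT.le, hz₀]
    have h10 : 0 ≤ ∫ z : E d × E d, obs T a 0 0 u z.1 z.2 * (nz (z.1 - x) (z.2 - k) ^ M)⁻¹ ∂(volume.prod volume) := by
      refine integral_nonneg fun z => mul_nonneg ?_ (inv_nonneg.2 (pow_pos (nz_pos _ _) M).le)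
      rw [obs_icc hT.le]
      exact integral_nonneg fun t => ob_nonneg _ _ _ _ _ _
    rw [h9]
    refine h6.trans ?_
    rw [h7, h8]
    nlinarith

end

end Pool.Agent.Q73.SO
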