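import Pool.Agent.Q73.SO.Stm

/-!
# Two constants theorem in the half plane (job SO-9)

The Cauchy integral of the indicator function of `A` at height `h` is used as an outer function.
-/

set_option autoImplicit false
open MeasureTheory Filter Topology Complex
open scoped ContDiff FourierTransform SchwartzMap ComplexConjugate

namespace Pool.Agent.Q73.SO

noncomputable section

namespace TWO

/-- Poisson kernel -/
def pk (b x t : ℝ) : ℝ := b / ((t - x) ^ 2 + b ^ 2)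

lemma pk_eq {b : ℝ} (hb : 0 < b) (x t : ℝ) : pk b x t = b⁻¹ * (1 + ((t - x) / b) ^ 2)⁻¹ := by
  unfold pk
  field_simp
  ring

lemma pk_nonneg {b : ℝ} (hb : 0 < b) (x t : ℝ) : 0 ≤ pk b x t := by
  unfold pk
  positivity

lemma pk_int {b : ℝ} (hb : 0 < b) (x : ℝ) : Integrable (pk b x) ∧ ∫ t, pk b x t = Real.pi := by
  have h1 : pk b x = fun t => b⁻¹ * (1 + ((t - x) / b) ^ 2)⁻¹ := by
    funext t
    exact pk_eq hb x t
  rw [h1]
  have h2 : Integrable (fun t : ℝ => (1 + (t / b) ^ 2)⁻¹) := integrable_inv_one_add_sq.comp_div hb.ne'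
  have h3 : Integrable (fun t : ℝ => (1 + ((t - x) / b) ^ 2)⁻¹) := h2.comp_sub_right x
  refine ⟨h3.const_mul _, ?_⟩
  rw [integral_const_mul, integral_sub_right_eq_self (fun t : ℝ => (1 + (t / b) ^ 2)⁻¹) x,
    Measure.integral_comp_div (fun t : ℝ => (1 + t ^ 2)⁻¹) b, integral_univ_inv_one_add_sq,
    abs_of_pos hb, smul_eq_mul]
  field_simp

/-- the Cauchy kernel -/
def ck (w : ℂ) (t : ℝ) : ℂ := (Real.pi * I * (t - w))⁻¹

lemma ck_re {w : ℂ} (hw : 0 < w.im) (t : ℝ) : (ck w t).re = Real.pi⁻¹ * pk w.im w.re t := by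
  unfold ck pk
  rw [Complex.inv_re, Complex.normSq_apply]
  have hp := Real.pi_pos
  have hd : 0 < (t - w.re) ^ 2 + w.im ^ 2 := by positivity
  have h1 : ((Real.pi : ℂ) * I * ((t : ℂ) - w)).re = Real.pi * w.im := by
    simp
  have h2 : ((Real.pi : ℂ) * I * ((t : ℂ) - w)).im = Real.pi * (t - w.re) := by
    simp
  rw [h1, h2]
  have h3 : Real.pi * w.im * (Real.pi * w.im) + Real.pi * (t - w.re) * (Real.pi * (t - w.re)) =
      Real.pi ^ 2 * ((t - w.re) ^ 2 + w.im ^ 2) := by ring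
  rw [h3]
  field_simp

lemma im_le {w : ℂ} (t : ℝ) : w.im ≤ ‖(t : ℂ) - w‖ := by
  have h := Complex.abs_im_le_norm ((t : ℂ) - w)
  have h1 : ((t : ℂ) - w).im = -w.im := by simp
  rw [h1, abs_neg] at h
  exact (le_abs_self _).trans h

lemma ck_meas (w : ℂ) (hw : 0 < w.im) : Continuous (ck w) := by
  unfold ck
  apply Continuous.inv₀ (by fun_prop)
  intro t h
  have h1 := im_le (w := w) t
  rcases mul_eq_zero.1 h with h2 | h2
  · rcases mul_eq_zero.1 h2 with h3 | h3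
    · exact Real.pi_pos.ne' (by exact_mod_cast h3)
    · exact I_ne_zero h3
  · rw [h2, norm_zero] at h1
    linarith

lemma ck_norm {w : ℂ} (t : ℝ) {b : ℝ} (hb : 0 < b) (hbw : b ≤ w.im) : ‖ck w t‖ ≤ (Real.pi * b)⁻¹ := by
  unfold ck
  have hp := Real.pi_pos
  have h1 := im_le (w := w) t
  rw [norm_inv, norm_mul, norm_mul, norm_I, mul_one, Complex.norm_real, Real.norm_of_nonneg hp.le]
  apply inv_anti₀ (by positivity)
  gcongr
  linarith

variable {A : Set ℝ} {T : ℝ}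

/-- the Cauchy integral of the indicator function of `A` -/
def qq (A : Set ℝ) (w : ℂ) : ℂ := ∫ t in A, ck w t

lemma A_fin (hAT : A ⊆ Set.Icc 0 T) : volume A < ⊤ :=
  lt_of_le_of_lt (measure_mono hAT) (by rw [Real.volume_Icc]; exact ENNReal.ofReal_lt_top)

lemma ck_int (hAT : A ⊆ Set.Icc 0 T) {w : ℂ} (hw : 0 < w.im) : IntegrableOn (ck w) A := by
  have : IsFiniteMeasure (volume.restrict A) := ⟨by rw [Measure.restrict_apply_univ]; exact A_fin hAT⟩
  refine Integrable.mono' (integrable_const ((Real.pi * w.im)⁻¹)) (ck_meas w hw).aestronglyMeasurable ?_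
  exact Eventually.of_forall fun t => ck_norm t hw le_rfl

lemma qq_diff (hAT : A ⊆ Set.Icc 0 T) {w : ℂ} (hw : 0 < w.im) : DifferentiableAt ℂ (qq A) w := by
  have hfin : IsFiniteMeasure (volume.restrict A) := ⟨by rw [Measure.restrict_apply_univ]; exact A_fin hAT⟩
  have hp := Real.pi_pos
  have hball : ∀ z ∈ Metric.ball w (w.im / 2), w.im / 2 ≤ z.im := by
    intro z hz
    rw [Metric.mem_ball, Complex.dist_eq] at hz
    have h1 := Complex.abs_im_le_norm (z - w)
    rw [Complex.sub_im] at h1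
    have h2 := abs_le.1 (h1.trans hz.le)
    linarith [h2.1]
  have hne : ∀ z ∈ Metric.ball w (w.im / 2), ∀ t : ℝ, (Real.pi : ℂ) * I * ((t : ℂ) - z) ≠ 0 := by
    intro z hz t h
    have h0 := hball z hz
    have h1 := im_le (w := z) t
    rcases mul_eq_zero.1 h with h2 | h2
    · rcases mul_eq_zero.1 h2 with h3 | h3
      · exact hp.ne' (by exact_mod_cast h3)
      · exact I_ne_zero h3
    · rw [h2, norm_zero] at h1
      linarith
  have key := hasDerivAt_integral_of_dominated_loc_of_deriv_le (μ := volume.restrict A) (F := ck)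
    (x₀ := w) (s := Metric.ball w (w.im / 2)) (bound := fun _ => Real.pi * ((Real.pi * (w.im / 2))⁻¹) ^ 2)
    (F' := fun z t => (Real.pi * I) * (ck z t) ^ 2)
    (Metric.ball_mem_nhds w (by positivity)) ?_ (ck_int hAT hw) ?_ ?_ (integrable_const _) ?_
  · exact key.2.differentiableAt
  · filter_upwards [Metric.ball_mem_nhds w (show 0 < w.im / 2 by positivity)] with z hz
    exact (ck_meas z (by linarith [hball z hz])).aestronglyMeasurable
  · exact ((continuous_const.mul ((ck_meas w hw).pow 2))).aestronglyMeasurable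
  · refine Eventually.of_forall fun t z hz => ?_
    rw [norm_mul, norm_mul, norm_I, mul_one, Complex.norm_real, Real.norm_of_nonneg hp.le, norm_pow]
    gcongr
    exact ck_norm t (by positivity) (hball z hz)
  · refine Eventually.of_forall fun t z hz => ?_
    unfold ck
    have h1 : HasDerivAt (fun z : ℂ => (Real.pi : ℂ) * I * ((t : ℂ) - z)) ((Real.pi : ℂ) * I * (0 - 1)) z :=
      ((hasDerivAt_const z (t : ℂ)).sub (hasDerivAt_id z)).const_mul _
    have h2 := h1.inv (hne z hz t)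
    refine h2.congr_deriv ?_
    rw [inv_pow]
    field_simp
    ring

lemma qq_re (hAT : A ⊆ Set.Icc 0 T) {w : ℂ} (hw : 0 < w.im) :
    (qq A w).re = ∫ t in A, Real.pi⁻¹ * pk w.im w.re t := by
  unfold qq
  have h1 := (Complex.reCLM.integral_comp_comm (ck_int hAT hw))
  have h2 : (∫ t in A, ck w t).re = ∫ t in A, (ck w t).re := h1.symm
  rw [h2]
  congr 1
  funext t
  exact ck_re hw t

lemma qq_le_one (_hAm : MeasurableSet A) (hAT : A ⊆ Set.Icc 0 T) {w : ℂ} (hw : 0 < w.im) : (qq A w).re ≤ 1 := by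
  rw [qq_re hAT hw, integral_const_mul]
  obtain ⟨h1, h2⟩ := pk_int hw w.re
  have h3 : ∫ t in A, pk w.im w.re t ≤ ∫ t, pk w.im w.re t :=
    setIntegral_le_integral h1 (Eventually.of_forall fun t => pk_nonneg hw _ _)
  rw [h2] at h3
  have hp := Real.pi_pos
  calc Real.pi⁻¹ * ∫ t in A, pk w.im w.re t ≤ Real.pi⁻¹ * Real.pi := by gcongr
    _ = 1 := inv_mul_cancel₀ hp.ne'

lemma vol_le (hT : 0 < T) (hAT : A ⊆ Set.Icc 0 T) : (volume A).toReal ≤ T := by
  have h1 := measure_mono (μ := volume) hAT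
  rw [Real.volume_Icc, sub_zero] at h1
  have h2 := ENNReal.toReal_mono ENNReal.ofReal_ne_top h1
  rwa [ENNReal.toReal_ofReal hT.le] at h2

lemma qq_far (hT : 0 < T) (hAm : MeasurableSet A) (hAT : A ⊆ Set.Icc 0 T) {w : ℂ} (hw : 0 < w.im) {ρ : ℝ}
    (hρ : 0 < ρ) (hfar : ∀ s ∈ A, ρ ≤ |s - w.re|) : (qq A w).re ≤ w.im * T / ρ ^ 2 := by
  rw [qq_re hAT hw, integral_const_mul]
  have hfin : IsFiniteMeasure (volume.restrict A) := ⟨by rw [Measure.restrict_apply_univ]; exact A_fin hAT⟩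
  have h1 : ∫ t in A, pk w.im w.re t ≤ ∫ t in A, w.im / ρ ^ 2 := by
    apply setIntegral_mono_on (pk_int hw w.re).1.integrableOn (integrable_const _) hAm
    intro t ht
    unfold pk
    apply div_le_div_of_nonneg_left hw.le (by positivity)
    have h2 := hfar t ht
    have h3 : ρ ^ 2 ≤ (t - w.re) ^ 2 := by
      rw [← sq_abs (t - w.re)]
      gcongr
    nlinarith [sq_nonneg w.im]
  rw [integral_const, Measure.real, Measure.restrict_apply_univ, smul_eq_mul] at h1
  have h4 := vol_le hT hAT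
  have hp : Real.pi⁻¹ ≤ 1 := inv_le_one_of_one_le₀ (by linarith [Real.pi_gt_three])
  have h5 : 0 ≤ ∫ t in A, pk w.im w.re t := setIntegral_nonneg hAm fun t _ => pk_nonneg hw _ _
  calc Real.pi⁻¹ * ∫ t in A, pk w.im w.re t ≤ 1 * ∫ t in A, pk w.im w.re t := by gcongr
    _ ≤ (volume A).toReal * (w.im / ρ ^ 2) := by rw [one_mul]; exact h1
    _ ≤ T * (w.im / ρ ^ 2) := by gcongr
    _ = w.im * T / ρ ^ 2 := by ring

lemma qq_low (hT : 0 < T) (hAm : MeasurableSet A) (hAT : A ⊆ Set.Icc 0 T) {τ₀ b : ℝ} (hb : 0 < b)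
    (hτ : τ₀ ≤ (volume A).toReal) (_hτ0 : 0 < τ₀) {w : ℂ} (hw1 : w.re = 0) (hw2 : w.im = b) :
    Real.pi⁻¹ * (b / (T ^ 2 + b ^ 2) * τ₀) ≤ (qq A w).re := by
  have hw : 0 < w.im := by rw [hw2]; exact hb
  rw [qq_re hAT hw, integral_const_mul, hw1, hw2]
  have hfin : IsFiniteMeasure (volume.restrict A) := ⟨by rw [Measure.restrict_apply_univ]; exact A_fin hAT⟩
  have hp := Real.pi_pos
  have h1 : ∫ t in A, b / (T ^ 2 + b ^ 2) ≤ ∫ t in A, pk b 0 t := by
    apply setIntegral_mono_on (integrable_const _) (pk_int hb 0).1.integrableOn hAm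
    intro t ht
    unfold pk
    have h2 := hAT ht
    rw [Set.mem_Icc] at h2
    apply div_le_div_of_nonneg_left hb.le (by positivity)
    have h3 : (t - 0) ^ 2 ≤ T ^ 2 := by
      rw [sub_zero]
      exact pow_le_pow_left₀ h2.1 h2.2 2
    linarith
  rw [integral_const, Measure.real, Measure.restrict_apply_univ, smul_eq_mul] at h1
  have h4 : b / (T ^ 2 + b ^ 2) * τ₀ ≤ (volume A).toReal * (b / (T ^ 2 + b ^ 2)) := by
    rw [mul_comm]
    gcongr
  have h5 := h4.trans h1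
  gcongr

lemma le_sq' {a b : ℝ} (h : a ^ 2 ≤ b ^ 2) (hb : 0 ≤ b) : a ≤ b := (abs_le_of_sq_le_sq' h hb).2

lemma add_I_ge {ζ : ℂ} (hζ : 0 ≤ ζ.im) : (1 + ‖ζ‖) / 2 ≤ ‖ζ + I‖ := by
  have h1 : ‖ζ + I‖ ^ 2 = ‖ζ‖ ^ 2 + 2 * ζ.im + 1 := by
    rw [← Complex.normSq_eq_norm_sq, ← Complex.normSq_eq_norm_sq, Complex.normSq_apply, Complex.normSq_apply]
    simp
    ring
  have h2 : 0 ≤ ‖ζ‖ := norm_nonneg _
  apply le_sq' _ (norm_nonneg _)
  rw [h1]
  nlinarith [sq_nonneg (‖ζ‖ - 1)]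

lemma one_le_add_I {ζ : ℂ} (hζ : 0 ≤ ζ.im) : 1 ≤ ‖ζ + I‖ := by
  have h1 : ‖ζ + I‖ ^ 2 = ‖ζ‖ ^ 2 + 2 * ζ.im + 1 := by
    rw [← Complex.normSq_eq_norm_sq, ← Complex.normSq_eq_norm_sq, Complex.normSq_apply, Complex.normSq_apply]
    simp
    ring
  have h2 : 0 ≤ ‖ζ‖ := norm_nonneg _
  apply le_sq' _ (norm_nonneg _)
  rw [h1]
  nlinarith

end TWO

open TWO in
/-- two constants theorem in the half plane -/
theorem t_TWO : S_TWO := by
  intro K T τ₀ C ε hT hτ0 hC hε
  have hp := Real.pi_pos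
  obtain ⟨s, hs⟩ : ∃ s : ℝ, s = 1 / (4 * Real.pi) := ⟨_, rfl⟩
  have hs0 : 0 < s := by rw [hs]; positivity
  obtain ⟨c0, hc0⟩ : ∃ c0 : ℝ, c0 = Real.pi⁻¹ * (s / (T ^ 2 + (s + 1) ^ 2) * τ₀) := ⟨_, rfl⟩
  have hc00 : 0 < c0 := by rw [hc0]; positivity
  obtain ⟨M, hM⟩ : ∃ M : ℝ, M = max 1 (C * 2 ^ K * Real.exp 1) := ⟨_, rfl⟩
  have hM1 : 1 ≤ M := by rw [hM]; exact le_max_left _ _
  have hM2 : C * 2 ^ K * Real.exp 1 ≤ M := by rw [hM]; exact le_max_right _ _
  -- the exponent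
  obtain ⟨l, hl⟩ : ∃ l : ℝ, l = max 1 (Real.log (M * (1 + s) ^ K / ε) / c0) := ⟨_, rfl⟩
  have hl1 : 1 ≤ l := by rw [hl]; exact le_max_left _ _
  have hl2 : Real.log (M * (1 + s) ^ K / ε) ≤ l * c0 := by
    rw [← div_le_iff₀ hc00, hl]
    exact le_max_right _ _
  have hl0 : 0 < l := by linarith
  refine ⟨Real.exp (-l) / 2, by positivity, ?_⟩
  intro H A hH hHb hAm hAT hAτ hHA
  -- the function `F`
  obtain ⟨F, hF⟩ : ∃ F : ℂ → ℂ, F = fun ζ => ((ζ + I) ^ K)⁻¹ * H ζ := ⟨_, rfl⟩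
  have hcl : closure {ζ : ℂ | 0 < ζ.im} = {ζ : ℂ | 0 ≤ ζ.im} := Complex.closure_setOfPred_lt_im 0
  have hFb : ∀ ζ : ℂ, 0 ≤ ζ.im → ‖F ζ‖ ≤ C * 2 ^ K := by
    intro ζ hζ
    rw [hF]
    simp only
    rw [norm_mul, norm_inv, norm_pow]
    have h1 := add_I_ge hζ
    have h2 : 0 < 1 + ‖ζ‖ := by positivity
    have h3 : (0 : ℝ) < ‖ζ + I‖ ^ K := by
      apply pow_pos
      linarith
    rw [inv_mul_le_iff₀ h3]
    calc ‖H ζ‖ ≤ C * (1 + ‖ζ‖) ^ K := hHb ζ hζ
      _ ≤ C * (2 * ‖ζ + I‖) ^ K := by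
          gcongr
          linarith
      _ = ‖ζ + I‖ ^ K * (C * 2 ^ K) := by rw [mul_pow]; ring
  have hFle : ∀ ζ : ℂ, 0 ≤ ζ.im → ‖F ζ‖ ≤ ‖H ζ‖ := by
    intro ζ hζ
    rw [hF]
    simp only
    rw [norm_mul, norm_inv, norm_pow]
    have h1 : 1 ≤ ‖ζ + I‖ ^ K := one_le_pow₀ (one_le_add_I hζ)
    rw [inv_mul_le_iff₀ (by linarith)]
    nlinarith [norm_nonneg (H ζ)]
  have hFd : DiffContOnCl ℂ F {ζ | 0 < ζ.im} := by
    rw [hF]
    have h1 : DiffContOnCl ℂ (fun ζ : ℂ => ((ζ + I) ^ K)⁻¹) {ζ | 0 < ζ.im} := by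
      apply DifferentiableOn.diffContOnCl
      rw [hcl]
      intro ζ hζ
      apply DifferentiableAt.differentiableWithinAt
      apply DifferentiableAt.inv (by fun_prop)
      apply pow_ne_zero
      intro h
      have h2 := one_le_add_I (show 0 ≤ ζ.im from hζ)
      rw [h, norm_zero] at h2
      linarith
    exact h1.smul hH
  -- uniform continuity on the real line
  have hFc : ContinuousOn (fun t : ℝ => F t) (Set.Icc (-1) (T + 1)) := by
    have h1 : ContinuousOn F {ζ : ℂ | 0 ≤ ζ.im} := by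
      rw [← hcl]
      exact hFd.continuousOn
    exact h1.comp Complex.continuous_ofReal.continuousOn (fun t _ => by simp)
  have hUC := (isCompact_Icc (a := (-1 : ℝ)) (b := T + 1)).uniformContinuousOn_of_continuous hFc
  rw [Metric.uniformContinuousOn_iff] at hUC
  obtain ⟨ρ0, hρ0, hUC⟩ := hUC (Real.exp (-l) / 2) (by positivity)
  obtain ⟨ρ, hρ⟩ : ∃ ρ : ℝ, ρ = min ρ0 1 := ⟨_, rfl⟩
  have hρp : 0 < ρ := by rw [hρ]; exact lt_min hρ0 one_pos
  have hρ1 : ρ ≤ 1 := by rw [hρ]; exact min_le_right _ _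
  have hρ2 : ρ ≤ ρ0 := by rw [hρ]; exact min_le_left _ _
  have hnear : ∀ t : ℝ, ∀ a ∈ A, |t - a| < ρ → ‖F t‖ ≤ Real.exp (-l) := by
    intro t a ha hta
    have haT := hAT ha
    rw [Set.mem_Icc] at haT
    have h1 := abs_lt.1 hta
    have h2 := hUC t ⟨by linarith [h1.1], by linarith [h1.2]⟩ a ⟨by linarith, by linarith⟩ (by
      rw [Real.dist_eq]
      linarith)
    rw [dist_eq_norm] at h2
    have h3 : ‖F a‖ ≤ Real.exp (-l) / 2 := (hFle a (by simp)).trans (hHA a ha)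
    have h4 : ‖F t‖ ≤ ‖F t - F a‖ + ‖F a‖ := by
      have := norm_add_le (F t - F a) (F a)
      rwa [sub_add_cancel] at this
    linarith
  -- the height
  obtain ⟨h, hh⟩ : ∃ h : ℝ, h = min 1 (ρ ^ 2 / (T * l)) := ⟨_, rfl⟩
  have hh0 : 0 < h := by rw [hh]; exact lt_min one_pos (by positivity)
  have hh1 : h ≤ 1 := by rw [hh]; exact min_le_left _ _
  have hh2 : h * T / ρ ^ 2 ≤ 1 / l := by
    have h1 : h ≤ ρ ^ 2 / (T * l) := by rw [hh]; exact min_le_right _ _
    calc h * T / ρ ^ 2 ≤ ρ ^ 2 / (T * l) * T / ρ ^ 2 := by gcongr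
      _ = 1 / l := by field_simp
  -- the outer function
  obtain ⟨G, hG⟩ : ∃ G : ℂ → ℂ, G = fun ζ => F ζ * cexp (l * qq A (ζ + h * I)) := ⟨_, rfl⟩
  have him : ∀ ζ : ℂ, (ζ + (h : ℂ) * I).im = ζ.im + h := by intro ζ; simp
  have hre : ∀ ζ : ℂ, (ζ + (h : ℂ) * I).re = ζ.re := by intro ζ; simp
  have hGn : ∀ ζ : ℂ, ‖G ζ‖ = ‖F ζ‖ * Real.exp (l * (qq A (ζ + h * I)).re) := by
    intro ζ
    rw [hG]
    simp only
    rw [norm_mul, Complex.norm_exp, Complex.re_ofReal_mul]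
  have hGd : DiffContOnCl ℂ G {ζ | 0 < ζ.im} := by
    rw [hG]
    have h1 : DiffContOnCl ℂ (fun ζ : ℂ => cexp (l * qq A (ζ + h * I))) {ζ | 0 < ζ.im} := by
      apply DifferentiableOn.diffContOnCl
      rw [hcl]
      intro ζ hζ
      apply DifferentiableAt.differentiableWithinAt
      apply DifferentiableAt.cexp
      apply DifferentiableAt.const_mul
      have h2 : 0 < (ζ + (h : ℂ) * I).im := by
        rw [him]
        have : 0 ≤ ζ.im := hζ
        linarith
      have h3 : DifferentiableAt ℂ (fun z : ℂ => z + (h : ℂ) * I) ζ := by fun_prop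
      exact DifferentiableAt.comp (g := qq A) (f := fun z : ℂ => z + (h : ℂ) * I) ζ (qq_diff hAT h2) h3
    exact hFd.smul h1
  have hGb : ∀ ζ : ℂ, 0 ≤ ζ.im → ‖G ζ‖ ≤ C * 2 ^ K * Real.exp l := by
    intro ζ hζ
    rw [hGn]
    have h2 : 0 < (ζ + (h : ℂ) * I).im := by
      rw [him]
      linarith
    have h3 := qq_le_one hAm hAT h2
    gcongr
    · exact hFb ζ hζ
    · nlinarith
  have hGr : ∀ t : ℝ, ‖G t‖ ≤ M := by
    intro t
    rw [hGn]
    have h2 : 0 < ((t : ℂ) + (h : ℂ) * I).im := by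
      rw [him]
      simpa using hh0
    have h3 := qq_le_one hAm hAT h2
    by_cases hc : ∃ a ∈ A, |t - a| < ρ
    · obtain ⟨a, ha, hta⟩ := hc
      calc ‖F t‖ * Real.exp (l * (qq A (t + h * I)).re) ≤ Real.exp (-l) * Real.exp l := by
            gcongr
            · exact hnear t a ha hta
            · nlinarith
        _ = 1 := by rw [← Real.exp_add]; simp
        _ ≤ M := hM1
    · push Not at hc
      have h4 := qq_far hT hAm hAT h2 hρp (by
        intro a ha
        rw [hre, Complex.ofReal_re, abs_sub_comm]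
        exact hc a ha)
      rw [him, Complex.ofReal_im, zero_add] at h4
      have h5 : l * (qq A (t + h * I)).re ≤ 1 := by
        calc l * (qq A (t + h * I)).re ≤ l * (1 / l) := by
              gcongr
              linarith
          _ = 1 := by field_simp
      calc ‖F t‖ * Real.exp (l * (qq A (t + h * I)).re) ≤ C * 2 ^ K * Real.exp 1 := by
            gcongr
            exact hFb t (by simp)
        _ ≤ M := hM2
  -- Phragmen-Lindelöf
  have hPL : ∀ w : ℂ, 0 ≤ w.re → ‖G (I * w)‖ ≤ M := by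
    intro w hw
    have hImap : ∀ w : ℂ, (I * w).im = w.re := by intro w; simp
    refine PhragmenLindelof.right_half_plane_of_bounded_on_real (f := fun w => G (I * w)) (C := M) ?_ ?_ ?_ ?_ hw
    · have h1 : DiffContOnCl ℂ (fun w : ℂ => I * w) {w | 0 < w.re} :=
        (differentiable_id.const_mul I).diffContOnCl
      exact hGd.comp h1 (fun w hw => by
        show 0 < (I * w).im
        rw [hImap]
        exact hw)
    · refine ⟨1, by norm_num, 0, ?_⟩
      apply Asymptotics.IsBigO.of_bound (C * 2 ^ K * Real.exp l)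
      rw [eventually_inf_principal]
      refine Eventually.of_forall fun w hw => ?_
      have hw' : 0 < w.re := hw
      simp only [zero_mul, Real.exp_zero, norm_one, mul_one]
      apply hGb
      rw [hImap]
      exact hw'.le
    · refine ⟨C * 2 ^ K * Real.exp l, ?_⟩
      rw [eventually_map]
      filter_upwards [eventually_ge_atTop (0 : ℝ)] with x hx
      apply hGb
      rw [hImap]
      simpa using hx
    · intro x
      have h1 : I * ((x : ℂ) * I) = ((-x : ℝ) : ℂ) := by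
        rw [mul_comm (x : ℂ) I, ← mul_assoc, I_mul_I]
        push_cast
        ring
      show ‖G (I * ((x : ℂ) * I))‖ ≤ M
      rw [h1]
      exact hGr (-x)
  -- the value at the point
  have hpt : I / (4 * Real.pi) = I * ((s : ℝ) : ℂ) := by
    rw [hs]
    push_cast
    ring
  have h1 := hPL (s : ℂ) (by simpa using hs0.le)
  rw [hGn] at h1
  have hsim : (I * (s : ℂ)).im = s := by simp
  have hsre : (I * (s : ℂ)).re = 0 := by simp
  have h2 : c0 ≤ (qq A (I * s + h * I)).re := by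
    have h3 := qq_low (w := I * s + h * I) hT hAm hAT (show 0 < s + h by linarith) hAτ hτ0 (by
      rw [hre, hsre]) (by rw [him, hsim])
    refine le_trans ?_ h3
    rw [hc0]
    gcongr
    · linarith
  have h3 : ‖F (I * s)‖ * Real.exp (l * c0) ≤ M := by
    refine le_trans ?_ h1
    gcongr
  have h4 : ‖H (I * s)‖ ≤ ‖F (I * s)‖ * (1 + s) ^ K := by
    rw [hF]
    simp only
    have h5 : ‖I * (s : ℂ) + I‖ = 1 + s := by
      have : I * (s : ℂ) + I = ((1 + s : ℝ) : ℂ) * I := by push_cast; ring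
      rw [this, norm_mul, norm_I, mul_one, Complex.norm_real, Real.norm_of_nonneg (by linarith)]
    rw [norm_mul, norm_inv, norm_pow, h5]
    have h6 : (0 : ℝ) < (1 + s) ^ K := by positivity
    rw [mul_comm ((1 + s) ^ K)⁻¹, mul_assoc, inv_mul_cancel₀ h6.ne', mul_one]
  rw [hpt]
  have h5 : ‖H (I * s)‖ * Real.exp (l * c0) ≤ M * (1 + s) ^ K := by
    calc ‖H (I * s)‖ * Real.exp (l * c0) ≤ ‖F (I * s)‖ * (1 + s) ^ K * Real.exp (l * c0) := by gcongr
      _ = (‖F (I * s)‖ * Real.exp (l * c0)) * (1 + s) ^ K := by ring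
      _ ≤ M * (1 + s) ^ K := by gcongr
  have h6 : M * (1 + s) ^ K / ε ≤ Real.exp (l * c0) := by
    rw [← Real.log_le_iff_le_exp (by positivity)]
    exact hl2
  rw [div_le_iff₀ hε] at h6
  have h7 : 0 < Real.exp (l * c0) := Real.exp_pos _
  have h8 : ‖H (I * s)‖ * Real.exp (l * c0) ≤ ε * Real.exp (l * c0) := by linarith
  exact le_of_mul_le_mul_right h8 h7

end

end Pool.Agent.Q73.SO
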