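import Pool.Agent.Q73.SO.Stm
import Pool.Agent.Q73.SO.U
import Pool.Agent.Q149.SO.SM
import Pool.Agent.Q73.SO.COV
import Pool.Agent.Q73.SO.REN
import Pool.Agent.Q73.SO.MOY
import Pool.Agent.Q73.SO.DEC
import Pool.Agent.Q73.SO.GRO
import Pool.Agent.Q73.SO.HN
import Pool.Agent.Q73.SO.TWO
import Pool.Agent.Q73.SO.CORE
import Pool.Agent.Q73.SO.PIG
import Pool.Agent.Q73.SO.BARG
import Pool.Agent.Q73.SO.CLAIM
import Pool.Agent.Q73.SO.REP
import Pool.Agent.Q149.SO.FIN
import Pool.Agent.Q149.SO.DENS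

/-! All sixteen lemmas of the project in one module. -/

set_option autoImplicit false

namespace Pool.Agent.Q73.SO

theorem t_SM : S_SM := Pool.Agent.Q149.SO.t_SM
theorem t_FIN : S_FIN := Pool.Agent.Q149.SO.t_FIN
theorem t_DENS : S_DENS := Pool.Agent.Q149.SO.t_DENS

end Pool.Agent.Q73.SO
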