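import Mathlib

/-!
# Project SO: Schroedinger observability on `ℝ^d` from relatively dense observation functions

MP_0a8f24_an, Q1, affirmative answer: the Schroedinger equation on `ℝ^d` is observable (in every time
`T > 0`) from every uniformly continuous relatively dense `a : ℝ^d → [0, 1]`.

Notation: `g = gg` is the Gaussian `exp(-π|y|²)`, `V f (x, k) = ∫ f(y) e^{-2πi k·y} g(y - x) dy` the short
time Fourier transform, `W (x, k) f (y) = e^{2πi k·y} f(y - x)`, `U t` the Schroedinger evolution (the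
Fourier multiplier `e^{4π² i t |ξ|²}`), `Φ_t (x, k) = (x - 4πt k, k)`. Everything is done for Schwartz
functions; the last step (`S_DENS`) passes to `L²`.

Plan. Replace `a` by a smooth minorant with bounded derivatives (`S_SM`). By the Moyal identity (`S_MOY`)
`∫ obs = c ∫_0^T ‖a U(t) u‖² dt`, `∫ |V u|² = c ‖u‖²`. Main step (`S_CLAIM`): for some `n` the weighted
sup of `|V u|` is at most `n` times the weighted sup of `obs^{1/2}`. If not, renormalise at a near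
maximal point (`S_COV`, `S_REN`): `v_n` with `|V v_n(z)| ≤ (1+|z|/n)^m`, `|V v_n(0)| ≥ 1/2`, tiny `obs`
for the observation functions `b_n(t, y) = a(y + p_n - 4πt q_n)`. For a set `τ` of times of measure
`≥ τ₀` the function `b_n(t)` is `≥ η/2` on a fixed small ball (`S_PIG`), so `⟨U(t) v_n, θ⟩` is small in
`L²(τ)` for all `θ` supported in the ball (`S_CORE`). It is the boundary value of a holomorphic function
in the half plane with polynomial bounds (`S_HN`), so by the two constants theorem (`S_TWO`) it is small at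
`i/(4π)`, where it equals `∫ V v_n(y, 0) conj θ(y) dy`. By analyticity (`S_BARG`) `V v_n (0,0) → 0`, a
contradiction.
-/

set_option autoImplicit false
open MeasureTheory Filter Topology Complex
open scoped ContDiff FourierTransform SchwartzMap ComplexConjugate

namespace Pool.Agent.Q73.SO

noncomputable section

/-- `ℝ^d` -/
abbrev E (d : ℕ) := EuclideanSpace ℝ (Fin d)

variable {d : ℕ}

/-- the Gaussian window -/
def gg (y : E d) : ℝ := Real.exp (-Real.pi * ‖y‖ ^ 2)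

/-- the square of the `L²` norm of the window -/
def cg (d : ℕ) : ℝ := ∫ y : E d, gg y ^ 2

/-- the symbol `e^{4π² i t |ξ|²}` of `e^{-itΔ}` -/
def sym (t : ℝ) (ξ : E d) : ℂ := cexp (((4 * Real.pi ^ 2 * t * ‖ξ‖ ^ 2 : ℝ) : ℂ) * I)

/-- the evolution `U(t) = e^{-itΔ}` on Schwartz functions -/
def U (t : ℝ) (u : 𝓢(E d, ℂ)) : 𝓢(E d, ℂ) := 𝓕⁻ (SchwartzMap.smulLeftCLM ℂ (sym t) (𝓕 u))

/-- the character `e^{2πi k·y}` -/
def chr (k y : E d) : ℂ := cexp (((2 * Real.pi * inner ℝ k y : ℝ) : ℂ) * I)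

/-- the phase space translation `W(x,k) f (y) = e^{2πi k·y} f(y - x)` -/
def W (x k : E d) (f : 𝓢(E d, ℂ)) : 𝓢(E d, ℂ) :=
  SchwartzMap.smulLeftCLM ℂ (chr k) (SchwartzMap.compSubConstCLM ℂ x f)

/-- the short time Fourier transform -/
def V (f : E d → ℂ) (x k : E d) : ℂ := ∫ y, f y * conj (chr k y) * (gg (y - x) : ℂ)

/-- the pairing `∫ f conj h` -/
def pr (f h : E d → ℂ) : ℂ := ∫ y, f y * conj (h y)

/-- the weight `1 + |x| + |k|` -/
def nz (x k : E d) : ℝ := 1 + ‖x‖ + ‖k‖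

/-- the local observation at the phase space point `(x, k)`, for the observation function
`b(t, y) = a(y + p - 4πt q)` -/
def obs (T : ℝ) (a : E d → ℝ) (p q : E d) (v : 𝓢(E d, ℂ)) (x k : E d) : ℝ :=
  ∫ t in (0 : ℝ)..T, ‖V (fun y => (a (y + p - (4 * Real.pi * t) • q) : ℂ) * U t v y)
    (x - (4 * Real.pi * t) • k) k‖ ^ 2

/-- `a` is smooth, with values in `[0,1]` and bounded derivatives of all orders -/
structure Bd (a : E d → ℝ) : Prop where
  smooth : ContDiff ℝ ∞ a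
  nonneg : ∀ x, 0 ≤ a x
  le_one : ∀ x, a x ≤ 1
  bound : ∀ k : ℕ, ∃ B : ℝ, ∀ x, ‖iteratedFDeriv ℝ k a x‖ ≤ B

/-- the closed cube of side `L` with lower corner `c` -/
def cube (c : E d) (L : ℝ) : Set (E d) := {z | ∀ i, c i ≤ z i ∧ z i ≤ c i + L}

/-- `a` is relatively dense with constants `L`, `η` -/
def RD (L η : ℝ) (a : E d → ℝ) : Prop := ∀ c : E d, η ≤ (L ^ d)⁻¹ * ∫ z in cube c L, a z

/-- (SM, smooth minorant.) A uniformly continuous relatively dense `a : ℝ^d → [0,1]` has a relatively dense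
minorant `a'` with values in `[0,1]` and bounded derivatives.
Proof: let `0 < δ` with `|a(x) - a(y)| ≤ η/4` for `|x-y| ≤ δ`, `f = max(a - η/4, 0)` (continuous,
`0 ≤ f ≤ 1`), `ρ` a smooth nonnegative bump supported in the ball of radius `δ` with integral `1`
(`ContDiffBump.normed`) and `a' = f * ρ`, `a'(x) = ∫ f(x-y) ρ(y) dy`. Then `0 ≤ a'(x) ≤ max(a(x),0) = a(x)`
(for `|y| ≤ δ`: `f(x-y) ≤ max(a(x) + η/4 - η/4, 0)`). Derivatives: `a'(x) = ∫ f(y) ρ(x-y) dy`, so the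
`k`-th derivative is bounded by `∫ ‖D^k ρ‖` (e.g. by induction, `HasCompactSupport.contDiff_convolution_right`,
`HasCompactSupport.hasFDerivAt_convolution_right`, or bound the derivative of the convolution of the bounded
function `f` with any compactly supported smooth function with values in a normed space). Relative density with
the same `L` and `η/2`: the mean of `a'` over a cube `Q` is `∫ ρ(y) (mean of f over Q - y) dy ≥ η - η/4`
(Fubini). (If `d = 0` everything is trivial, but the same proof works.) -/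
def S_SM : Prop := ∀ (d : ℕ) (a : E d → ℝ) (L η : ℝ), 0 < L → 0 < η → UniformContinuous a →
  (∀ x, 0 ≤ a x ∧ a x ≤ 1) → RD L η a →
  ∃ a' : E d → ℝ, Bd a' ∧ (∀ x, a' x ≤ a x) ∧ RD L (η / 2) a'

/-- (U, the evolution.) Basic facts on the symbol, the evolution and the phase space translations.
`sym t`, `chr k` have temperate growth (bounded derivatives up to polynomial growth:
`Function.HasTemperateGrowth`, e.g. composition of `t ↦ exp(it)`, all of whose derivatives are bounded, with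
`‖ξ‖²` resp. a linear form: `Function.HasTemperateGrowth.comp`, `hasTemperateGrowth_norm_sq`), so
`SchwartzMap.smulLeftCLM_apply_apply` applies. The inner products: Plancherel for Schwartz functions
(`SchwartzMap.integral_sesq_fourier_fourier`) and `|sym| = 1`. -/
def S_U : Prop := ∀ (d : ℕ), (∀ t : ℝ, Function.HasTemperateGrowth (sym (d := d) t)) ∧
  (∀ k : E d, Function.HasTemperateGrowth (chr k)) ∧
  (∀ (t : ℝ) (u : 𝓢(E d, ℂ)) (ξ : E d), 𝓕 (U t u) ξ = sym t ξ * 𝓕 u ξ) ∧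
  (∀ (x k : E d) (f : 𝓢(E d, ℂ)) (y : E d), W x k f y = chr k y * f (y - x)) ∧
  (∀ (f h : 𝓢(E d, ℂ)), pr f h = pr (𝓕 f : 𝓢(E d, ℂ)) (𝓕 h : 𝓢(E d, ℂ))) ∧
  (∀ (t : ℝ) (f h : 𝓢(E d, ℂ)), pr (U t f) h = pr f (U (-t) h)) ∧
  (∀ (t : ℝ) (f : 𝓢(E d, ℂ)), ∫ y, ‖U t f y‖ ^ 2 = ∫ y, ‖f y‖ ^ 2) ∧
  (∀ (t s : ℝ) (f : 𝓢(E d, ℂ)), U t (U s f) = U (t + s) f)

/-- (COV, covariance.) `U(t) W(x,k) = e^{4π² i t |k|²} W(x - 4πt k, k) U(t)` and
`|V (W(x',k') f)(x,k)| = |V f (x-x', k-k')|`; more generally for the function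
`y ↦ c(y) (W(x',k')f)(y)` with any `c : ℝ^d → ℂ`.
Proof. `𝓕 (W(x,k) f)(ξ) = e^{-2πi (ξ-k)·x} (𝓕 f)(ξ-k)` (substitution). With `ξ = η + k`,
`|ξ|² = |η|² + 2 η·k + |k|²`, both sides of the first identity have the Fourier transform
`e^{4π² i t (|η|² + 2 η·k + |k|²)} e^{-2πi η·x} (𝓕 f)(η)`; use injectivity of `𝓕` on Schwartz functions.
For the second one substitute `y = y' + x'` in the integral:
`∫ c(y) e^{2πi k'·y} f(y-x') e^{-2πi k·y} g(y-x) dy = e^{2πi(k'-k)·x'} ∫ c(y'+x') f(y') e^{-2πi(k-k')·y'} g(y'-(x-x')) dy'`. -/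
def S_COV : Prop := S_U → ∀ (d : ℕ), (∀ (t : ℝ) (x k : E d) (f : 𝓢(E d, ℂ)),
    U t (W x k f) = cexp (((4 * Real.pi ^ 2 * t * ‖k‖ ^ 2 : ℝ) : ℂ) * I) •
      W (x - (4 * Real.pi * t) • k) k (U t f)) ∧
  (∀ (c : E d → ℂ) (x' k' : E d) (f : 𝓢(E d, ℂ)) (x k : E d),
    ‖V (fun y => c y * W x' k' f y) x k‖ = ‖V (fun y => c (y + x') * f y) (x - x') (k - k')‖)

/-- (REN, renormalisation of the observation.)
Proof: by `S_COV`, `U(t) W(p,q) v = phase · W(p - 4πt q, q) U(t) v`, and the second part of `S_COV` with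
`c = a`, `x' = p - 4πt q`, `k' = q` at the point `(x - 4πt k, k)`. -/
def S_REN : Prop := S_U → S_COV → ∀ (d : ℕ) (T : ℝ) (a : E d → ℝ) (p q : E d) (v : 𝓢(E d, ℂ)) (x k : E d),
  obs T a 0 0 (W p q v) x k = obs T a p q v (x - p) (k - q)

/-- (MOY, Moyal's identity for Schwartz functions.)
Proof: for fixed `x` the function `k ↦ V f x k` is the Fourier transform of `f · g(· - x)` (Schwartz), so
`∫ V f x k conj (V h x k) dk = ∫ f(y) conj (h(y)) g(y-x)² dy` (Parseval); integrate over `x` (Fubini,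
`∫ g(y-x)² dx = cg d`). Integrability of the product on `E × E`: first for `f = h` (Tonelli, the same
computation with `lintegral`), then `|V f V h| ≤ |V f|² + |V h|²`; measurability (continuity) of `V f`. -/
def S_MOY : Prop := ∀ (d : ℕ), 0 < cg d ∧ ∀ (f h : 𝓢(E d, ℂ)),
  Continuous (fun z : E d × E d => V f z.1 z.2) ∧
  Integrable (fun z : E d × E d => V f z.1 z.2 * conj (V h z.1 z.2)) (volume.prod volume) ∧
  (∫ z : E d × E d, V f z.1 z.2 * conj (V h z.1 z.2) ∂(volume.prod volume)) = (cg d : ℂ) * pr f h ∧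
  Integrable (fun z : E d × E d => ‖V f z.1 z.2‖ ^ 2) (volume.prod volume) ∧
  (∫ z : E d × E d, ‖V f z.1 z.2‖ ^ 2 ∂(volume.prod volume)) = cg d * ∫ y, ‖f y‖ ^ 2

/-- (DEC, decay of the short time Fourier transform.) `(1+|x|+|k|)^M |V χ (x,k)|` is bounded by a Schwartz
seminorm of `χ`.
Proof: `V χ x k` is the Fourier transform at `k` of the Schwartz function `y ↦ χ(y) g(y-x)`. For the power of
`k`: `(2π|k|)^M |𝓕 F (k)| ≤ C Σ_{j ≤ M} ∫ ‖D^j F‖` (e.g. `Real.pow_mul_norm_iteratedFDeriv_fourier_le` or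
the `SchwartzMap` version) and by Leibniz
`‖D^j F(y)‖ ≤ C Σ_{i ≤ j} ‖D^i χ(y)‖ ‖D^{j-i} g (y-x)‖ ≤ C' p(χ) (1+|y|)^{-M-d-1} (1+|y-x|)^{-M}
≤ C' p(χ) (1+|x|)^{-M} (1+|y|)^{-d-1}` (`(1+|x|) ≤ (1+|y|)(1+|y-x|)`), all derivatives of `g` are rapidly
decreasing. Then `(1+|x|+|k|)^M ≤ (1+|x|)^M (1+|k|)^M`. -/
def S_DEC : Prop := ∀ (d M : ℕ), ∃ (C : ℝ) (K : ℕ), 0 < C ∧ ∀ (χ : 𝓢(E d, ℂ)) (x k : E d),
  nz x k ^ M * ‖V χ x k‖ ≤ C * ((Finset.Iic (K, K)).sup (schwartzSeminormFamily ℝ (E d) ℂ)) χ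

/-- (GRO, propagation of growth bounds.)
Proof: let `G` be the Schwartz function `g`. `V f x k = pr f (W x k G)` and `V (U t v) x k = pr (U t v) (W x k G)
= pr v (U (-t) (W x k G)) = phase · pr v (W (x + 4πt k) k (U (-t) G))` (`S_U`, `S_COV`). By `S_MOY`
`|pr v h| ≤ (cg d)⁻¹ ∫ |V v| |V h|`, and `|V (W z₀ F)(z)| = |V F (z - z₀)|` (`S_COV` with `c = 1`). So
`|V (U t v)(x,k)| ≤ (cg d)⁻¹ A ∫ nz(z + z₀)^m |V (U (-t) G)(z)| dz`, `z₀ = (x + 4πt k, k)`,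
`nz(z + z₀) ≤ nz(z) nz(z₀)`, `nz(z₀) ≤ C (1+|t|) nz(x,k)`. Finally, by Plancherel and a Gaussian integral,
`V (U s G)(x,k) = ∫ e^{4π² i s |ξ|²} e^{-π|ξ|²} e^{2πi(ξ-k)·x} e^{-π|ξ-k|²} dξ`, whose modulus is
`|2 - 4πis|^{-d/2} exp(-π (2|k|² + |4πs k + x|² + |x|²)/(4 + 16π²s²))
≤ exp(-π (|x|² + 2|k|²)/(4+16π²s²))` up to the sign of `s` (Gaussian integrals:
`GaussianFourier.integral_cexp_neg_mul_sum_add` with complex linear terms). So
`∫ nz^m |V (U s G)| ≤ C (1+|s|)^K`. (Any other proof of a bound `‖V (U s G)(z)‖ ≤ C (1+|s|)^K nz(z)^{-M}` is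
fine too, e.g. `S_DEC` and bounds of Schwartz seminorms of `𝓕⁻ (sym s · 𝓕 G)`.) -/
def S_GRO : Prop := S_U → S_COV → S_MOY → S_DEC → ∀ (d m : ℕ), ∃ (C : ℝ) (K : ℕ), 0 < C ∧
  ∀ (A : ℝ) (v : 𝓢(E d, ℂ)), 0 ≤ A → (∀ x k, ‖V v x k‖ ≤ A * nz x k ^ m) →
    ∀ (t : ℝ) (x k : E d), ‖V (U t v) x k‖ ≤ C * A * (1 + |t|) ^ K * nz x k ^ m

/-- (HN, the holomorphic function.)
Proof: `H(ζ) = ∫ e^{4π² i ζ |ξ|²} 𝓕 v (ξ) conj (𝓕 θ (ξ)) dξ`, for `Im ζ ≥ 0` (the exponential is bounded by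
`1`): continuous on the closed half plane (dominated convergence), holomorphic inside (differentiate under the
integral, or Morera), bounded; `H(t) = pr (U t v) θ` by Parseval (`S_U`). On the real axis:
`|pr (U t v) θ| ≤ (cg d)⁻¹ ∫ |V (U t v)| |V θ| ≤ C (1+|t|)^K p(θ)` by `S_MOY`, `S_GRO` (with `A = 1`) and
`S_DEC` (with `M = m + 2d + 1`; `∫ nz^{-2d-1} < ∞`). The function `H(ζ)/(ζ+i)^K` is bounded in the half plane and
bounded by `C 2^K p(θ)` on the real axis, so everywhere (Phragmén-Lindelöf, rotate to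
`PhragmenLindelof.right_half_plane_of_bounded_on_real`). Value at `i/(4π)`: `∫ e^{-π|ξ|²} 𝓕 v conj (𝓕 θ)`,
`e^{-π|ξ|²} 𝓕 v` is the Fourier transform of `v * g = V v (·, 0)` (g is even, and it is its own Fourier
transform: `fourier_gaussian_innerProductSpace`, convolution theorem; or write `𝓕 v` as an integral and use
Fubini). -/
def S_HN : Prop := S_U → S_COV → S_MOY → S_DEC → S_GRO → ∀ (d m : ℕ), ∃ (C : ℝ) (K K' : ℕ), 0 < C ∧
  ∀ (v θ : 𝓢(E d, ℂ)), (∀ x k, ‖V v x k‖ ≤ nz x k ^ m) →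
    ∃ H : ℂ → ℂ, DiffContOnCl ℂ H {ζ | 0 < ζ.im} ∧ (∀ t : ℝ, H t = pr (U t v) θ) ∧
      (∀ ζ : ℂ, 0 ≤ ζ.im → ‖H ζ‖ ≤ C * (1 + ‖ζ‖) ^ K *
        ((Finset.Iic (K', K')).sup (schwartzSeminormFamily ℝ (E d) ℂ)) θ) ∧
      H (I / (4 * Real.pi)) = ∫ y, V v y 0 * conj (θ y)

/-- (TWO, two constants theorem in the half plane.)
Proof: let `F(ζ) = H(ζ)/(ζ+i)^{K+1}` (`|ζ+i| ≥ (1+|ζ|)/√2·...≥ c(1+|ζ|)` for `Im ζ ≥ 0`), continuous and bounded by `M`
on the closed half plane, tending to `0` at infinity, `|F| ≤ δ` on `A`. By the Cayley map `ζ = i s (1+w)/(1-w)`,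
`s = 1/(4π)`, `f(w) = F(ζ)`, `f(1) = 0`, is continuous on the closed disc, holomorphic inside and
`log|f(0)| ≤ (1/2π) ∫ log|f(e^{iφ})| dφ` (for `f(0) ≠ 0`; Jensen on the circles of radius `r < 1`:
`circleAverage` of `log ‖f‖` is at least `log ‖f 0‖`, Mathlib's Jensen formula
`MeromorphicOn.circleAverage_log_norm`, and `r → 1` with Fatou for `log max(|f|, ε)`, which is continuous); the
set on the circle that corresponds to `A ⊂ [0,T]` has measure `≥ c(T) |A| ≥ c τ₀`. So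
`log|f(0)| ≤ log⁺ M + c τ₀ log max(δ,...)`, which tends to `-∞` as `δ → 0`. (Alternatively: harmonic measure via the
Poisson kernel. The two constants theorem for the disc may already be in the repository, e.g. grep two_const.) -/
def S_TWO : Prop := ∀ (K : ℕ) (T τ₀ C ε : ℝ), 0 < T → 0 < τ₀ → 0 < C → 0 < ε → ∃ δ : ℝ, 0 < δ ∧
  ∀ (H : ℂ → ℂ) (A : Set ℝ), DiffContOnCl ℂ H {ζ | 0 < ζ.im} →
    (∀ ζ : ℂ, 0 ≤ ζ.im → ‖H ζ‖ ≤ C * (1 + ‖ζ‖) ^ K) → MeasurableSet A → A ⊆ Set.Icc 0 T →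
    τ₀ ≤ (volume A).toReal → (∀ t ∈ A, ‖H t‖ ≤ δ) → ‖H (I / (4 * Real.pi))‖ ≤ ε

/-- (CORE.) Smallness of `⟨U(t) v, θ⟩` in `L²(τ)`, if the observation is small and the observation function is at
least `η` on the support of `θ` for `t ∈ τ`.
Proof: let `F : ℝ → ℝ` be smooth with `F(s) = 1/s` for `s ≥ η`, and bounded derivatives on `[0,1]` (e.g. `F` smooth on
`ℝ`, restricted to the compact `[0,1]`). With `b_t(y) = a(y + p - 4πt q)` put `ψ_t = θ F(b_t)`: Schwartz, and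
`b_t ψ_t = θ` for `t ∈ τ` (on the support of `θ`, `b_t ≥ η`). The Schwartz seminorms of `ψ_t` are bounded
independently of `t, p, q` (Leibniz `norm_iteratedFDeriv_mul_le`, composition `norm_iteratedFDeriv_comp_le`,
derivatives of a translate). So by `S_DEC` `|V ψ_t (z)| ≤ C nz(z)^{-M}`. For `t ∈ τ`
`pr (U t v) θ = pr (b_t U t v) ψ_t` and by `S_MOY` (`b_t U t v` is a Schwartz function) and Cauchy-Schwarz
`|pr (U t v) θ|² ≤ (cg d)⁻² C ∫ |V (b_t U t v)(z)|² nz(z)^{-M} dz` (`M` large). Substitute `z = Φ_t z'`, which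
preserves the measure, with `nz(z') ≤ C_T nz(Φ_t z')` for `t ∈ [0,T]`:
`≤ C' ∫ |V (b_t U t v)(Φ_t z')|² nz(z')^{-M} dz'`. Integrate over `t ∈ [0,T]` and use Tonelli:
`≤ C' ∫ obs(z') nz(z')^{-M} dz' ≤ C' ε² ∫ nz^{2m-M}`. (Joint measurability: everything is continuous in
`(t, z')`.) -/
def S_CORE : Prop := S_U → S_MOY → S_DEC → ∀ (d m : ℕ) (T η : ℝ) (a : E d → ℝ) (θ : 𝓢(E d, ℂ)), 0 < T → 0 < η →
  Bd a → HasCompactSupport θ → ∃ C : ℝ, 0 < C ∧
  ∀ (p q : E d) (v : 𝓢(E d, ℂ)) (ε : ℝ) (τ : Set ℝ), 0 ≤ ε → MeasurableSet τ → τ ⊆ Set.Icc 0 T →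
    (∀ x k, obs T a p q v x k ≤ ε ^ 2 * nz x k ^ (2 * m)) →
    (∀ t ∈ τ, ∀ y ∈ tsupport θ, η ≤ a (y + p - (4 * Real.pi * t) • q)) →
    IntegrableOn (fun t => ‖pr (U t v) θ‖ ^ 2) τ ∧
    ∫ t in τ, ‖pr (U t v) θ‖ ^ 2 ≤ C * ε ^ 2

/-- (PIG, pigeonhole.) For a relatively dense Lipschitz `a` there are finitely many balls such that for all
translations `p`, velocities `q`, one of the balls is good for a set of times of measure `≥ τ₀`.
Proof: `a` is Lipschitz with a constant `Λ` (first derivative bounded). Let `r > 0` with `2rΛ ≤ η/2`, and cover the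
compact cube `cube 0 L` by the balls of radius `r` with centres in a finite set `P`. For each `t`, the mean of
`y ↦ a(y + p - 4πt q)` over `cube 0 L` is at least `η`, so at some point `y` of the cube it is `≥ η`
(if it is `< η` on the cube, the mean is `< η`; the cube has volume `L^d`), and for `p₀ ∈ P` with `|y - p₀| ≤ r` it is
`≥ η/2` on the closed ball of radius `r` around `p₀`. So `[0,T]` is the union of the finitely many sets
`τ_{p₀} = {t ∈ [0,T] : η/2 ≤ a(y + p - 4πt q) for all y in the closed ball}`, which are closed (intersection of closed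
sets), and one of them has measure at least `T / |P|`. -/
def S_PIG : Prop := ∀ (d : ℕ) (T L η : ℝ) (a : E d → ℝ), 0 < T → 0 < L → 0 < η → Bd a → RD L η a →
  ∃ (P : Finset (E d)) (r τ₀ : ℝ), 0 < r ∧ 0 < τ₀ ∧ ∀ p q : E d, ∃ p₀ ∈ P, ∃ τ : Set ℝ, MeasurableSet τ ∧
    τ ⊆ Set.Icc 0 T ∧ τ₀ ≤ (volume τ).toReal ∧
    ∀ t ∈ τ, ∀ y ∈ Metric.closedBall p₀ r, η / 2 ≤ a (y + p - (4 * Real.pi * t) • q)

/-- (BARG.) If `V v_n (·, 0)` tends weakly to `0` on a ball then `V v_n (0, 0) → 0`.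
Proof. For `y, e ∈ ℝ^d` the function `f_n(ζ) = ∫ v_n(w) exp(-π Σ_j (w_j - y_j - ζ e_j)²) dw` is entire in `ζ`
(the exponent is `-π|w-y|² + 2πζ e·(w-y) - πζ²|e|²`; `v_n` is Schwartz) with `f_n(α) = V v_n (y + αe, 0)` for real `α` and
`|f_n(α + iβ)| = e^{πβ²|e|²} |V v_n (y + αe, ∓βe)| ≤ e^{πβ²|e|²} nz(..)^m`: bounded on compact sets uniformly in `n`.
(1) So `y ↦ V v_n (y,0)` is Lipschitz on bounded sets, uniformly in `n` (Cauchy estimates). Testing with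
normalised bumps `θ_δ(· - y)` (`ContDiffBump`, support in the small ball): `limsup |V v_n (y,0)| ≤ C δ`, so
`V v_n (y,0) → 0` for all `y` in the open ball around `p₀`. (2) Take `y₁` in the ball and `f_n(ζ)` for `y = 0`, `e = y₁`:
bounded by `C` for `|ζ| ≤ 4`, and `f_n(ζ) → 0` for real `ζ` near `1`. The Taylor coefficients `a_{n,j}` of `f_n` at `1`
satisfy `|a_{n,j}| ≤ C 3^{-j}` and tend to `0` by induction on `j` (divide by `h^j`, error `O(h)`), so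
`f_n(0) = Σ_j a_{n,j} (-1)^j → 0` (dominated convergence for series, `tendsto_tsum_of_dominated_convergence`).
`f_n(0) = V v_n (0,0)`. -/
def S_BARG : Prop := ∀ (d m : ℕ) (p₀ : E d) (r : ℝ) (v : ℕ → 𝓢(E d, ℂ)), 0 < r →
  (∀ n x k, ‖V (v n) x k‖ ≤ nz x k ^ m) →
  (∀ θ : 𝓢(E d, ℂ), HasCompactSupport θ → tsupport θ ⊆ Metric.closedBall p₀ r →
    Tendsto (fun n => ∫ y, V (v n) y 0 * conj (θ y)) atTop (𝓝 0)) →
  Tendsto (fun n => V (v n) 0 0) atTop (𝓝 0)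

/-- the weight `(1 + (|x| + |k|)/n)` -/
def wn (n : ℕ) (x k : E d) : ℝ := 1 + (‖x‖ + ‖k‖) / n

/-- the main step: the weighted sup of `|V u|` is bounded by `n` times the weighted sup of the root of the observation -/
def CL : Prop := ∀ (d m : ℕ) (T L η : ℝ) (a : E d → ℝ), 0 < T → 0 < L → 0 < η → Bd a → RD L η a →
  ∃ n : ℕ, 0 < n ∧ ∀ (u : 𝓢(E d, ℂ)) (x₀ k₀ : E d) (S : ℝ), 0 ≤ S →
    (∀ x k, obs T a 0 0 u x k ≤ S ^ 2 * wn n (x - x₀) (k - k₀) ^ (2 * m)) →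
    ∀ x k, ‖V u x k‖ ≤ n * S * wn n (x - x₀) (k - k₀) ^ m

/-- (CLAIM, assembly of the contradiction argument.)
Proof. Suppose that for every `n ≥ 1` there are `u_n`, `x₀, k₀`, `S` violating the conclusion. Let `Q(x,k) = ‖V u_n x k‖ /
wn n (x-x₀) (k-k₀)^m` (bounded because `V u_n` is bounded, not identically zero), `A = sup Q > n S`, and `(p,q)` a point with
`Q(p,q) ≥ A/2` and `Q(p, q) > n S`... (choose `Q(p,q) ≥ max(A/2, ...)`; it suffices to have `Q(p,q) ≥ A/2` and `A ≥ n S`).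
Let `D = A · wn n (p-x₀) (q-k₀)^m > 0` and `v_n = D⁻¹ • W (-p) (-q) u_n` up to a phase, so that
`u_n = phase · D • W p q v_n`. By `S_COV`, `‖V v_n x k‖ = D⁻¹ ‖V u_n (x+p) (k+q)‖ ≤ (wn n (x + p - x₀) (k + q - k₀) / wn n (p-x₀) (q-k₀))^m
≤ wn n x k ^ m ≤ nz x k ^ m` and `‖V v_n 0 0‖ ≥ 1/2`; by `S_REN` (and homogeneity of `obs` under multiplication by scalars)
`obs T a p q v_n x k = D⁻² obs T a 0 0 u_n (x+p) (k+q) ≤ D⁻² S² wn(..)^{2m} ≤ n⁻² wn n x k^{2m} ≤ n⁻² nz x k^{2m}`.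
By `S_PIG` there are a ball centre `p₀ ∈ P` and sets of times `τ_n`; pass to a subsequence along which `p₀` is constant.
For `θ` supported in the closed ball, `S_CORE` gives `∫_{τ_n} |pr (U t v_n) θ|² ≤ C n⁻²`, so (Chebyshev)
`|pr (U t v_n) θ| ≤ δ` on a subset of `τ_n` of measure `≥ τ₀/2` if `n` is large. `S_HN` and `S_TWO` give
`∫ V v_n(y,0) conj θ(y) dy → 0`, `S_BARG` gives `V v_n 0 0 → 0`: a contradiction. -/
def S_CLAIM : Prop := S_U → S_COV → S_REN → S_MOY → S_DEC → S_GRO → S_HN → S_TWO → S_CORE → S_PIG → S_BARG → CL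

/-- (REP, local boundedness of the observation.)
Proof: for a Schwartz function `f`, `V f z = pr f (W z G)` (`G` the Schwartz function `g`), so by `S_MOY` and `S_COV`
`|V f z| ≤ (cg d)⁻¹ ∫ |V f z'| |V G (z'-z)| dz'`, and `|V f z|² ≤ C ∫ |V f z'|² |V G (z'-z)| dz'` (Cauchy-Schwarz,
`∫ |V G| < ∞` by `S_DEC`). Apply it to `f = b_t U t v` at `Φ_t z`, substitute `z' = Φ_t z''` (measure preserving):
`|V f (Φ_t z)|² ≤ C ∫ |V f (Φ_t z'')|² |V G (Φ_t (z''-z))| dz''` with `|V G (Φ_t z)| ≤ C_M nz(z)^{-M}` for `t ∈ [0,T]`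
(`S_DEC`, `nz(z) ≤ C_T nz(Φ_t z)`). Integrate over `t` (Tonelli). -/
def S_REP : Prop := S_U → S_COV → S_MOY → S_DEC → ∀ (d M : ℕ) (T : ℝ) (a : E d → ℝ), 0 < T → Bd a → ∃ C : ℝ, 0 < C ∧
  ∀ (u : 𝓢(E d, ℂ)), Continuous (fun z : E d × E d => obs T a 0 0 u z.1 z.2) ∧
    Integrable (fun z : E d × E d => obs T a 0 0 u z.1 z.2) (volume.prod volume) ∧
    (∫ z : E d × E d, obs T a 0 0 u z.1 z.2 ∂(volume.prod volume)) =
      cg d * (∫ t in (0 : ℝ)..T, ∫ y, ‖(a y : ℂ) * U t u y‖ ^ 2) ∧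
    ∀ x k : E d, obs T a 0 0 u x k ≤ C * (∫ z : E d × E d,
      obs T a 0 0 u z.1 z.2 * (nz (z.1 - x) (z.2 - k) ^ M)⁻¹ ∂(volume.prod volume))

/-- (FIN, from the weighted sup to `L²`.) The observability inequality for Schwartz data.
Proof: `m = d + 1`, `n` from `CL`. For `z₀ = (x₀,k₀)` let
`S² = sup_z obs(z) wn n (z - z₀)^{-2m}` (finite, `obs` is bounded by `S_REP` with the integrable `obs`). By `CL` at
`z = z₀`: `‖V u z₀‖² ≤ n² S²`. By `S_REP` with `M = 2m + ...` (`M ≥ 2m`) and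
`wn n (z'' - z₀) ≤ wn n (z - z₀) · nz (z''-z)`:
`obs(z) wn(z-z₀)^{-2m} ≤ C ∫ obs(z'') nz(z''-z)^{-M} wn(z-z₀)^{-2m} dz'' ≤ C ∫ obs(z'') wn(z''-z₀)^{-2m} dz''`. So
`‖V u z₀‖² ≤ C n² ∫ obs(z'') wn n (z''-z₀)^{-2m} dz''`; integrate over `z₀` (Tonelli; `∫ wn^{-2m} < ∞` as `2m > 2d`),
and use `S_MOY` and the third part of `S_REP`. -/
def S_FIN : Prop := S_U → S_COV → S_MOY → S_DEC → S_REP → CL →
  ∀ (d : ℕ) (T L η : ℝ) (a : E d → ℝ), 0 < T → 0 < L → 0 < η → Bd a → RD L η a →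
    ∃ C : ℝ, 0 < C ∧ ∀ u : 𝓢(E d, ℂ),
      ∫ y, ‖u y‖ ^ 2 ≤ C * ∫ t in (0 : ℝ)..T, ∫ y, ‖(a y : ℂ) * U t u y‖ ^ 2

/-- (DENS, from Schwartz data to `L²` data.)
Proof: let `a' ≤ a` be smooth (`S_SM`), with the inequality for Schwartz data (constant `C`) for `a'`. Given the `L²` solution
`u`, choose Schwartz functions `f_j → u 0` in `L²` (`SchwartzMap.denseRange_toLpCLM` or similar). For every `t`,
`‖(U t f_j).toLp - u t‖ = ‖f_j.toLp - u 0‖` (isometry `𝓕`, `|sym| = 1`, `SchwartzMap.toLp_fourier_eq`). So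
`∫ ‖a' U t f_j‖²` converges to `∫ a'² ‖u t‖²` uniformly in `t`, both sides converge. Continuity of `t ↦ u t` in `L²` (or of
`t ↦ ∫ a² ‖u t‖²`): dominated convergence on the Fourier side. Then `a'² ≤ a²`. -/
def S_DENS : Prop := S_U → ∀ (d : ℕ) (T C : ℝ) (a a' : E d → ℝ), 0 < T → 0 < C → Bd a' → Continuous a →
  (∀ x, 0 ≤ a x ∧ a x ≤ 1) → (∀ x, a' x ≤ a x) →
  (∀ u : 𝓢(E d, ℂ), ∫ y, ‖u y‖ ^ 2 ≤ C * ∫ t in (0 : ℝ)..T, ∫ y, ‖(a' y : ℂ) * U t u y‖ ^ 2) →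
  ∀ u : ℝ → Lp ℂ 2 (volume : Measure (E d)),
    (∀ t, ((𝓕 (u t) : Lp ℂ 2 (volume : Measure (E d))) : E d → ℂ) =ᵐ[volume]
      fun ξ => sym t ξ * ((𝓕 (u 0) : Lp ℂ 2 (volume : Measure (E d))) : E d → ℂ) ξ) →
    ‖u 0‖ ^ 2 ≤ C * ∫ t in (0 : ℝ)..T, ∫ y, (a y) ^ 2 * ‖(u t : E d → ℂ) y‖ ^ 2

end

end Pool.Agent.Q73.SO
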